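import Pool.Agent.Lib.MP_7f88e4_nt.PS.Walk

set_option autoImplicit false

namespace Pool.Agent.Lib.MP_7f88e4_nt.PS

/-- The centred residue of `u * 4 ^ r` modulo `3 ^ N`. -/
def zz (u : ℤ) (r N : ℕ) : ℤ := Int.bmod (u * 4 ^ r) (3 ^ N)

/-- The first power of `4` that does not divide the residue. -/
def hz (u : ℤ) (r N : ℕ) : ℕ := padicValInt 2 (zz u r N) / 2 + 1

theorem zz_dvd (u : ℤ) (r N : ℕ) : (3 : ℤ) ^ N ∣ zz u r N - u * 4 ^ r := by
  have := Int.dvd_bmod_sub_self (x := u * 4 ^ r) (m := 3 ^ N)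
  simpa [zz] using this

theorem zz_abs (u : ℤ) (r N : ℕ) : 2 * |zz u r N| ≤ 3 ^ N := by
  have h1 := Int.le_bmod (x := u * 4 ^ r) (m := 3 ^ N) (by positivity)
  have h2 := Int.bmod_lt (x := u * 4 ^ r) (m := 3 ^ N) (by positivity)
  push_cast at h1 h2
  unfold zz
  rcases abs_cases (Int.bmod (u * 4 ^ r) (3 ^ N)) with h | h <;> omega

theorem zz_ne {u : ℤ} (hu : ¬ 3 ∣ u) (r : ℕ) {N : ℕ} (hN : 1 ≤ N) : zz u r N ≠ 0 := by
  intro h
  have h1 := (dvd_pow_self (3 : ℤ) (by omega : N ≠ 0)).trans (zz_dvd u r N)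
  rw [h, zero_sub, dvd_neg] at h1
  rcases Int.prime_three.dvd_or_dvd h1 with h2 | h2
  · exact hu h2
  · have := Int.prime_three.dvd_of_dvd_pow h2
    omega

theorem four_dvd_iff {u : ℤ} (hu : ¬ 3 ∣ u) (r : ℕ) {N : ℕ} (hN : 1 ≤ N) (V : ℕ) :
    (4 : ℤ) ^ V ∣ zz u r N ↔ V < hz u r N := by
  have h := padicValInt_dvd_iff (p := 2) (2 * V) (zz u r N)
  rw [pow_mul] at h
  norm_num at h
  rw [h, hz]
  have := zz_ne hu r hN
  constructor
  · rintro (h1 | h1)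
    · exact absurd h1 this
    · omega
  · intro h1
    right
    omega

theorem cop (a b : ℕ) : IsCoprime ((3 : ℤ) ^ a) (4 ^ b) :=
  IsCoprime.pow (by norm_num : IsCoprime (3 : ℤ) 4)

/-- The odd part of a black residue and the residues after the exit. -/
theorem exit_eq {u : ℤ} (hu : ¬ 3 ∣ u) {r N : ℕ} (hN : 1 ≤ N) (hb : 8 * |zz u r N| < 3 ^ N) :
    ∃ y : ℤ, ¬ 4 ∣ y ∧ 2 * 4 ^ hz u r N * |y| < 3 ^ N ∧ ∀ p M, hz u r N + p ≤ r → M ≤ N →
      ∃ R : ℤ, R ≠ 0 ∧ 4 ^ (p + 1) * zz u (r - hz u r N - p) M = y + R * 3 ^ M := by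
  obtain ⟨g, hg⟩ : ∃ g, hz u r N = g + 1 := ⟨_, rfl⟩
  obtain ⟨y, hy⟩ := (four_dvd_iff hu r hN g).2 (by omega)
  have hy4 : ¬ 4 ∣ y := by
    rintro ⟨w, rfl⟩
    have := (four_dvd_iff hu r hN (g + 1)).1 ⟨w, by rw [hy]; ring⟩
    omega
  refine ⟨y, hy4, ?_, fun p M hp hM => ?_⟩
  · rw [hy, abs_mul, abs_of_pos (by positivity : (0 : ℤ) < 4 ^ g)] at hb
    rw [hg, pow_succ]
    linarith
  · have h1 := (pow_dvd_pow (3 : ℤ) hM).trans (zz_dvd u r N)
    have h2 := (zz_dvd u (r - hz u r N - p) M).mul_left (4 ^ g * 4 ^ (p + 1))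
    have e : (4 : ℤ) ^ r = 4 ^ g * 4 ^ (p + 1) * 4 ^ (r - hz u r N - p) := by
      rw [← pow_add, ← pow_add]
      congr 1
      omega
    have h3 : (3 : ℤ) ^ M ∣ 4 ^ g * (4 ^ (p + 1) * zz u (r - hz u r N - p) M - y) := by
      have := dvd_sub h2 h1
      rw [hy, e] at this
      refine (dvd_iff_dvd_of_dvd_sub ?_).1 this
      rw [show ∀ a b : ℤ, a = b → a - b = 0 from fun a b h => sub_eq_zero.2 h]
      · exact dvd_zero _
      · ring
    obtain ⟨R, hR⟩ := (cop M g).dvd_of_dvd_mul_left h3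
    refine ⟨R, ?_, by linarith⟩
    rintro rfl
    exact hy4 ⟨4 ^ p * zz u (r - hz u r N - p) M, by rw [pow_succ] at hR; linarith⟩

theorem three_le_four {J h : ℕ} (hJ : 4 * J ≤ 5 * h) : (3 : ℤ) ^ J ≤ 4 ^ h := by
  refine le_of_pow_le_pow_left₀ (n := 4) (by norm_num) (by positivity) ?_
  rw [← pow_mul, ← pow_mul]
  calc (3 : ℤ) ^ (J * 4) ≤ 3 ^ (5 * h) := pow_le_pow_right₀ (by norm_num) (by omega)
    _ = 243 ^ h := by rw [pow_mul]; norm_num
    _ ≤ 256 ^ h := pow_le_pow_left₀ (by norm_num) (by norm_num) h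
    _ = _ := by rw [mul_comm, pow_mul]; norm_num

theorem y_small {y : ℤ} {h J N : ℕ} (hy : 2 * 4 ^ h * |y| < 3 ^ N) (hJ : 4 * J ≤ 5 * h)
    (hN : J ≤ N) : 2 * |y| < 3 ^ (N - J) := by
  have h1 := three_le_four hJ
  have e : (3 : ℤ) ^ N = 3 ^ J * 3 ^ (N - J) := by rw [← pow_add]; congr 1; omega
  have h2 : (3 : ℤ) ^ J * 3 ^ (N - J) ≤ 4 ^ h * 3 ^ (N - J) :=
    mul_le_mul_of_nonneg_right h1 (by positivity)
  refine lt_of_mul_lt_mul_left (a := 4 ^ h) ?_ (by positivity)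
  linarith

theorem R_small {y z R : ℤ} {p M : ℕ} (hy : 2 * |y| < 3 ^ M) (hz : 8 * |z| < 3 ^ M)
    (h : 4 ^ (p + 1) * z = y + R * 3 ^ M) : |R| ≤ 4 ^ (p + 1) := by
  have h1 : |R| * 3 ^ M ≤ 4 ^ (p + 1) * |z| + |y| := by
    have : R * 3 ^ M = 4 ^ (p + 1) * z - y := by linarith
    rw [← abs_of_pos (by positivity : (0 : ℤ) < 3 ^ M), ← abs_mul, this]
    refine (abs_sub _ _).trans ?_
    rw [abs_mul, abs_of_pos (by positivity : (0 : ℤ) < 4 ^ (p + 1))]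
  have h2 : (1 : ℤ) ≤ 4 ^ (p + 1) := one_le_pow₀ (by norm_num)
  refine le_of_mul_le_mul_right (a := 3 ^ M) ?_ (by positivity)
  nlinarith [abs_nonneg z, abs_nonneg y]

/-- The colouring attached to a frequency `u` prime to `3`. -/
def sys (u : ℤ) (hu : ¬ 3 ∣ u) : Sys where
  white r N := 2 ≤ N ∧ 3 ^ N ≤ 8 * |zz u r N|
  ht := hz u
  white_two _ _ h := h.1
  ht_le r N hN hb := by
    obtain ⟨y, hy4, hy, -⟩ := exit_eq hu (r := r) (N := N) (by omega)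
      (not_le.1 fun h => hb ⟨hN, h⟩)
    have h1 : 1 ≤ |y| := Int.one_le_abs (by rintro rfl; exact hy4 (dvd_zero _))
    have h2 : (4 : ℤ) ^ hz u r N < 3 ^ N := by
      have : (0 : ℤ) < 4 ^ hz u r N := by positivity
      nlinarith
    by_contra hc
    have h3 : ((4 : ℤ) ^ hz u r N) ^ 5 < (3 ^ N) ^ 5 :=
      pow_lt_pow_left₀ h2 (by positivity) (by norm_num)
    rw [← pow_mul, ← pow_mul] at h3
    have h4 : (3 : ℤ) ^ (N * 5) ≤ 4 ^ (hz u r N * 5) :=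
      calc (3 : ℤ) ^ (N * 5) = 243 ^ N := by rw [mul_comm, pow_mul]; norm_num
        _ ≤ 256 ^ N := pow_le_pow_left₀ (by norm_num) (by norm_num) N
        _ = 4 ^ (4 * N) := by rw [pow_mul]; norm_num
        _ ≤ _ := pow_le_pow_right₀ (by norm_num) (by omega)
    linarith
  exit r N J hN hb hr hJ hJN := by
    obtain ⟨y, -, hy, h⟩ := exit_eq hu (r := r) (N := N) (by omega)
      (not_le.1 fun h => hb ⟨hN, h⟩)
    obtain ⟨R, hR0, hR⟩ := h 0 (N - J) (by omega) (by omega)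
    have h1 := y_small hy (J := J) (by omega) (by omega)
    refine ⟨by omega, ?_⟩
    rw [Nat.sub_zero, zero_add, pow_one] at hR
    have h2 : |R| * 3 ^ (N - J) ≤ 4 * |zz u (r - hz u r N) (N - J)| + |y| := by
      have : R * 3 ^ (N - J) = 4 * zz u (r - hz u r N) (N - J) - y := by linarith
      rw [← abs_of_pos (by positivity : (0 : ℤ) < 3 ^ (N - J)), ← abs_mul, this]
      refine (abs_sub _ _).trans ?_
      rw [abs_mul, abs_of_pos (by norm_num : (0 : ℤ) < 4)]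
    have h3 : 1 ≤ |R| := Int.one_le_abs hR0
    have h4 : (0 : ℤ) < 3 ^ (N - J) := by positivity
    nlinarith
  sep r N p V J1 J2 hN hb hp h12 hJ hJN b1 t1 b2 t2 := by
    obtain ⟨y, -, hy, h⟩ := exit_eq hu (r := r) (N := N) (by omega)
      (not_le.1 fun h => hb ⟨hN, h⟩)
    obtain ⟨R1, hR1, e1⟩ := h p (N - J1) hp (by omega)
    obtain ⟨R2, hR2, e2⟩ := h p (N - J2) hp (by omega)
    have s1 := R_small (y_small hy (J := J1) (by omega) (by omega))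
      (not_le.1 fun h => b1 ⟨by omega, h⟩) e1
    have s2 := R_small (y_small hy (J := J2) hJ (by omega))
      (not_le.1 fun h => b2 ⟨by omega, h⟩) e2
    obtain ⟨w1, hw1⟩ := (four_dvd_iff hu _ (by omega) V).2 t1
    obtain ⟨w2, hw2⟩ := (four_dvd_iff hu _ (by omega) V).2 t2
    set D := J2 - J1 with hD
    have e3 : (3 : ℤ) ^ (N - J1) = 3 ^ (N - J2) * 3 ^ D := by
      rw [← pow_add]
      congr 1
      omega
    have h1 : (4 : ℤ) ^ (p + 1 + V) ∣ 3 ^ (N - J2) * (R1 * 3 ^ D - R2) :=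
      ⟨w1 - w2, by rw [hw1, e3] at e1; rw [hw2] at e2; rw [pow_add]; linarith⟩
    have h2 := (cop _ _).symm.dvd_of_dvd_mul_left h1
    have h3 : 1 ≤ |R1| := Int.one_le_abs hR1
    have h4 : (0 : ℤ) < 3 ^ D := by positivity
    by_cases h0 : R1 * 3 ^ D - R2 = 0
    · left
      have h5 : |R2| = |R1| * 3 ^ D := by
        rw [show R2 = R1 * 3 ^ D by linarith, abs_mul, abs_of_pos h4]
      have h6 : (4 : ℤ) ^ (p + 1) ≤ 3 ^ (2 * p + 2) := by
        rw [show 2 * p + 2 = 2 * (p + 1) by ring, pow_mul]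
        exact pow_le_pow_left₀ (by norm_num) (by norm_num) _
      refine (pow_le_pow_iff_right₀ (by norm_num : (1 : ℤ) < 3)).1 ?_
      nlinarith
    · right
      by_contra hc
      have h5 := Int.le_of_dvd (abs_pos.2 h0) ((dvd_abs _ _).2 h2)
      have h6 : |R1 * 3 ^ D - R2| ≤ 4 ^ (p + 1) * (3 ^ D + 1) := by
        refine (abs_sub _ _).trans ?_
        rw [abs_mul, abs_of_pos h4]
        nlinarith
      have h7 : (3 : ℤ) ^ D ≤ 4 ^ D := pow_le_pow_left₀ (by norm_num) (by norm_num) D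
      have h8 : (4 : ℤ) ^ (D + 1) ≤ 4 ^ V := pow_le_pow_right₀ (by norm_num) (by omega)
      have h9 : (1 : ℤ) ≤ 4 ^ D := one_le_pow₀ (by norm_num)
      rw [pow_add] at h5 h8
      have h10 := le_of_mul_le_mul_left (h5.trans h6) (by positivity)
      linarith

end Pool.Agent.Lib.MP_7f88e4_nt.PS
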