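import Mathlib

set_option autoImplicit false

namespace Pool.Agent.Lib.MP_7f88e4_nt.PS

open Finset

/-- Expectation of `g` under the binomial law with `m` fair coins. -/
noncomputable def Ex (m : ℕ) (g : ℕ → ℝ) : ℝ :=
  ∑ J ∈ range (m + 1), (m.choose J : ℝ) / 2 ^ m * g J

theorem Ex_mono {m : ℕ} {f g : ℕ → ℝ} (h : ∀ J, J ≤ m → f J ≤ g J) : Ex m f ≤ Ex m g := by
  refine sum_le_sum fun J hJ => ?_
  exact mul_le_mul_of_nonneg_left (h J (Nat.lt_succ_iff.1 (mem_range.1 hJ))) (by positivity)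

theorem Ex_add (m : ℕ) (f g : ℕ → ℝ) : Ex m (fun J => f J + g J) = Ex m f + Ex m g := by
  simp only [Ex, mul_add, sum_add_distrib]

theorem Ex_mul (m : ℕ) (c : ℝ) (f : ℕ → ℝ) : Ex m (fun J => c * f J) = c * Ex m f := by
  simp only [Ex, mul_sum]
  exact sum_congr rfl fun J _ => by ring

theorem Ex_pow (m : ℕ) (l : ℝ) : Ex m (fun J => l ^ J) = ((1 + l) / 2) ^ m := by
  rw [div_pow, add_comm, add_pow, sum_div, Ex]
  exact sum_congr rfl fun J _ => by rw [one_pow]; ring

theorem Ex_const (m : ℕ) (c : ℝ) : Ex m (fun _ => c) = c := by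
  have h := Ex_pow m 1
  have h2 := Ex_mul m c (fun J => (1 : ℝ) ^ J)
  simp only [one_pow, mul_one] at h h2
  rw [h2, h]
  norm_num

theorem Ex_nonneg {m : ℕ} {f : ℕ → ℝ} (h : ∀ J, 0 ≤ f J) : 0 ≤ Ex m f := by
  have := Ex_mono (m := m) (f := fun _ => 0) (g := f) fun J _ => h J
  rwa [Ex_const] at this

theorem Ex_sum {ι : Type} (s : Finset ι) (m : ℕ) (f : ι → ℕ → ℝ) :
    Ex m (fun J => ∑ i ∈ s, f i J) = ∑ i ∈ s, Ex m (f i) := by
  simp only [Ex, mul_sum]
  exact sum_comm

theorem Ex_zero (g : ℕ → ℝ) : Ex 0 g = g 0 := by simp [Ex]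

theorem Ex_succ (m : ℕ) (g : ℕ → ℝ) :
    Ex (m + 1) g = (Ex m g + Ex m (fun J => g (J + 1))) / 2 := by
  have h := Finset.sum_choose_succ_mul (R := ℝ) (fun i _ => g i) m
  have e : ∀ (n : ℕ) (f : ℕ → ℝ),
      Ex n f = (∑ J ∈ range (n + 1), (n.choose J : ℝ) * f J) / 2 ^ n := by
    intro n f
    rw [Ex, sum_div]
    exact sum_congr rfl fun J _ => by ring
  rw [e, e, e, h, pow_succ]
  field_simp

/-- The law of the level after `m` coins. -/
noncomputable def Bn (m : ℕ) (f : ℕ → ℝ) (N : ℕ) : ℝ := Ex m fun J => f (N - J)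

theorem Bn_zero (f : ℕ → ℝ) (N : ℕ) : Bn 0 f N = f N := by simp [Bn, Ex_zero]

theorem Bn_succ (m : ℕ) (f : ℕ → ℝ) (N : ℕ) :
    Bn (m + 1) f N = (Bn m f N + Bn m f (N - 1)) / 2 := by
  rw [Bn, Ex_succ]
  have : (fun J => f (N - (J + 1))) = fun J => f (N - 1 - J) := by
    funext J
    congr 1
    omega
  rw [this]
  rfl

theorem Bn_add (a b : ℕ) (f : ℕ → ℝ) (N : ℕ) : Bn (a + b) f N = Bn a (Bn b f) N := by
  induction a generalizing N with
  | zero => rw [zero_add, Bn_zero]
  | succ a ih =>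
    rw [show a + 1 + b = a + b + 1 by omega, Bn_succ, Bn_succ, ih, ih]

theorem Bn_two (f : ℕ → ℝ) (N : ℕ) : Bn 2 f N = f N / 4 + f (N - 1) / 2 + f (N - 2) / 4 := by
  rw [Bn_succ, Bn_succ, Bn_succ, Bn_zero, Bn_zero, Bn_zero, show N - 1 - 1 = N - 2 by omega]
  ring

theorem Bn_mono {m : ℕ} {f g : ℕ → ℝ} (h : ∀ N, f N ≤ g N) (N : ℕ) : Bn m f N ≤ Bn m g N :=
  Ex_mono fun _ _ => h _

theorem Bn_nonneg {m : ℕ} {f : ℕ → ℝ} (h : ∀ N, 0 ≤ f N) (N : ℕ) : 0 ≤ Bn m f N :=
  Ex_nonneg fun _ => h _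

/-- Upper tail. -/
theorem chern (h P m : ℕ) (hm : m ≤ 2 * (h + P)) :
    Ex m (fun J => if 9 * h ≤ 8 * J then 1 else 0) ≤ (2 : ℝ) ^ P * (991 / 1000) ^ h := by
  have h1 : Ex m (fun J => if 9 * h ≤ 8 * J then 1 else 0) ≤
      Ex m (fun J => ((1113 / 1000 : ℝ) ^ h)⁻¹ * (11 / 10 : ℝ) ^ J) := by
    refine Ex_mono fun J _ => ?_
    split_ifs with hJ
    · rw [inv_mul_eq_div, le_div_iff₀ (by positivity), one_mul]
      refine le_of_pow_le_pow_left₀ (n := 8) (by norm_num) (by positivity) ?_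
      rw [← pow_mul, ← pow_mul, mul_comm h 8, pow_mul]
      calc ((1113 / 1000 : ℝ) ^ 8) ^ h ≤ ((11 / 10 : ℝ) ^ 9) ^ h :=
            pow_le_pow_left₀ (by positivity) (by norm_num) h
        _ = (11 / 10 : ℝ) ^ (9 * h) := by rw [← pow_mul]
        _ ≤ _ := pow_le_pow_right₀ (by norm_num) (by omega)
    · positivity
  rw [Ex_mul, Ex_pow] at h1
  refine h1.trans ?_
  have h2 : ((1 + 11 / 10 : ℝ) / 2) ^ m ≤ (441 / 400 : ℝ) ^ h * 2 ^ P := by
    calc ((1 + 11 / 10 : ℝ) / 2) ^ m ≤ ((1 + 11 / 10 : ℝ) / 2) ^ (2 * (h + P)) :=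
          pow_le_pow_right₀ (by norm_num) hm
      _ = (441 / 400 : ℝ) ^ h * (441 / 400 : ℝ) ^ P := by
          rw [pow_mul, ← pow_add]
          norm_num
      _ ≤ _ := mul_le_mul_of_nonneg_left (pow_le_pow_left₀ (by norm_num) (by norm_num) P)
          (by positivity)
  rw [inv_mul_eq_div, div_le_iff₀ (by positivity)]
  refine h2.trans ?_
  rw [mul_assoc, ← mul_pow, mul_comm]
  exact mul_le_mul_of_nonneg_left (pow_le_pow_left₀ (by norm_num) (by norm_num) h)
    (by positivity)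

theorem half (h : ℕ) : (1 / 2 : ℝ) ≤ Ex (2 * h) (fun J => if J ≤ h then 1 else 0) := by
  have h1 : Ex (2 * h) (fun J => if J ≤ h then 1 else 0) =
      Ex (2 * h) (fun J => if h ≤ J then 1 else 0) := by
    rw [Ex, Ex, ← sum_range_reflect]
    refine sum_congr rfl fun J hJ => ?_
    have hJ' : J ≤ 2 * h := Nat.lt_succ_iff.1 (mem_range.1 hJ)
    rw [show 2 * h + 1 - 1 - J = 2 * h - J by omega, Nat.choose_symm hJ']
    congr 1
    exact if_congr (by omega) rfl rfl
  have h2 : Ex (2 * h) (fun _ => (1 : ℝ)) ≤ Ex (2 * h)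
      (fun J => (if J ≤ h then 1 else 0) + (if h ≤ J then 1 else 0)) := by
    refine Ex_mono fun J _ => ?_
    split_ifs <;> first | omega | norm_num
  rw [Ex_add, Ex_const, ← h1] at h2
  linarith

/-- The largest binomial weight. -/
noncomputable def mid (n : ℕ) : ℝ := ((2 * n).choose n : ℝ) / 2 ^ (2 * n)

theorem mid_nonneg (n : ℕ) : 0 ≤ mid n := by unfold mid; positivity

theorem mid_sq (n : ℕ) : mid n ^ 2 * (2 * n + 1) ≤ 1 := by
  induction n with
  | zero => simp [mid]
  | succ n ih =>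
    have h := Nat.succ_mul_centralBinom_succ n
    rw [Nat.centralBinom_eq_two_mul_choose, Nat.centralBinom_eq_two_mul_choose] at h
    have h' : ((n : ℝ) + 1) * ((2 * (n + 1)).choose (n + 1) : ℝ) =
        2 * (2 * n + 1) * ((2 * n).choose n : ℝ) := by exact_mod_cast h
    have e : mid (n + 1) = mid n * ((2 * n + 1) / (2 * n + 2)) := by
      unfold mid
      rw [show 2 * (n + 1) = 2 * n + 2 by ring, pow_add] at *
      field_simp
      linarith
    rw [e, mul_pow, div_pow]
    push_cast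
    have h3 : (2 * (n : ℝ) + 1) ^ 2 / (2 * n + 2) ^ 2 * (2 * (n + 1) + 1) ≤ 2 * n + 1 := by
      rw [div_mul_eq_mul_div, div_le_iff₀ (by positivity)]
      nlinarith [(Nat.cast_nonneg n : (0 : ℝ) ≤ n)]
    nlinarith [sq_nonneg (mid n)]

theorem choose_up {n x y : ℕ} (h : x ≤ y) (hy : y ≤ n) : (2 * n).choose x ≤ (2 * n).choose y := by
  induction y, h using Nat.le_induction with
  | base => exact le_rfl
  | succ y _ ih =>
    exact (ih (by omega)).trans (Nat.choose_le_succ_of_lt_half_left (by omega))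

theorem choose_down {n x y : ℕ} (h : y ≤ x) (hy : n ≤ y) (hx : x ≤ 2 * n) :
    (2 * n).choose x ≤ (2 * n).choose y := by
  rw [← Nat.choose_symm hx, ← Nat.choose_symm (h.trans hx)]
  exact choose_up (by omega) (by omega)

theorem window_card {A : Finset ℕ} {c V : ℕ}
    (hA : ∀ x ∈ A, ∀ y ∈ A, x < y → y - x ≤ c ∨ V ≤ y - x) (a : ℕ) :
    (A.filter fun x => a ≤ x ∧ x < a + V).card ≤ c + 1 := by
  rcases (A.filter fun x => a ≤ x ∧ x < a + V).eq_empty_or_nonempty with h | h
  · rw [h]; simp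
  · set b := (A.filter fun x => a ≤ x ∧ x < a + V).min' h with hb
    have hbm := mem_filter.1 (min'_mem _ h)
    rw [← hb] at hbm
    have : (A.filter fun x => a ≤ x ∧ x < a + V) ⊆ Icc b (b + c) := by
      intro x hx
      have h1 : b ≤ x := min'_le _ _ hx
      have hx' := mem_filter.1 hx
      rw [mem_Icc]
      rcases h1.eq_or_lt with h2 | h2
      · omega
      · have := hA b hbm.1 x hx'.1 h2
        omega
    have h3 := card_le_card this
    rw [Nat.card_Icc] at h3
    omega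

theorem window_card3 {A : Finset ℕ} {c V : ℕ} (hV : 1 ≤ V)
    (hA : ∀ x ∈ A, ∀ y ∈ A, x < y → y - x ≤ c ∨ V ≤ y - x) (y : ℕ) :
    (A.filter fun x => y ≤ x + V ∧ x ≤ y + V).card ≤ 3 * (c + 1) := by
  have h1 := window_card hA (y - V)
  have h2 := window_card hA (y - V + V)
  have h3 := window_card hA (y - V + V + V)
  have : (A.filter fun x => y ≤ x + V ∧ x ≤ y + V) ⊆
      (A.filter fun x => y - V ≤ x ∧ x < y - V + V) ∪
      (A.filter fun x => y - V + V ≤ x ∧ x < y - V + V + V) ∪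
      (A.filter fun x => y - V + V + V ≤ x ∧ x < y - V + V + V + V) := by
    intro x hx
    simp only [mem_filter, mem_union] at hx ⊢
    have := hx.1
    have := hx.2
    by_cases a1 : x < y - V + V
    · exact Or.inl (Or.inl ⟨hx.1, by omega, a1⟩)
    · by_cases a2 : x < y - V + V + V
      · exact Or.inl (Or.inr ⟨hx.1, by omega, a2⟩)
      · exact Or.inr ⟨hx.1, by omega, by omega⟩
  have h4 := (card_le_card this).trans ((card_union_le _ _).trans
    (Nat.add_le_add_right (card_union_le _ _) _))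
  omega

/-- A set made of short clusters that are far apart has small binomial mass. -/
theorem sep_mass (n c V : ℕ) (hV : 1 ≤ V) (A : ℕ → Prop) [DecidablePred A]
    (hA : ∀ x y, A x → A y → x < y → y - x ≤ c ∨ V ≤ y - x) :
    Ex (2 * n) (fun J => if A J then 1 else 0) ≤ 3 * (c + 1) / V + 3 * (c + 1) * mid n := by
  set B := (range (2 * n + 1)).filter A with hB
  have hB' : ∀ x ∈ B, ∀ y ∈ B, x < y → y - x ≤ c ∨ V ≤ y - x := fun x hx y hy =>
    hA x y (mem_filter.1 hx).2 (mem_filter.1 hy).2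
  set w : ℕ → ℝ := fun x => ((2 * n).choose x : ℝ) / 2 ^ (2 * n) with hw
  have hw0 : ∀ x, 0 ≤ w x := fun x => by simp only [hw]; positivity
  have hV' : (0 : ℝ) < V := by exact_mod_cast hV
  have e1 : Ex (2 * n) (fun J => if A J then 1 else 0) = ∑ x ∈ B, w x := by
    rw [Ex, hB, sum_filter]
    exact sum_congr rfl fun J _ => by split_ifs <;> simp [hw]
  have key : ∀ x ∈ B, w x ≤ (∑ y ∈ range (2 * n + 1),
      if y ≤ x + V ∧ x ≤ y + V then w y else 0) / V +
      (if n ≤ x + V ∧ x ≤ n + V then mid n else 0) := by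
    intro x hx
    have hx' : x ≤ 2 * n := Nat.lt_succ_iff.1 (mem_range.1 (mem_filter.1 hx).1)
    have hs : 0 ≤ (∑ y ∈ range (2 * n + 1), if y ≤ x + V ∧ x ≤ y + V then w y else 0) / V :=
      div_nonneg (sum_nonneg fun y _ => by split_ifs <;> simp [hw0]) hV'.le
    split_ifs with hc
    · have : w x ≤ mid n := by
        have := Nat.choose_le_middle x (2 * n)
        rw [Nat.mul_div_cancel_left n (by norm_num)] at this
        exact div_le_div_of_nonneg_right (by exact_mod_cast this) (by positivity)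
      linarith
    · rw [add_zero, le_div_iff₀ hV', ← sum_filter]
      obtain ⟨T, hT, hc2, hle⟩ : ∃ T : Finset ℕ, T ⊆ (range (2 * n + 1)).filter
          (fun y => y ≤ x + V ∧ x ≤ y + V) ∧ T.card = V ∧
          ∀ y ∈ T, (2 * n).choose x ≤ (2 * n).choose y := by
        by_cases h1 : n ≤ x
        · refine ⟨Ico (x - V) x, fun y hy => ?_, by rw [Nat.card_Ico]; omega, fun y hy => ?_⟩
          · rw [mem_Ico] at hy
            simp only [mem_filter, mem_range]
            omega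
          · rw [mem_Ico] at hy
            exact choose_down (by omega) (by omega) hx'
        · refine ⟨Ioc x (x + V), fun y hy => ?_, by rw [Nat.card_Ioc]; omega, fun y hy => ?_⟩
          · rw [mem_Ioc] at hy
            simp only [mem_filter, mem_range]
            omega
          · rw [mem_Ioc] at hy
            exact choose_up (by omega) (by omega)
      calc w x * V = ∑ _y ∈ T, w x := by rw [sum_const, hc2, nsmul_eq_mul, mul_comm]
        _ ≤ ∑ y ∈ T, w y := sum_le_sum fun y hy =>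
            div_le_div_of_nonneg_right (by exact_mod_cast hle y hy) (by positivity)
        _ ≤ _ := sum_le_sum_of_subset_of_nonneg hT fun y _ _ => hw0 y
  have cnt : ∀ (y : ℕ) (a : ℝ), 0 ≤ a →
      ∑ x ∈ B, (if y ≤ x + V ∧ x ≤ y + V then a else 0) ≤ 3 * (c + 1) * a := by
    intro y a ha
    rw [← sum_filter, sum_const, nsmul_eq_mul]
    exact mul_le_mul_of_nonneg_right (by exact_mod_cast window_card3 hV hB' y) ha
  rw [e1]
  refine (sum_le_sum key).trans ?_
  rw [sum_add_distrib, ← sum_div, sum_comm]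
  refine add_le_add (div_le_div_of_nonneg_right ?_ hV'.le) (cnt n _ (mid_nonneg n))
  refine (sum_le_sum fun y _ => cnt y _ (hw0 y)).trans ?_
  rw [← mul_sum]
  have := Ex_const (2 * n) 1
  simp only [Ex, mul_one] at this
  rw [this, mul_one]

end Pool.Agent.Lib.MP_7f88e4_nt.PS
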