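import Pool.Agent.Lib.MP_7f88e4_nt.PS.Root
import Pool.Agent.Lib.MP_7f88e4_nt.PS.Final

set_option autoImplicit false

namespace Pool.Agent.Lib.MP_7f88e4_nt.PS

open Finset Filter Topology

theorem sg_le_pow (w : List Bool) : sg w ≤ 2 ^ w.length := by
  have : (rho w : ℝ) ≤ 4 ^ w.length := by exact_mod_cast rho_le w
  rw [sg, div_le_iff₀ (by positivity), ← mul_pow]
  exact this.trans (by norm_num)

theorem om_le_pow (w : List Bool) : om w ≤ (3 / 2) ^ w.length := by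
  rw [om, div_pow]
  exact div_le_div_of_nonneg_right (pow_le_pow_right₀ (by norm_num) (ones_le w)) (by positivity)

theorem relaxed_sg {H : ℕ} {v : List Bool} (h : Good H (v.take (v.length - v.length / 100))) :
    sg v ≤ 16 * 3 ^ H := by
  have h1 := h.sg_le
  have h2 := h.om_le le_rfl
  have h3 := sg_le_pow (v.drop (v.length - v.length / 100))
  rw [List.take_length, List.length_take, min_eq_left (by omega)] at h2
  rw [List.length_drop, show v.length - (v.length - v.length / 100) = v.length / 100 by omega] at h3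
  have h4 : (93 / 100 : ℝ) ^ (v.length - v.length / 100) * 2 ^ (v.length / 100) ≤ 1 :=
    calc (93 / 100 : ℝ) ^ (v.length - v.length / 100) * 2 ^ (v.length / 100)
        ≤ (93 / 100 : ℝ) ^ (99 * (v.length / 100)) * 2 ^ (v.length / 100) :=
          mul_le_mul_of_nonneg_right (pow_le_pow_of_le_one (by norm_num) (by norm_num) (by omega))
            (by positivity)
      _ ≤ 1 := by
          rw [pow_mul, ← mul_pow]
          exact pow_le_one₀ (by positivity) (by norm_num)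
  have h5 := mul_le_mul h2 h3 (sg_nonneg _) (by positivity)
  have h6 := mul_le_mul_of_nonneg_left h4 (by positivity : (0 : ℝ) ≤ 3 ^ H)
  rw [← List.take_append_drop (v.length - v.length / 100) v, sg_append]
  linarith

theorem relaxed_om {H l p : ℕ} {v : List Bool} (h : Good H (v.take (v.length - v.length / 100)))
    (hl : H + 1 ≤ l) (hs : 100 * l ≤ v.length) (hp : 99 * l ≤ p) (hp' : p ≤ v.length) :
    om (v.take p) ≤ 1 / 8 := by
  by_cases h1 : p ≤ v.length - v.length / 100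
  · have h2 := h.om_le (p := p) (by rw [List.length_take]; omega)
    rw [List.take_take, min_eq_left h1] at h2
    refine h2.trans ?_
    calc (3 : ℝ) ^ H * (93 / 100) ^ p ≤ 3 ^ l * (93 / 100) ^ (99 * l) :=
          mul_le_mul (pow_le_pow_right₀ (by norm_num) (by omega))
            (pow_le_pow_of_le_one (by norm_num) (by norm_num) hp) (by positivity) (by positivity)
      _ ≤ (1 / 8) ^ l := by
          rw [pow_mul, ← mul_pow]
          exact pow_le_pow_left₀ (by positivity) (by norm_num) _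
      _ ≤ 1 / 8 := pow_le_of_le_one (by norm_num) (by norm_num) (by omega)
  · have h2 := h.om_le le_rfl
    rw [List.take_length, List.length_take, min_eq_left (by omega)] at h2
    obtain ⟨d, rfl⟩ := Nat.exists_eq_add_of_le (not_le.1 h1).le
    have h3 := om_le_pow ((v.drop (v.length - v.length / 100)).take d)
    rw [List.take_add, om_append]
    refine (mul_le_mul h2 h3 (om_pos _).le (by positivity)).trans ?_
    rw [List.length_take]
    calc (3 : ℝ) ^ H * (93 / 100) ^ (v.length - v.length / 100)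
          * (3 / 2) ^ min d (v.drop (v.length - v.length / 100)).length
        ≤ 3 ^ (v.length / 100) * (93 / 100) ^ (99 * (v.length / 100))
          * (3 / 2) ^ (v.length / 100) :=
          mul_le_mul (mul_le_mul (pow_le_pow_right₀ (by norm_num) (by omega))
            (pow_le_pow_of_le_one (by norm_num) (by norm_num) (by omega)) (by positivity)
            (by positivity)) (pow_le_pow_right₀ (by norm_num) (by omega)) (by positivity)
            (by positivity)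
      _ ≤ (1 / 8) ^ (v.length / 100) := by
          rw [pow_mul, ← mul_pow, ← mul_pow]
          exact pow_le_pow_left₀ (by positivity) (by norm_num) _
      _ ≤ 1 / 8 := pow_le_of_le_one (by norm_num) (by norm_num) (by omega)

theorem Goes.iter {k n r : ℤ} (hk : Odd k) {v : List Bool} (h : Goes k v n r) :
    v = fw k n v.length ∧ (T k)^[v.length] n = r := by
  have h1 := goes_fw hk n v.length
  have h2 := goes_inj hk (fw_length k n v.length).symm h h1
  refine ⟨h2, ?_⟩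
  rw [← h2] at h1
  unfold Goes at h h1
  exact mul_left_cancel₀ (by positivity : (2 : ℤ) ^ v.length ≠ 0) (h1.trans h.symm)

theorem Goes.take {k n r : ℤ} (hk : Odd k) {v : List Bool} (h : Goes k v n r) {t p : ℕ}
    (ht : t + p = v.length) : Goes k (v.take p) ((T k)^[t] n) r := by
  obtain ⟨h1, h2⟩ := h.iter hk
  rw [← h2, h1, fw_length, ← ht, fw_add, List.take_left' (fw_length _ _ _), add_comm,
    Function.iterate_add_apply]
  exact goes_fw hk _ p

theorem Goes.size {k n r : ℤ} {v : List Bool} (h : Goes k v n r) {B : ℝ} (hB : sg v ≤ B) :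
    |(r : ℝ)| - |(k : ℝ)| * B ≤ |(n : ℝ)| * om v ∧ |(n : ℝ)| * om v ≤ |(r : ℝ)| + |(k : ℝ)| * B := by
  have h1 := abs_abs_sub_abs_le_abs_sub ((n : ℝ) * om v) r
  rw [h.real, sub_sub_cancel_left, abs_neg, abs_mul, ← h.real, abs_mul, abs_of_pos (om_pos v),
    abs_of_nonneg (sg_nonneg v), abs_le] at h1
  have h2 := mul_le_mul_of_nonneg_left hB (abs_nonneg (k : ℝ))
  constructor <;> linarith [h1.1, h1.2]

theorem far {k r : ℤ} (hk : Odd k) {H l s : ℕ} {P : List Bool → Prop} {Y : ℝ} {v : List Bool}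
    (hv : v ∈ Cn k r H l P Y s) (hl : H + 1 ≤ l) (hs : 100 * l ≤ s)
    (hr : 2 * (|(k : ℝ)| * (16 * 3 ^ H)) ≤ |(r : ℝ)|) {t : ℕ} (ht : t + 99 * l ≤ s) :
    4 * |(r : ℝ)| ≤ |(((T k)^[t] (pre k v r) : ℤ) : ℝ)| := by
  simp only [Cn, mem_filter, mem_W] at hv
  obtain ⟨rfl, h1, h2, -⟩ := hv
  have h3 := h2.goes.take hk (t := t) (p := v.length - t) (by omega)
  have h4 : sg (v.take (v.length - t)) ≤ 16 * 3 ^ H := by
    refine le_trans ?_ (relaxed_sg h1.2)
    nth_rw 3 [← List.take_append_drop (v.length - t) v]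
    rw [sg_append]
    exact le_add_of_nonneg_right (mul_nonneg (om_pos _).le (sg_nonneg _))
  have h5 := (h3.size h4).1
  have h6 := mul_le_mul_of_nonneg_left (relaxed_om h1.2 hl hs (p := v.length - t) (by omega)
    (by omega)) (abs_nonneg (((T k)^[t] (pre k v r) : ℤ) : ℝ))
  linarith

theorem count_rise (k : ℤ) (hk : Odd k) (hk3 : ¬ 3 ∣ k) {ε : ℝ} (hε : 0 < ε) :
    ∀ᶠ N : ℝ in atTop, ∀ (X : ℝ) (B : Finset ℤ), 0 < X →
      (∀ n ∈ B, |(n : ℝ)| ≤ X ∧ ∃ i, N < |(((T k)^[i] n : ℤ) : ℝ)| ∧ Rise (5 / 9) k ((T k)^[i] n) ∧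
        Good (2 * qq ((T k)^[i] n) + 2) (fw k n i)) → (B.card : ℝ) ≤ ε * X := by
  obtain ⟨C1, hC1, hv⟩ := visits
  obtain ⟨C2, hC2, hs⟩ := rise_sum (δ := 1 / 18) (by norm_num)
  have hk0 : k ≠ 0 := by
    rintro rfl
    exact hk3 (dvd_zero 3)
  have hk1 : (1 : ℝ) ≤ |(k : ℝ)| := by exact_mod_cast Int.one_le_abs hk0
  have h0 := (tendsto_pow_atTop_nhds_zero_of_lt_one
    (r := Real.exp (-((1 / 18 : ℝ) ^ 2 / 1000))) (Real.exp_pos _).le
    (by rw [Real.exp_lt_one_iff]; norm_num)).const_mul (4 * C1 * |(k : ℝ)| * C2)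
  rw [mul_zero] at h0
  obtain ⟨e0, he1, he0⟩ := ((h0.eventually (gt_mem_nhds hε)).and (eventually_ge_atTop 1000)).exists
  filter_upwards [eventually_ge_atTop ((2 * |(k : ℝ)|) ^ 1000),
    eventually_ge_atTop ((2 : ℝ) ^ e0)] with N hNk hN X B hX hB
  choose! i hi using fun n hn => (hB n hn).2
  have h3 := hs k (B.image fun n => (T k)^[i n] n) e0 hk he0 (by
    simp only [mem_image]
    rintro _ ⟨n, hn, rfl⟩
    refine ⟨Nat.le_log_of_pow_le (by norm_num) ?_, by norm_num; exact (hi n hn).2.1⟩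
    have := hN.trans (hi n hn).1.le
    rw [← Int.cast_abs, ← Int.natCast_natAbs] at this
    exact_mod_cast this)
  refine (card_le_cnt hk B i fun n hn =>
    ⟨(hB n hn).1, big_of_lt hk0 hNk (hi n hn).1, (hi n hn).2.2⟩).trans ?_
  refine (sum_le_sum (g := fun r : ℤ => 4 * C1 * |(k : ℝ)| * X *
    ((∑ p ∈ range (100 * (2 * qq r + 2 + 1) + 1), F k p r) / |(r : ℝ)|)) fun r hr => ?_).trans ?_
  · obtain ⟨n, hn, rfl⟩ := mem_image.1 hr
    have a1 : (0 : ℝ) < |(((T k)^[i n] n : ℤ) : ℝ)| :=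
      lt_trans (lt_of_lt_of_le (by positivity) hN) (hi n hn).1
    refine (hv k _ _ _ _ hk hk3 (by positivity)).trans ?_
    have a2 : 0 ≤ ∑ p ∈ range (100 * (2 * qq ((T k)^[i n] n) + 2 + 1) + 1),
        F k p ((T k)^[i n] n) := sum_nonneg fun p _ => F_nonneg k p _
    generalize ∑ p ∈ range (100 * (2 * qq ((T k)^[i n] n) + 2 + 1) + 1),
        F k p ((T k)^[i n] n) = S at *
    calc 2 * X / |(((T k)^[i n] n : ℤ) : ℝ)| * (C1 * (|(k : ℝ)| + 1) * S)
        ≤ 2 * X / |(((T k)^[i n] n : ℤ) : ℝ)| * (C1 * (2 * |(k : ℝ)|) * S) := by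
          gcongr
          linarith
      _ = _ := by ring
  · rw [← mul_sum]
    refine (mul_le_mul_of_nonneg_left h3 (by positivity)).trans ?_
    nlinarith [mul_le_mul_of_nonneg_left he1.le hX.le]

theorem stop {k : ℤ} (hk : Odd k) {M : ℝ} (hM : (2 * |(k : ℝ)|) ^ 1000 ≤ M / 4) {n : ℤ}
    (hn : M < |(n : ℝ)|) : ∃ i, (∀ t < i, M < |(((T k)^[t] n : ℤ) : ℝ)|) ∧
      M / 4 < |(((T k)^[i] n : ℤ) : ℝ)| ∧ Good (2 * qq ((T k)^[i] n) + 2) (fw k n i) ∧
      (|(((T k)^[i] n : ℤ) : ℝ)| ≤ M ∨ Rise (5 / 9) k ((T k)^[i] n)) := by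
  classical
  have hk0 : k ≠ 0 := by
    rintro rfl
    simp at hk
  have hk1 : (1 : ℝ) ≤ |(k : ℝ)| := by exact_mod_cast Int.one_le_abs hk0
  have hk2 : 2 * |(k : ℝ)| ≤ M / 4 := (le_self_pow₀ (by linarith) (by norm_num)).trans hM
  have hex : ∃ i, |(((T k)^[i] n : ℤ) : ℝ)| ≤ M ∨ Rise (5 / 9) k ((T k)^[i] n) := by
    by_contra hc
    have hγ : 0 < Real.log 2 - 5 / 9 * Real.log 3 := by
      have := Real.log_lt_log (by norm_num) (by norm_num : (3 : ℝ) ^ 5 < 2 ^ 9)
      rw [Real.log_pow, Real.log_pow] at this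
      push_cast at this
      linarith
    obtain ⟨i, -, h, -⟩ := exists_first hk (β := 5 / 9) (by norm_num) le_rfl (inv_pos.2 hγ)
      (by simp) (n := n) (by rintro rfl; simp at hn; linarith) fun t _ =>
        big_of_lt hk0 hM (lt_trans (by linarith) (not_le.1 fun h => hc ⟨t, Or.inl h⟩))
    exact hc ⟨i, Or.inr h⟩
  have h1 : ∀ t < Nat.find hex, M < |(((T k)^[t] n : ℤ) : ℝ)| := fun t ht =>
    not_le.1 fun h => Nat.find_min hex ht (Or.inl h)
  have h2 : M / 4 < |(((T k)^[Nat.find hex] n : ℤ) : ℝ)| := by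
    rcases Nat.eq_zero_or_eq_succ_pred (Nat.find hex) with h | h
    · rw [h, Function.iterate_zero_apply]
      linarith
    · have a1 := h1 (Nat.find hex).pred (by omega)
      have a2 := back_le hk ((T k)^[(Nat.find hex).pred] n) 1
      rw [← Function.iterate_add_apply, add_comm 1, ← Nat.succ_eq_add_one, ← h] at a2
      have a3 : |(((T k)^[(Nat.find hex).pred] n : ℤ) : ℝ)| + |(k : ℝ)|
          ≤ 2 * (|(((T k)^[Nat.find hex] n : ℤ) : ℝ)| + |(k : ℝ)|) := by
        simp only [← Int.cast_abs, ← Int.natCast_natAbs]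
        exact_mod_cast a2
      linarith
  refine ⟨Nat.find hex, h1, h2, good_fw hk (β := 5 / 9) (by norm_num) le_rfl (fun t ht => ?_)
    fun t ht h => Nat.find_min hex ht (Or.inr h), Nat.find_spec hex⟩
  rcases ht.eq_or_lt with rfl | ht
  · exact big_of_lt hk0 hM h2
  · exact big_of_lt hk0 hM (lt_trans (by linarith) (h1 t ht))

/-- The integers of absolute value at most `X`. -/
noncomputable def box (X : ℝ) : Finset ℤ := Icc (-⌊X⌋) ⌊X⌋

theorem mem_box {X : ℝ} {n : ℤ} : n ∈ box X ↔ |(n : ℝ)| ≤ X := by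
  rw [box, mem_Icc, ← abs_le, Int.le_floor, Int.cast_abs]

open Classical in
/-- The part of `A` in the box. -/
noncomputable def cut (A : Set ℤ) (X : ℝ) : Finset ℤ := (box X).filter fun n => n ∈ A

theorem mem_cut {A : Set ℤ} {X : ℝ} {n : ℤ} : n ∈ cut A X ↔ |(n : ℝ)| ≤ X ∧ n ∈ A := by
  classical
  rw [cut, mem_filter, mem_box]

theorem card_cut_le (A : Set ℤ) {X : ℝ} (hX : 1 ≤ X) : ((cut A X).card : ℝ) ≤ 3 * X := by
  have h2 : ((cut A X).card : ℝ) ≤ 2 * X / (1 : ℤ) + 1 :=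
    card_cong _ one_pos (by positivity) (fun _ _ _ _ => one_dvd _) fun x hx y hy => by
      linarith [abs_le.1 (mem_cut.1 hx).1, abs_le.1 (mem_cut.1 hy).1]
  rw [Int.cast_one, div_one] at h2
  linarith

theorem mem_of_iter {k : ℤ} {A : Set ℤ} (hA : ∀ n, T k n ∈ A → n ∈ A) (n : ℤ) (i : ℕ)
    (h : (T k)^[i] n ∈ A) : n ∈ A := by
  induction i with
  | zero => exact h
  | succ i ih => exact ih (hA _ (by rwa [Function.iterate_succ_apply'] at h))

theorem iter_mem {k : ℤ} {A : Set ℤ} {M : ℝ} (hA : ∀ n ∈ A, M < |(n : ℝ)| → T k n ∈ A) {n : ℤ}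
    (hn : n ∈ A) (i : ℕ) (h : ∀ t < i, M < |(((T k)^[t] n : ℤ) : ℝ)|) : (T k)^[i] n ∈ A := by
  induction i with
  | zero => exact hn
  | succ i ih =>
    rw [Function.iterate_succ_apply']
    exact hA _ (ih fun t ht => h t (by omega)) (h i (by omega))

/-- The points of `A` where an orbit enters the box of size `M`. -/
noncomputable def Rt (A : Set ℤ) (M : ℝ) : Finset ℤ := (cut A M).filter fun b => M / 4 < |(b : ℝ)|

/-- Good words from `b` that stay outside the box of size `M`. -/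
def Pb (k : ℤ) (M : ℝ) (b : ℤ) (u : List Bool) : Prop := Good (2 * qq b + 2) u ∧
  ∀ p, 1 ≤ p → p ≤ u.length → M < |((pre k (u.take p) b : ℤ) : ℝ)|

theorem cover {k : ℤ} (hk : Odd k) {A : Set ℤ} {M η : ℝ}
    (hA : ∀ n ∈ A, M < |(n : ℝ)| → T k n ∈ A) (hM : (2 * |(k : ℝ)|) ^ 1000 ≤ M / 4) (hη : η < 1)
    (hb : ∀ b ∈ Rt A M, |(k : ℝ)| * (16 * 3 ^ (2 * qq b + 2)) ≤ η * |(b : ℝ)|) (l : ℕ) {ε : ℝ}
    (hR : ∀ (X : ℝ) (B : Finset ℤ), 0 < X →
      (∀ n ∈ B, |(n : ℝ)| ≤ X ∧ ∃ i, M / 4 < |(((T k)^[i] n : ℤ) : ℝ)| ∧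
        Rise (5 / 9) k ((T k)^[i] n) ∧ Good (2 * qq ((T k)^[i] n) + 2) (fw k n i)) →
      (B.card : ℝ) ≤ ε * X) :
    ∃ D : ℝ, ∀ X : ℝ, 0 < X → ∃ n, 100 * l ≤ n ∧ ((cut A X).card : ℝ) ≤ D + ε * X
      + ∑ b ∈ Rt A M, ∑ s ∈ Ico (100 * l) n,
        ((Cn k b (2 * qq b + 2) l (Pb k M b) (X / ((1 - η) * |(b : ℝ)|)) s).card : ℝ) := by
  classical
  refine ⟨(box M ∪ (Rt A M).biUnion fun b => (range (100 * l)).biUnion fun s =>
    (W s).image fun v => pre k v b).card, fun X hX => ?_⟩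
  choose! i hi using fun n hn => stop hk hM (n := n) hn
  refine ⟨max (100 * l) ((cut A X).sup i + 1), le_max_left _ _, ?_⟩
  have h1 := hR X ((cut A X).filter fun n => M < |(n : ℝ)| ∧ Rise (5 / 9) k ((T k)^[i n] n)) hX
    fun n hn => by
      simp only [mem_filter, mem_cut] at hn
      exact ⟨hn.1.1, i n, (hi n hn.2.1).2.1, hn.2.2, (hi n hn.2.1).2.2.1⟩
  have h2 : cut A X ⊆ (box M ∪ (Rt A M).biUnion fun b => (range (100 * l)).biUnion fun s =>
      (W s).image fun v => pre k v b)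
      ∪ ((cut A X).filter fun n => M < |(n : ℝ)| ∧ Rise (5 / 9) k ((T k)^[i n] n))
      ∪ (Rt A M).biUnion fun b => (Ico (100 * l) (max (100 * l) ((cut A X).sup i + 1))).biUnion
        fun s => (Cn k b (2 * qq b + 2) l (Pb k M b) (X / ((1 - η) * |(b : ℝ)|)) s).image
          fun v => pre k v b := by
    intro n hn
    simp only [mem_union, mem_biUnion, mem_image, mem_filter, mem_range, mem_Ico]
    by_cases h : M < |(n : ℝ)|
    swap
    · exact Or.inl (Or.inl (Or.inl (mem_box.2 (not_lt.1 h))))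
    obtain ⟨a1, a2, a3, a4 | a4⟩ := hi n h
    swap
    · exact Or.inl (Or.inr ⟨hn, h, a4⟩)
    have hg := goes_fw hk n (i n)
    have hr : (T k)^[i n] n ∈ Rt A M :=
      mem_filter.2 ⟨mem_cut.2 ⟨a4, iter_mem hA (mem_cut.1 hn).2 _ a1⟩, a2⟩
    by_cases h3 : i n < 100 * l
    · exact Or.inl (Or.inl (Or.inr ⟨_, hr, i n, h3, _, mem_W.2 (fw_length _ _ _), hg.pre_eq⟩))
    refine Or.inr ⟨_, hr, i n, ⟨not_lt.1 h3, lt_max_of_lt_right (Nat.lt_succ_of_le (le_sup hn))⟩,
      _, ?_, hg.pre_eq⟩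
    have b1 := (hg.size (B := 16 * 3 ^ (2 * qq ((T k)^[i n] n) + 2))
      (a3.sg_le.trans (by gcongr; norm_num))).1
    have b2 := hb _ hr
    have b3 : (0 : ℝ) < |(((T k)^[i n] n : ℤ) : ℝ)| := lt_of_le_of_lt (le_trans (by positivity) hM) a2
    simp only [Cn, mem_filter, mem_W, fw_length, true_and]
    refine ⟨⟨⟨(a3.take _).take _, fun p hp hp' => ?_⟩, a3.take _⟩, hg.valid, ?_⟩
    · simp only [List.length_take, fw_length] at hp'
      rw [List.take_take, List.take_take, min_eq_left (by omega), min_eq_left (by omega),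
        (hg.take hk (t := i n - p) (p := p) (by rw [fw_length]; omega)).pre_eq]
      exact a1 _ (by omega)
    · rw [div_mul_eq_mul_div, one_le_div (mul_pos (sub_pos.2 hη) b3)]
      nlinarith [mul_le_mul_of_nonneg_right (mem_cut.1 hn).1 (om_pos (fw k n (i n))).le]
  have h3 := (card_le_card h2).trans ((card_union_le _ _).trans (add_le_add (card_union_le _ _)
    (card_biUnion_le.trans (sum_le_sum fun b _ =>
      card_biUnion_le.trans (sum_le_sum fun s _ => card_image_le)))))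
  have h4 := Nat.cast_le (α := ℝ).2 h3
  push_cast at h4
  linarith

theorem sum_card_le {ι : Type*} (I : Finset ι) (S : ι → Finset ℤ) (B : Finset ℤ) (μ : ℕ)
    (h1 : ∀ i ∈ I, S i ⊆ B) (h2 : ∀ n ∈ B, (I.filter fun i => n ∈ S i).card ≤ μ) :
    ∑ i ∈ I, (S i).card ≤ μ * B.card := by
  have e : ∀ i ∈ I, (S i).card = ∑ n ∈ B, if n ∈ S i then 1 else 0 := fun i hi => by
    rw [← card_filter, filter_mem_eq_inter, inter_eq_right.2 (h1 i hi)]
  rw [sum_congr rfl e, sum_comm, mul_comm, ← smul_eq_mul]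
  exact sum_le_card_nsmul _ _ _ fun n hn => by rw [← card_filter]; exact h2 n hn

theorem card_image_Cn {k : ℤ} (hk : Odd k) (r : ℤ) (H l : ℕ) (P : List Bool → Prop) (Y : ℝ)
    (s : ℕ) : ((Cn k r H l P Y s).image fun v => pre k v r).card = (Cn k r H l P Y s).card := by
  refine card_image_of_injOn fun v hv w hw h => ?_
  simp only [Cn, coe_filter, Set.mem_ofPred_eq, mem_W] at hv hw
  have h' : pre k v r = pre k w r := h
  exact goes_inj hk (by omega) hv.2.2.1.goes (h' ▸ hw.2.2.1.goes)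

theorem image_Cn_sub {k r : ℤ} (hk : Odd k) {A : Set ℤ} (hA : ∀ n, T k n ∈ A → n ∈ A) (hr : r ∈ A)
    (hr0 : r ≠ 0) {H : ℕ} {η : ℝ} (hη : 0 ≤ η) (hb : |(k : ℝ)| * (16 * 3 ^ H) ≤ η * |(r : ℝ)|)
    (l : ℕ) (P : List Bool → Prop) (X : ℝ) (s : ℕ) :
    ((Cn k r H l P (X / ((1 + η) * |(r : ℝ)|)) s).image fun v => pre k v r) ⊆ cut A X := by
  intro n hn
  simp only [Cn, mem_image, mem_filter, mem_W] at hn
  obtain ⟨v, ⟨rfl, h1, h2, h3⟩, rfl⟩ := hn
  have h0 : (0 : ℝ) < |(r : ℝ)| := abs_pos.2 (by exact_mod_cast hr0)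
  refine mem_cut.2 ⟨?_, mem_of_iter hA _ v.length ((h2.goes.iter hk).2.symm ▸ hr)⟩
  have h4 := (h2.goes.size (relaxed_sg h1.2)).2
  rw [div_mul_eq_mul_div, one_le_div (by positivity)] at h3
  exact le_of_mul_le_mul_right (by linarith) (om_pos v)

theorem packing {k : ℤ} (hk : Odd k) {A : Set ℤ} (hA : ∀ n, T k n ∈ A → n ∈ A) {M η : ℝ}
    (hM : 0 ≤ M) (hη0 : 0 ≤ η) (hη : η ≤ 1 / 2)
    (hb : ∀ b ∈ Rt A M, |(k : ℝ)| * (16 * 3 ^ (2 * qq b + 2)) ≤ η * |(b : ℝ)|) {l : ℕ}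
    (hl : ∀ b ∈ Rt A M, 2 * qq b + 2 + 1 ≤ l) (X : ℝ) (n : ℕ) :
    ∑ b ∈ Rt A M, ∑ s ∈ Ico (100 * l) n,
      ((Cn k b (2 * qq b + 2) l (Pb k M b) (X / ((1 + η) * |(b : ℝ)|)) s).card : ℝ)
      ≤ (cut A X).card := by
  have key : ∀ x ∈ Rt A M ×ˢ Ico (100 * l) n, ∀ m ∈ (Cn k x.1 (2 * qq x.1 + 2) l (Pb k M x.1)
      (X / ((1 + η) * |(x.1 : ℝ)|)) x.2).image fun v => pre k v x.1,
      (T k)^[x.2] m = x.1 ∧ |(x.1 : ℝ)| ≤ M ∧ ∀ t < x.2, M < |(((T k)^[t] m : ℤ) : ℝ)| := by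
    rintro ⟨b, s⟩ hx m hm
    obtain ⟨v, hv, rfl⟩ := mem_image.1 hm
    simp only [mem_product, mem_Ico] at hx hv ⊢
    have hv' := hv
    simp only [Cn, mem_filter, mem_W] at hv'
    obtain ⟨rfl, h1, h2, -⟩ := hv'
    have h3 := mem_filter.1 hx.1
    refine ⟨(h2.goes.iter hk).2, (mem_cut.1 h3.1).1, fun t ht => ?_⟩
    by_cases h4 : t + 99 * l ≤ v.length
    · have := far hk hv (hl b hx.1) hx.2.1
        (by nlinarith [hb b hx.1, abs_nonneg (b : ℝ)]) h4
      linarith [h3.2]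
    · have := h1.1.2 (v.length - t) (by omega) (by simp only [List.length_take]; omega)
      rwa [List.take_take, List.take_take, min_eq_left (by omega), min_eq_left (by omega),
        (h2.goes.take hk (t := t) (by omega)).pre_eq] at this
  have h := sum_card_le (Rt A M ×ˢ Ico (100 * l) n) (fun x => (Cn k x.1 (2 * qq x.1 + 2) l
    (Pb k M x.1) (X / ((1 + η) * |(x.1 : ℝ)|)) x.2).image fun v => pre k v x.1) (cut A X) 1 ?_ ?_
  · simp only [card_image_Cn hk, one_mul, sum_product] at h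
    exact_mod_cast h
  · intro x hx
    have h1 := mem_filter.1 (mem_product.1 hx).1
    refine image_Cn_sub hk hA (mem_cut.1 h1.1).2 ?_ hη0 (hb _ (mem_product.1 hx).1) _ _ _ _
    intro h0
    rw [h0] at h1
    simp at h1
    linarith [h1.2]
  · intro m _
    rw [card_le_one]
    intro x hx y hy
    obtain ⟨a1, a2, a3⟩ := key x (mem_filter.1 hx).1 m (mem_filter.1 hx).2
    obtain ⟨b1, b2, b3⟩ := key y (mem_filter.1 hy).1 m (mem_filter.1 hy).2
    have e : x.2 = y.2 := by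
      rcases lt_trichotomy x.2 y.2 with h | h | h
      · exact absurd (a1 ▸ b3 _ h) (not_lt.2 a2)
      · exact h
      · exact absurd (b1 ▸ a3 _ h) (not_lt.2 b2)
    exact Prod.ext (by rw [← a1, ← b1, e]) e

end Pool.Agent.Lib.MP_7f88e4_nt.PS
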