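import Pool.Agent.Lib.MP_7f88e4_nt.PS.Visit

set_option autoImplicit false

namespace Pool.Agent.Lib.MP_7f88e4_nt.PS

open Finset

/-- The length of the window that is inspected at the point `b`. -/
def qq (b : ℤ) : ℕ := Nat.log 2 b.natAbs / 1000

/-- The window at `b` has many odd steps. -/
def Rise (β : ℝ) (k b : ℤ) : Prop := β * qq b < ones (fw k b (qq b))

theorem back_le {k : ℤ} (hk : Odd k) (x : ℤ) (p : ℕ) :
    x.natAbs + k.natAbs ≤ 2 ^ p * (((T k)^[p] x).natAbs + k.natAbs) := by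
  induction p with
  | zero => simp
  | succ p ih =>
    rw [Function.iterate_succ_apply', pow_succ, mul_assoc]
    refine ih.trans (Nat.mul_le_mul_left _ ?_)
    generalize (T k)^[p] x = y
    rw [Int.odd_iff] at hk
    unfold T
    split_ifs with h
    · rw [Int.odd_iff] at h
      omega
    · rw [Int.odd_iff] at h
      omega

theorem pow_qq_le {b : ℤ} (h : 1 ≤ qq b) : 2 ^ (1000 * qq b) ≤ b.natAbs := by
  have hb : b.natAbs ≠ 0 := by
    intro h0
    simp [qq, h0] at h
  refine le_trans (Nat.pow_le_pow_right (by norm_num) ?_) (Nat.pow_log_le_self 2 hb)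
  unfold qq
  omega

theorem lt_pow_qq (b : ℤ) : b.natAbs < 2 ^ (1000 * qq b + 1000) := by
  refine (Nat.lt_pow_succ_log_self (b := 2) (by norm_num) _).trans_le
    (Nat.pow_le_pow_right (by norm_num) ?_)
  unfold qq
  omega

/-- The point `b` is large compared with `k`. -/
def Big (k b : ℤ) : Prop := 1 ≤ qq b ∧ k.natAbs ≤ 2 ^ qq b

theorem qq_back {k : ℤ} (hk : Odd k) {b : ℤ} {p : ℕ} (hp : p < qq b) (hr : Big k ((T k)^[p] b)) :
    qq b ≤ 2 * qq ((T k)^[p] b) + 2 := by
  have h1 := back_le hk b p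
  have h2 := pow_qq_le (b := b) (by omega)
  have h3 := lt_pow_qq ((T k)^[p] b)
  have h4 := hr.2
  generalize qq ((T k)^[p] b) = q at *
  have h5 : 2 ^ q ≤ 2 ^ (1000 * q + 1000) := Nat.pow_le_pow_right (by norm_num) (by omega)
  have h6 : 2 ^ (1000 * qq b) ≤ 2 ^ (p + (1000 * q + 1000 + 1)) := by
    rw [pow_add, pow_succ]
    exact (h2.trans (le_self_add.trans h1)).trans (Nat.mul_le_mul_left _ (by omega))
  have h7 := (Nat.pow_le_pow_iff_right (by norm_num)).1 h6
  omega

theorem ones_bound {k : ℤ} (hk : Odd k) {β : ℝ} (hβ : 0 ≤ β) {n : ℤ} {i : ℕ}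
    (hB : ∀ t ≤ i, Big k ((T k)^[t] n)) (hR : ∀ t < i, ¬ Rise β k ((T k)^[t] n)) (p : ℕ) :
    ∀ t, t + p = i →
      (ones (fw k ((T k)^[t] n) p) : ℝ) ≤ β * p + (2 * qq ((T k)^[i] n) + 2 : ℕ) := by
  induction p using Nat.strong_induction_on with
  | _ p ih =>
    intro t ht
    rcases Nat.eq_zero_or_pos p with rfl | hp
    · simp only [fw, ones_nil, Nat.cast_zero, mul_zero, zero_add]
      positivity
    have h1 := (hB t (by omega)).1
    by_cases h : qq ((T k)^[t] n) ≤ p
    · obtain ⟨d, rfl⟩ := Nat.exists_eq_add_of_le h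
      have h2 := ih d (by omega) (qq ((T k)^[t] n) + t) (by omega)
      have h3 := not_lt.1 (hR t (by omega))
      rw [Function.iterate_add_apply] at h2
      rw [fw_add, ones_append]
      push_cast at h2 ⊢
      linarith
    · have e : (T k)^[i] n = (T k)^[p] ((T k)^[t] n) := by
        rw [← Function.iterate_add_apply, add_comm, ht]
      have h2 := qq_back hk (not_le.1 h) (e ▸ hB i le_rfl)
      have h3 := ones_le (fw k ((T k)^[t] n) p)
      rw [fw_length] at h3
      have h4 : (ones (fw k ((T k)^[t] n) p) : ℝ) ≤ (2 * qq ((T k)^[i] n) + 2 : ℕ) := by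
        rw [e]
        exact_mod_cast (by omega)
      have : 0 ≤ β * p := by positivity
      linarith

theorem good_fw {k : ℤ} (hk : Odd k) {β : ℝ} (hβ : 0 ≤ β) (hβ' : β ≤ 5 / 9) {n : ℤ} {i : ℕ}
    (hB : ∀ t ≤ i, Big k ((T k)^[t] n)) (hR : ∀ t < i, ¬ Rise β k ((T k)^[t] n)) :
    Good (2 * qq ((T k)^[i] n) + 2) (fw k n i) := by
  intro p hp
  rw [fw_length] at hp
  obtain ⟨t, ht⟩ := Nat.exists_eq_add_of_le' hp
  have h1 := ones_bound hk hβ hB hR p t ht.symm
  have h2 : (fw k n i).take p = fw k ((T k)^[t] n) p := by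
    rw [ht, fw_add, List.take_left' (fw_length _ _ _)]
  have h3 : β * p ≤ 5 / 9 * p := mul_le_mul_of_nonneg_right hβ' (by positivity)
  rw [h2]
  generalize 2 * qq ((T k)^[i] n) + 2 = H at *
  have : (9 * ones (fw k ((T k)^[t] n) p) : ℝ) ≤ 5 * p + 9 * H := by linarith
  exact_mod_cast this

theorem big_real {k r : ℤ} (h : Big k r) :
    |(k : ℝ)| ≤ 2 ^ qq r ∧ 30 * (2 ^ qq r * 3 ^ (2 * qq r + 2)) ≤ |(r : ℝ)| := by
  have h1 := pow_qq_le h.1
  obtain ⟨h2, h3⟩ := h
  generalize qq r = q at *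
  constructor
  · rw [← Int.cast_abs, ← Int.natCast_natAbs]
    exact_mod_cast h3
  · have h4 : (2 : ℝ) ^ (1000 * q) ≤ |(r : ℝ)| := by
      rw [← Int.cast_abs, ← Int.natCast_natAbs]
      exact_mod_cast h1
    refine le_trans ?_ h4
    calc (30 : ℝ) * (2 ^ q * 3 ^ (2 * q + 2)) = 270 ^ 1 * 18 ^ q := by
          rw [pow_add, pow_mul, show (18 : ℝ) = 2 * 3 ^ 2 by norm_num, mul_pow]
          ring
      _ ≤ 270 ^ q * 18 ^ q := by gcongr; norm_num
      _ ≤ _ := by
          rw [← mul_pow, pow_mul]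
          refine pow_le_pow_left₀ (by norm_num) ?_ q
          exact le_trans (by norm_num : (270 * 18 : ℝ) ≤ 2 ^ 13)
            (pow_le_pow_right₀ (by norm_num) (by norm_num))

theorem half_le {k n r : ℤ} {v : List Bool} (h : Big k r) (hg : Goes k v n r)
    (hv : Good (2 * qq r + 2) v) : |(r : ℝ)| ≤ 2 * (|(n : ℝ)| * om v) := by
  obtain ⟨h1, h2⟩ := big_real h
  have h3 := hv.sg_le
  have h4 : |(k : ℝ)| * sg v ≤ 2 ^ qq r * (15 * 3 ^ (2 * qq r + 2)) :=
    mul_le_mul h1 h3 (sg_nonneg v) (by positivity)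
  have h5 : |(r : ℝ)| ≤ |(n : ℝ)| * om v + |(k : ℝ)| * sg v := by
    rw [show (r : ℝ) = n * om v + k * sg v by linarith [hg.real]]
    refine (abs_add_le _ _).trans ?_
    rw [abs_mul, abs_mul, abs_of_pos (om_pos v), abs_of_nonneg (sg_nonneg v)]
  linarith

/-- A long stretch of large points contains a point with a rising window. -/
theorem exists_first {k : ℤ} (hk : Odd k) {β A : ℝ} (hβ : 0 ≤ β) (hβ' : β ≤ 5 / 9) (hA : 0 < A)
    (hAβ : 1 / A ≤ Real.log 2 - β * Real.log 3) {n : ℤ} (hn : n ≠ 0)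
    (hB : ∀ t : ℕ, (t : ℝ) ≤ A * Real.log |(n : ℝ)| → Big k ((T k)^[t] n)) :
    ∃ i : ℕ, (i : ℝ) ≤ A * Real.log |(n : ℝ)| ∧ Rise β k ((T k)^[i] n) ∧
      Good (2 * qq ((T k)^[i] n) + 2) (fw k n i) := by
  classical
  have hn1 : (1 : ℝ) ≤ |(n : ℝ)| := by exact_mod_cast Int.one_le_abs hn
  have hl : 0 ≤ A * Real.log |(n : ℝ)| := mul_nonneg hA.le (Real.log_nonneg hn1)
  have hex : ∃ i : ℕ, (i : ℝ) ≤ A * Real.log |(n : ℝ)| ∧ Rise β k ((T k)^[i] n) := by
    by_contra hc
    set i := ⌊A * Real.log |(n : ℝ)|⌋₊ with hi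
    have hB' : ∀ t ≤ i, Big k ((T k)^[t] n) := fun t ht => hB t ((Nat.le_floor_iff hl).1 ht)
    have hR : ∀ t < i, ¬ Rise β k ((T k)^[t] n) := fun t ht h =>
      hc ⟨t, (Nat.le_floor_iff hl).1 ht.le, h⟩
    have h1 := half_le (hB' i le_rfl) (goes_fw hk n i) (good_fw hk hβ hβ' hB' hR)
    have h2 := ones_bound hk hβ hB' hR i 0 (zero_add i)
    obtain ⟨-, h3⟩ := big_real (hB' i le_rfl)
    have h4 : A * Real.log |(n : ℝ)| < i + 1 := Nat.lt_floor_add_one _
    rw [Function.iterate_zero_apply] at h2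
    generalize 2 * qq ((T k)^[i] n) + 2 = H at *
    have l3 : 0 < Real.log 3 := Real.log_pos (by norm_num)
    have h5 : Real.log |(n : ℝ)| ≤ (i + 1) * (Real.log 2 - β * Real.log 3) := by
      refine le_trans ?_ (mul_le_mul_of_nonneg_left hAβ (by positivity))
      rw [mul_one_div, le_div_iff₀ hA]
      linarith
    have h6 : |(n : ℝ)| * om (fw k n i) ≤ 2 * 3 ^ H := by
      have := om_pos (fw k n i)
      rw [← Real.log_le_log_iff (by positivity) (by positivity),
        Real.log_mul (by positivity) (by positivity), Real.log_mul (by positivity) (by positivity),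
        om, Real.log_div (by positivity) (by positivity), Real.log_pow, Real.log_pow, Real.log_pow,
        fw_length]
      nlinarith [mul_le_mul_of_nonneg_right h2 l3.le, mul_nonneg hβ l3.le]
    have h7 : (1 : ℝ) ≤ 2 ^ qq ((T k)^[i] n) := one_le_pow₀ (by norm_num)
    have h8 : (0 : ℝ) < 3 ^ H := by positivity
    nlinarith
  obtain ⟨h1, h2⟩ := Nat.find_spec hex
  refine ⟨Nat.find hex, h1, h2, good_fw hk hβ hβ' (fun t ht => hB t ?_) fun t ht h => ?_⟩
  · exact le_trans (by exact_mod_cast ht) h1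
  · exact Nat.find_min hex ht ⟨le_trans (by exact_mod_cast ht.le) h1, h⟩

open Classical in
theorem rise_words {δ : ℝ} (hδ : 0 ≤ δ) (q : ℕ) :
    (((W q).filter fun v => (1 / 2 + δ) * q < ones v).card : ℝ)
      ≤ 2 ^ q * Real.exp (-(2 * δ ^ 2) * q) := by
  have h1 : ∀ v ∈ (W q).filter fun v => (1 / 2 + δ) * q < ones v,
      Real.exp (4 * δ * ((1 / 2 + δ) * q)) ≤ Real.exp (4 * δ) ^ ones v := by
    intro v hv
    rw [← Real.exp_nat_mul, mul_comm (ones v : ℝ)]
    exact Real.exp_le_exp.2 (mul_le_mul_of_nonneg_left (mem_filter.1 hv).2.le (by positivity))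
  have h2 := (card_nsmul_le_sum _ _ _ h1).trans
    (sum_le_sum_of_subset_of_nonneg (filter_subset _ _) fun v _ _ => by positivity)
  rw [moment, nsmul_eq_mul] at h2
  refine le_of_mul_le_mul_right (h2.trans ?_) (Real.exp_pos _)
  have h3 : 1 + Real.exp (4 * δ) ≤ 2 * Real.exp (2 * δ + 2 * δ ^ 2) := by
    have h4 := Real.cosh_le_exp_half_sq (2 * δ)
    rw [Real.cosh_eq, show (2 * δ) ^ 2 / 2 = 2 * δ ^ 2 by ring] at h4
    have h5 : Real.exp (2 * δ) * Real.exp (-(2 * δ)) = 1 := by simp [← Real.exp_add]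
    rw [show 4 * δ = 2 * δ + 2 * δ by ring, Real.exp_add, Real.exp_add]
    nlinarith [mul_le_mul_of_nonneg_left h4 (Real.exp_pos (2 * δ)).le]
  refine (pow_le_pow_left₀ (by positivity) h3 q).trans (le_of_eq ?_)
  rw [mul_pow, ← Real.exp_nat_mul, mul_assoc, ← Real.exp_add]
  congr 2
  ring

/-- The two-adic pattern and the three-adic weight are independent. -/
theorem shell {k : ℤ} (hk : Odd k) {δ : ℝ} (hδ : 0 ≤ δ) (R : Finset ℤ) {e p : ℕ}
    (he : 1 ≤ e / 1000) (hp : p ≤ 200 * (e / 1000) + 300)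
    (hR : ∀ r ∈ R, Nat.log 2 r.natAbs = e ∧ Rise (1 / 2 + δ) k r) :
    ∑ r ∈ R, F k p r ≤ 8 * 2 ^ e * Real.exp (-(2 * δ ^ 2) * (e / 1000 : ℕ)) := by
  classical
  set q := e / 1000 with hq
  have h1 : ∀ v ∈ W p, ∑ r ∈ R, wt k v r
      ≤ 8 * 2 ^ e * Real.exp (-(2 * δ ^ 2) * q) / 2 ^ p := by
    intro v hv
    rw [mem_W] at hv
    have hj := ones_le v
    have h2 : ∀ w ∈ (W q).filter fun w => (1 / 2 + δ) * q < ones w,
        (((R.filter fun r => Valid k v r).filter fun r => fw k r q = w).card : ℝ)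
          ≤ 8 * 2 ^ e / (3 ^ ones v * 2 ^ q) := by
      intro w _
      refine (card_cong _ (M := 3 ^ ones v * 2 ^ q) (by positivity) (l := 4 * 2 ^ e)
        (by positivity) ?_ ?_).trans ?_
      · intro x hx y hy
        simp only [mem_filter] at hx hy
        refine (cop2 _ _).mul_dvd (hx.1.2.sub hy.1.2) ?_
        have a1 := goes_fw hk x q
        have a2 := goes_fw hk y q
        unfold Goes at a1 a2
        rw [fw_length, hx.2] at a1
        rw [fw_length, hy.2] at a2
        exact (cop2 (ones w) q).symm.dvd_of_dvd_mul_left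
          ⟨(T k)^[q] x - (T k)^[q] y, by linear_combination a2 - a1⟩
      · have a : ∀ x ∈ R, |(x : ℝ)| ≤ 2 * 2 ^ e := fun x hx => by
          have := (Nat.lt_pow_succ_log_self (b := 2) (by norm_num) x.natAbs).le
          rw [(hR x hx).1, pow_succ'] at this
          rw [← Int.cast_abs, ← Int.natCast_natAbs]
          exact_mod_cast this
        intro x hx y hy
        simp only [mem_filter] at hx hy
        linarith [abs_le.1 (a x hx.1.1), abs_le.1 (a y hy.1.1)]
      · have a : (3 : ℝ) ^ ones v * 2 ^ q ≤ 4 * 2 ^ e :=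
          calc (3 : ℝ) ^ ones v * 2 ^ q ≤ (2 ^ 2) ^ ones v * 2 ^ q := by gcongr; norm_num
            _ ≤ 2 ^ (2 + e) := by
              rw [← pow_mul, ← pow_add]
              exact pow_le_pow_right₀ (by norm_num) (by omega)
            _ = _ := by rw [pow_add]; norm_num
        push_cast
        rw [div_add_one (by positivity)]
        exact div_le_div_of_nonneg_right (by linarith) (by positivity)
    have h3 : ((R.filter fun r => Valid k v r).card : ℝ)
        ≤ 2 ^ q * Real.exp (-(2 * δ ^ 2) * q) * (8 * 2 ^ e / (3 ^ ones v * 2 ^ q)) := by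
      rw [card_eq_sum_card_fiberwise (f := fun r => fw k r q)
        (t := (W q).filter fun w => (1 / 2 + δ) * q < ones w), Nat.cast_sum]
      · refine (sum_le_card_nsmul _ _ _ h2).trans ?_
        rw [nsmul_eq_mul]
        exact mul_le_mul_of_nonneg_right (rise_words hδ q) (by positivity)
      · intro r hr
        obtain ⟨a1, a2⟩ := hR r (mem_filter.1 hr).1
        rw [Rise, qq, a1] at a2
        exact mem_filter.2 ⟨mem_W.2 (fw_length _ _ _), a2⟩
    unfold wt
    rw [← sum_filter, sum_const, nsmul_eq_mul]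
    refine (mul_le_mul_of_nonneg_right h3 (om_pos v).le).trans (le_of_eq ?_)
    rw [om, hv]
    field_simp
  unfold F
  rw [sum_comm]
  refine (sum_le_card_nsmul _ _ _ h1).trans ?_
  rw [nsmul_eq_mul, card_W, mul_div_cancel₀ _ (by positivity)]

end Pool.Agent.Lib.MP_7f88e4_nt.PS
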