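import Pool.Agent.Lib.MP_7f88e4_nt.PS.Dens

set_option autoImplicit false

namespace Pool.Agent.Lib.MP_7f88e4_nt.PS

open Finset Filter Topology

theorem tendsto_Rg {V0 : ℝ} (hV : Tendsto V atTop (𝓝 V0)) (k r : ℤ) (P : List Bool → Prop)
    (s a : ℕ) {c : ℝ} (hc : 0 < c) :
    Tendsto (fun X : ℝ => Rg k r P (fun w => V (X / c * w)) s a) atTop
      (𝓝 (V0 * Rg k r P (fun _ => 1) s a)) := by
  simp only [Rg, sum_mul, mul_one, mul_comm V0]
  exact tendsto_finsetSum _ fun v _ => (hV.comp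
    ((tendsto_id.atTop_div_const hc).atTop_mul_const (om_pos v))).const_mul _

theorem tendsto_Rg_n (k r : ℤ) (P : List Bool → Prop) (s a L : ℕ) {Y : ℝ} (hY : 0 < Y) :
    Tendsto (fun n => Rg k r P (fun w => Vn (n - L) (Y * w)) s a) atTop
      (𝓝 (Rg k r P (fun w => V (Y * w)) s a)) := by
  simp only [Rg]
  exact tendsto_finsetSum _ fun v _ => ((tendsto_Vn (mul_pos hY (om_pos v))).comp
    (tendsto_sub_atTop_nat L)).const_mul _

theorem small_add {k b : ℤ} {J : ℕ} (hk : k ≠ 0) (hJ : 1 ≤ J) {N : ℝ}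
    (hN : (2 * |((k * J : ℤ) : ℝ)|) ^ 1000 ≤ N) (hb : N < |(b : ℝ)|) :
    |(k : ℝ)| * (16 * 3 ^ (2 * qq b + 2)) ≤ 1 / J * |(b : ℝ)| := by
  obtain ⟨h1, h2⟩ := big_real (big_of_lt (mul_ne_zero hk (by omega)) hN hb)
  have hJ' : (0 : ℝ) < J := by exact_mod_cast hJ
  rw [Int.cast_mul, abs_mul, Int.cast_natCast, abs_of_pos hJ'] at h1
  rw [one_div_mul_eq_div, le_div_iff₀ hJ']
  have h3 := mul_le_mul_of_nonneg_right h1 (by positivity : (0 : ℝ) ≤ 3 ^ (2 * qq b + 2))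
  have h4 : (0 : ℝ) ≤ 2 ^ qq b * 3 ^ (2 * qq b + 2) := by positivity
  linarith

theorem gap {u δ η ε : ℝ} (hη0 : 0 < η) (hη : η ≤ ε) (hε : ε ≤ 1 / 2) (hδ : δ ≤ ε)
    (hu0 : 0 ≤ u) (hu : (u - δ) / (1 + η) ≤ 3) :
    (u + δ) / (1 - η) ≤ (u - δ) / (1 + η) + 20 * ε := by
  have h1 : 0 < 1 - η := by linarith
  have h2 : 0 < 1 + η := by linarith
  rw [div_le_iff₀ h2] at hu
  have h3 : u ≤ 5 := by linarith
  rw [div_add' _ _ _ h2.ne', div_le_div_iff₀ h1 h2]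
  have h4 : η * u ≤ ε * 5 := mul_le_mul hη h3 hu0 (by linarith)
  have h5 : η * η ≤ 1 / 4 := by nlinarith
  have h6 : ε * (η * η) ≤ ε * (1 / 4) := mul_le_mul_of_nonneg_left h5 (by linarith)
  nlinarith

theorem approx {k : ℤ} (hk : Odd k) (hk3 : ¬ 3 ∣ k) {A : Set ℤ} (hA : ∀ n, T k n ∈ A → n ∈ A)
    {R : ℝ} (hF : ∀ n ∈ A, R < |(n : ℝ)| → T k n ∈ A) {ε : ℝ} (hε : 0 < ε) (hε' : ε ≤ 1 / 2) : ∃ α : ℝ, ∀ᶠ X : ℝ in atTop,
      α - ε ≤ (cut A X).card / X ∧ (cut A X).card / X ≤ α + 22 * ε := by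
  obtain ⟨V0, hV0, hV⟩ := renewal
  obtain ⟨C1, hC1, hU⟩ := root_upper
  obtain ⟨C2, hC2, hL⟩ := root_lower
  have hk0 : k ≠ 0 := by
    rintro rfl
    exact hk3 (dvd_zero 3)
  obtain ⟨J, hJ⟩ := exists_nat_ge (1 / ε)
  have hJ0 : (0 : ℝ) < J := lt_of_lt_of_le (by positivity) hJ
  have hη : 1 / (J : ℝ) ≤ ε := by rwa [one_div_le hJ0 hε]
  have hη0 : 0 < 1 / (J : ℝ) := by positivity
  obtain ⟨N, hR, hN1, hN2, hN3⟩ := ((count_rise k hk hk3 hε).and ((eventually_ge_atTop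
    ((2 * |(k : ℝ)|) ^ 1000)).and ((eventually_ge_atTop ((2 * |((k * J : ℤ) : ℝ)|) ^ 1000)).and
    (eventually_ge_atTop R)))).exists
  obtain ⟨M, rfl⟩ : ∃ M, N = M / 4 := ⟨4 * N, by ring⟩
  have hM : 0 ≤ M / 4 := le_trans (by positivity) hN1
  have hb0 : ∀ b ∈ Rt A M, (0 : ℝ) < |(b : ℝ)| := fun b hb => hM.trans_lt (mem_filter.1 hb).2
  have hb : ∀ b ∈ Rt A M, |(k : ℝ)| * (16 * 3 ^ (2 * qq b + 2)) ≤ 1 / J * |(b : ℝ)| :=
    fun b hb => small_add hk0 (by exact_mod_cast hJ0) hN2 (mem_filter.1 hb).2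
  generalize 1 / (J : ℝ) = η at *
  obtain ⟨E, hE⟩ : ∃ E : ℤ → ℝ,
      ∀ b, E b = (C1 + C2) * ((|(k : ℝ)| + 1) * SF k b (2 * qq b + 2)) := ⟨_, fun _ => rfl⟩
  have hE0 : ∀ b, 0 ≤ C1 * ((|(k : ℝ)| + 1) * SF k b (2 * qq b + 2)) ∧
      0 ≤ C2 * ((|(k : ℝ)| + 1) * SF k b (2 * qq b + 2)) := fun b => by
    have := one_le_SF k b (2 * qq b + 2)
    constructor <;> positivity
  obtain ⟨l, hl1, hl2⟩ := (((tendsto_const_div_atTop_nhds_zero_nat
    (∑ b ∈ Rt A M, E b / |(b : ℝ)|)).eventually (ge_mem_nhds hε)).and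
    (eventually_ge_atTop ((Rt A M).sup fun b => 2 * qq b + 2 + 1))).exists
  have hl : ∀ b ∈ Rt A M, 2 * qq b + 2 + 1 ≤ l := fun b hb =>
    (le_sup (f := fun b => 2 * qq b + 2 + 1) hb).trans hl2
  obtain ⟨D, hD⟩ := cover hk (fun n hn h => hF n hn (by linarith)) hN1 (by linarith) hb l hR
  set δ := (∑ b ∈ Rt A M, E b / |(b : ℝ)|) / l with hδ
  set u := ∑ b ∈ Rt A M, V0 * Rg k b (Pb k M b) (fun _ => 1) (100 * l) (99 * l) / |(b : ℝ)| with hu
  have hu0 : 0 ≤ u := sum_nonneg fun b _ => div_nonneg (mul_nonneg (by linarith)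
    (sum_nonneg fun v _ => mul_nonneg (wt_nonneg k v b) zero_le_one)) (abs_nonneg _)
  have lim : ∀ c : ℝ, 0 < c → ∀ σ : ℝ, Tendsto (fun X : ℝ => ∑ b ∈ Rt A M,
      (Rg k b (Pb k M b) (fun w => V (X / (c * |(b : ℝ)|) * w)) (100 * l) (99 * l) + σ * (E b / l))
        / (c * |(b : ℝ)|)) atTop (𝓝 ((u + σ * δ) / c)) := by
    intro c hc σ
    have e : (u + σ * δ) / c = ∑ b ∈ Rt A M, (V0 * Rg k b (Pb k M b) (fun _ => 1) (100 * l)
        (99 * l) + σ * (E b / l)) / (c * |(b : ℝ)|) := by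
      rw [hu, hδ, sum_div, mul_sum, ← sum_add_distrib, sum_div]
      exact sum_congr rfl fun b _ => by ring
    rw [e]
    exact tendsto_finsetSum _ fun b hb =>
      ((tendsto_Rg hV k b _ _ _ (mul_pos hc (hb0 b hb))).add_const _).div_const _
  have up : ∀ X : ℝ, 0 < X → (cut A X).card / X ≤ D / X + ε + ∑ b ∈ Rt A M,
      (Rg k b (Pb k M b) (fun w => V (X / ((1 - η) * |(b : ℝ)|) * w)) (100 * l) (99 * l)
        + 1 * (E b / l)) / ((1 - η) * |(b : ℝ)|) := by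
    intro X hX
    obtain ⟨n, hn, h⟩ := hD X hX
    refine (div_le_div_of_nonneg_right h hX.le).trans ?_
    rw [add_div, add_div, mul_div_cancel_right₀ _ hX.ne', sum_div]
    refine add_le_add le_rfl (sum_le_sum fun b hb => ?_)
    have c0 : 0 < (1 - η) * |(b : ℝ)| := mul_pos (by linarith) (hb0 b hb)
    have h1 := hU k b _ l n (Pb k M b) _ hk hk3 (hl b hb) (div_pos hX c0) hn
    rw [← sum_div, div_div_eq_mul_div, mul_div_right_comm] at h1
    rw [le_div_iff₀ c0, one_mul, hE, add_mul, add_div]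
    linarith [div_nonneg (hE0 b).2 (Nat.cast_nonneg l)]
  have lo : ∀ X : ℝ, 0 < X → ∑ b ∈ Rt A M,
      (Rg k b (Pb k M b) (fun w => V (X / ((1 + η) * |(b : ℝ)|) * w)) (100 * l) (99 * l)
        + -1 * (E b / l)) / ((1 + η) * |(b : ℝ)|) ≤ (cut A X).card / X := by
    intro X hX
    have c0 : ∀ b ∈ Rt A M, 0 < (1 + η) * |(b : ℝ)| := fun b hb =>
      mul_pos (by linarith) (hb0 b hb)
    refine le_of_tendsto (tendsto_finsetSum _ fun b hb => ((tendsto_Rg_n k b (Pb k M b)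
      (100 * l) (99 * l) (100 * l) (div_pos hX (c0 b hb))).add_const _).div_const _) ?_
    filter_upwards [eventually_ge_atTop (100 * l)] with n hn
    refine le_trans ?_ (div_le_div_of_nonneg_right (packing hk hA (by linarith) hη0.le
      (by linarith) hb hl X n) hX.le)
    rw [sum_div]
    refine sum_le_sum fun b hb => ?_
    have h1 := hL k b _ l n (Pb k M b) _ hk hk3 (hl b hb) (fun u hu => hu.1)
      (div_pos hX (c0 b hb)) hn
    rw [← sum_div, div_div_eq_mul_div, mul_div_right_comm] at h1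
    rw [div_le_iff₀ (c0 b hb), hE, add_mul C1, add_div]
    linarith [div_nonneg (hE0 b).1 (Nat.cast_nonneg l)]
  have l1 := lim (1 + η) (by linarith) (-1)
  have l2 := ((tendsto_const_nhds.div_atTop tendsto_id (f := fun _ => D)).add_const ε).add
    (lim (1 - η) (by linarith) 1)
  rw [neg_one_mul, ← sub_eq_add_neg] at l1
  rw [one_mul, zero_add] at l2
  have h3 : (u - δ) / (1 + η) ≤ 3 := by
    refine le_of_tendsto l1 ?_
    filter_upwards [eventually_ge_atTop 1] with X hX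
    refine (lo X (by linarith)).trans ?_
    rw [div_le_iff₀ (by linarith)]
    exact card_cut_le A hX
  have h4 := gap hη0 hη hε' hl1 hu0 h3
  refine ⟨(u - δ) / (1 + η), ?_⟩
  filter_upwards [eventually_gt_atTop 0, l1.eventually (le_mem_nhds (sub_lt_self _ hε)),
    l2.eventually (ge_mem_nhds (lt_add_of_pos_right _ hε))] with X hX h1 h2
  exact ⟨h1.trans (lo X hX), (up X hX).trans (h2.trans (by linarith))⟩

theorem density_exists {k : ℤ} (hk : Odd k) (hk3 : ¬ 3 ∣ k) {A : Set ℤ}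
    (hA : ∀ n, T k n ∈ A → n ∈ A) {R : ℝ} (hF : ∀ n ∈ A, R < |(n : ℝ)| → T k n ∈ A) :
    ∃ d : ℝ, Tendsto (fun X : ℝ => ((cut A X).card : ℝ) / X) atTop (𝓝 d) := by
  refine cauchySeq_tendsto_of_complete (Metric.cauchySeq_iff.2 fun ε hε => ?_)
  obtain ⟨α, h⟩ := approx hk hk3 hA hF (ε := min (ε / 24) (1 / 2)) (by positivity) (min_le_right _ _)
  obtain ⟨N, hN⟩ := eventually_atTop.1 h
  refine ⟨N, fun X hX Y hY => ?_⟩
  have := min_le_left (ε / 24) (1 / 2)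
  rw [Real.dist_eq, abs_lt]
  constructor <;> linarith [hN X hX, hN Y hY]

end Pool.Agent.Lib.MP_7f88e4_nt.PS
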