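import Pool.Agent.Lib.MP_7f88e4_nt.PS.Phi

set_option autoImplicit false

namespace Pool.Agent.Lib.MP_7f88e4_nt.PS

open Finset

/-- The weight of a backward word at the point `t`. -/
noncomputable def wt (k : ℤ) (v : List Bool) (t : ℤ) : ℝ := if Valid k v t then om v else 0

/-- The defect of one more odd step. -/
noncomputable def dl (k : ℤ) (v : List Bool) (t : ℤ) : ℝ := wt k (v ++ [true]) t - wt k v t / 2

theorem wt_nonneg (k : ℤ) (v : List Bool) (t : ℤ) : 0 ≤ wt k v t := by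
  unfold wt
  split_ifs
  · exact (om_pos v).le
  · exact le_rfl

theorem wt_append (k : ℤ) (v w : List Bool) (t : ℤ) :
    wt k (v ++ w) t = wt k v t * wt k w (pre k v t) := by
  unfold wt
  by_cases h1 : Valid k v t
  · by_cases h2 : Valid k w (pre k v t)
    · rw [if_pos h1, if_pos h2, if_pos (h1.append h2), om_append]
    · rw [if_neg h2, if_neg fun h => h2 h.right, mul_zero]
  · rw [if_neg h1, if_neg fun h => h1 h.left, zero_mul]

theorem wt_false (k : ℤ) (v : List Bool) (t : ℤ) : wt k (v ++ [false]) t = wt k v t / 2 := by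
  rw [wt_append, wt, wt, if_pos (by simp [Valid] : Valid k [false] _), om_false]
  ring

theorem dl_append (k : ℤ) (v w : List Bool) (t : ℤ) :
    dl k (v ++ w) t = wt k v t * dl k w (pre k v t) := by
  unfold dl
  rw [List.append_assoc, wt_append, wt_append k v w]
  ring

theorem Valid.sub {k x y : ℤ} {v : List Bool} (hx : Valid k v x) (hy : Valid k v y) :
    3 ^ ones v ∣ x - y := by
  refine (cop2 (ones v) v.length).dvd_of_dvd_mul_left ?_
  have := dvd_sub hx hy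
  rwa [sub_sub_sub_cancel_right, ← mul_sub] at this

theorem wt_congr {k x y : ℤ} {v : List Bool} (h : 3 ^ ones v ∣ x - y) : wt k v x = wt k v y := by
  have : Valid k v x ↔ Valid k v y := by
    unfold Valid
    refine dvd_iff_dvd_of_dvd_sub ?_
    rw [sub_sub_sub_cancel_right, ← mul_sub]
    exact h.mul_left _
  simp only [wt, this]

theorem dl_congr {k x y : ℤ} {v : List Bool} (h : 3 ^ (v.length + 1) ∣ x - y) :
    dl k v x = dl k v y := by
  have := ones_le v
  unfold dl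
  rw [wt_congr ((pow_dvd_pow 3 (by simp; omega)).trans h),
    wt_congr (v := v) ((pow_dvd_pow 3 (by omega)).trans h)]

theorem sum_wt_le (k : ℤ) (v : List Bool) {M : ℕ} (hM : 3 ^ ones v ≤ M) :
    ∑ x ∈ range M, wt k v x ≤ 2 * M / 2 ^ v.length := by
  have h1 := card_cong (((range M).filter fun x : ℕ => Valid k v x).image fun x : ℕ => (x : ℤ))
    (M := 3 ^ ones v) (by positivity) (l := M) (by positivity) ?_ ?_
  · rw [card_image_of_injective _ Nat.cast_injective] at h1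
    have h2 : (3 : ℝ) ^ ones v ≤ M := by exact_mod_cast hM
    have h3 : (0 : ℝ) < 3 ^ ones v := by positivity
    unfold wt
    rw [← sum_filter, sum_const, nsmul_eq_mul]
    refine (mul_le_mul_of_nonneg_right h1 (om_pos v).le).trans ?_
    unfold om
    push_cast
    rw [← mul_div_assoc, add_mul, div_mul_cancel₀ _ h3.ne']
    exact div_le_div_of_nonneg_right (by linarith) (by positivity)
  · simp only [mem_image, mem_filter]
    rintro _ ⟨x, hx, rfl⟩ _ ⟨y, hy, rfl⟩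
    exact hx.2.sub hy.2
  · simp only [mem_image, mem_filter, mem_range]
    rintro _ ⟨x, hx, rfl⟩ _ ⟨y, hy, rfl⟩
    have : (x : ℝ) ≤ M := by exact_mod_cast hx.1.le
    push_cast
    linarith [(Nat.cast_nonneg y : (0 : ℝ) ≤ y)]

theorem sum_dl_le (k : ℤ) (v : List Bool) :
    ∑ x ∈ range (3 ^ (v.length + 1)), |dl k v x| ≤ 2 * 3 ^ (v.length + 1) / 2 ^ v.length := by
  have := ones_le v
  have h1 := sum_wt_le k (v ++ [true]) (M := 3 ^ (v.length + 1))
    (Nat.pow_le_pow_right (by norm_num) (by simp; omega))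
  have h2 := sum_wt_le k v (M := 3 ^ (v.length + 1))
    (Nat.pow_le_pow_right (by norm_num) (by omega))
  have h3 : ∀ x : ℤ, |dl k v x| ≤ wt k (v ++ [true]) x + wt k v x / 2 := fun x => by
    have := wt_nonneg k v x
    have := wt_nonneg k (v ++ [true]) x
    unfold dl
    rw [abs_le]
    constructor <;> linarith
  refine (sum_le_sum fun (x : ℕ) _ => h3 x).trans ?_
  rw [sum_add_distrib, ← sum_div]
  rw [List.length_append, List.length_singleton, pow_succ (2 : ℝ), ← div_div] at h1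
  push_cast at h1 h2
  linarith

/-- The frequencies prime to `3`. -/
def U (N : ℕ) : Finset ℕ := (range (3 ^ N)).filter fun ξ => ¬ 3 ∣ ξ

theorem sum_U (j : ℕ) (z : ℤ) : ∑ ξ ∈ U (j + 1), ch (z * ξ / 3 ^ (j + 1))
    = (if (3 : ℤ) ^ (j + 1) ∣ z then (3 : ℂ) ^ (j + 1) else 0)
      - if (3 : ℤ) ^ j ∣ z then (3 : ℂ) ^ j else 0 := by
  have h1 := orth (M := 3 ^ (j + 1)) (by positivity) dvd_rfl z
  have h2 := orth (M := 3 ^ j) (by positivity) dvd_rfl z
  push_cast at h1 h2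
  rw [← h1, ← h2, eq_sub_iff_add_eq, ← sum_filter_not_add_sum_filter (range (3 ^ (j + 1))) fun ξ => 3 ∣ ξ, U]
  congr 1
  refine sum_nbij' (fun η => 3 * η) (fun ξ => ξ / 3) ?_ ?_ ?_ ?_ ?_
  · intro η hη
    simp only [mem_filter, mem_range, pow_succ] at *
    omega
  · intro ξ hξ
    simp only [mem_filter, mem_range, pow_succ] at *
    omega
  · intro η _
    omega
  · intro ξ hξ
    simp only [mem_filter] at hξ
    omega
  · intro η _
    congr 1
    push_cast
    field_simp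
    ring

theorem dl_fourier (k : ℤ) (v : List Bool) (t : ℤ) :
    (dl k v t : ℂ) = (∑ ξ ∈ U (ones v + 1),
      ch ((2 ^ (v.length + 1) * t - k * rho (v ++ [true]) : ℤ) * ξ / 3 ^ (ones v + 1)))
        / 2 ^ (v.length + 1) := by
  have h1 : Valid k (v ++ [true]) t
      ↔ 3 ^ (ones v + 1) ∣ 2 ^ (v.length + 1) * t - k * rho (v ++ [true]) := by
    simp [Valid]
  have h2 : Valid k v t ↔ 3 ^ ones v ∣ 2 ^ (v.length + 1) * t - k * rho (v ++ [true]) := by
    have e : 2 ^ (v.length + 1) * t - k * rho (v ++ [true])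
        = 2 ^ 1 * (2 ^ v.length * t - k * rho v) + 3 ^ ones v * -k := by
      rw [rho_append]
      simp
      ring
    rw [e, dvd_add_left (dvd_mul_right _ _)]
    exact ⟨fun h => h.mul_left _, fun h => (cop2 _ 1).dvd_of_dvd_mul_left h⟩
  rw [sum_U, dl, wt, wt, om, om]
  simp only [h1, h2, ones_append, ones_true, ones_nil, List.length_append, List.length_singleton]
  split_ifs <;> push_cast <;> field_simp <;> ring

theorem rho_inj {v w : List Bool} (h1 : v.length = w.length) (h2 : ones v = ones w)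
    (h3 : rho v = rho w) : v = w := by
  obtain ⟨a, b, hab⟩ := cop2 (ones v) v.length
  refine goes_inj (k := 1) odd_one h1 (x := -a * rho v) (t := b * rho v) (t' := b * rho v) ?_ ?_
  · unfold Goes
    linear_combination rho v * hab
  · unfold Goes
    rw [← h1, ← h2, ← h3]
    linear_combination rho v * hab

theorem not_dvd_cop {k : ℤ} (hk : ¬ 3 ∣ k) (N : ℕ) : IsCoprime ((3 : ℤ) ^ N) k :=
  ((Int.prime_three.coprime_iff_not_dvd).2 hk).pow_left

/-- The first factor has a bounded mean square. -/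
theorem first_factor {k : ℤ} (hk : ¬ 3 ∣ k) (A : Finset (List Bool)) {p a N : ℕ} (s : ℕ) {K : ℝ}
    (hK : 0 ≤ K) (hA : ∀ v ∈ A, v.length = p ∧ ones v = a ∧ sg v ≤ K) :
    ∑ ξ ∈ range (3 ^ N), ‖∑ v ∈ A, ch ((-k * 2 ^ s * rho v : ℤ) * ξ / 3 ^ N)‖ ^ 2
      ≤ (K * 2 ^ p + 3 ^ N) * 2 ^ p := by
  have h := mean_sq A (fun _ => 1) (fun v => -k * 2 ^ s * rho v) (M := 3 ^ N) (by positivity)
    dvd_rfl (B := K * 2 ^ p / 3 ^ N + 1) ?_
  · simp only [one_mul, norm_one, one_pow, sum_const, nsmul_eq_mul, mul_one] at h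
    have h1 : (A.card : ℝ) ≤ 2 ^ p := by
      rw [← card_W]
      exact_mod_cast card_le_card fun v hv => mem_W.2 (hA v hv).1
    rw [Nat.cast_pow, Nat.cast_ofNat] at h
    refine h.trans ?_
    rw [mul_add, mul_div_cancel₀ _ (by positivity), mul_one]
    exact mul_le_mul_of_nonneg_left h1 (by positivity)
  · intro v hv
    have h1 := card_cong ((A.filter fun w => ((3 ^ N : ℕ) : ℤ) ∣
      -k * 2 ^ s * rho v - -k * 2 ^ s * rho w).image rho) (M := 3 ^ N) (by positivity)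
      (l := K * 2 ^ p) (by positivity) ?_ ?_
    · rw [card_image_of_injOn] at h1
      · exact_mod_cast h1
      · intro x hx y hy hxy
        have hx' := hA x (mem_filter.1 hx).1
        have hy' := hA y (mem_filter.1 hy).1
        exact rho_inj (by omega) (by omega) hxy
    · simp only [mem_image, mem_filter]
      rintro _ ⟨x, hx, rfl⟩ _ ⟨y, hy, rfl⟩
      have h2 := dvd_sub hx.2 hy.2
      rw [show -k * 2 ^ s * rho v - -k * 2 ^ s * rho x - (-k * 2 ^ s * rho v - -k * 2 ^ s * rho y)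
        = k * (2 ^ s * (rho x - rho y)) by ring, Nat.cast_pow, Nat.cast_ofNat] at h2
      exact (cop2 N s).dvd_of_dvd_mul_left ((not_dvd_cop hk N).dvd_of_dvd_mul_left h2)
    · simp only [mem_image, mem_filter]
      rintro _ ⟨x, hx, rfl⟩ _ ⟨y, hy, rfl⟩
      obtain ⟨h2, -, h3⟩ := hA x hx.1
      have h4 : (0 : ℝ) ≤ rho y := by exact_mod_cast rho_nonneg y
      rw [sg, h2, div_le_iff₀ (by positivity)] at h3
      linarith

/-- The sum of the defects over a product of two types. -/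
noncomputable def G (k : ℤ) (A : Finset (List Bool)) (r c : ℕ) (x : ℤ) : ℝ :=
  ∑ v ∈ A, ∑ w ∈ W (2 * r) with ones w = c, dl k (v ++ w) x

theorem G_fourier (k : ℤ) (A : Finset (List Bool)) {p a : ℕ} (r c : ℕ) (x : ℤ)
    (hA : ∀ v ∈ A, v.length = p ∧ ones v = a) :
    (G k A r c x : ℂ) = ∑ ξ ∈ U (a + c + 1),
      ((∑ v ∈ A, ch ((-k * 2 ^ (2 * r + 1) * rho v : ℤ) * ξ / 3 ^ (a + c + 1)))
        * ch (-k * ξ / 3) * ph (-2 * k * ξ) r c / 2 ^ (p + 2 * r + 1))
        * ch ((2 ^ (p + 2 * r + 1) * ξ : ℤ) * x / (3 ^ (a + c + 1) : ℕ)) := by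
  simp only [G, ph, ← sum_filter, sum_mul, mul_sum, sum_div, Complex.ofReal_sum]
  rw [sum_comm (s := A), sum_comm (s := U (a + c + 1))]
  refine sum_congr rfl fun w hw => ?_
  rw [sum_comm]
  refine sum_congr rfl fun v hv => ?_
  obtain ⟨h1, h2⟩ := hA v hv
  obtain ⟨h3, h4⟩ := mem_filter.1 hw
  rw [mem_W] at h3
  rw [dl_fourier, sum_div, ones_append, List.length_append, h1, h2, h3, h4]
  refine sum_congr rfl fun ξ _ => ?_
  rw [div_mul_eq_mul_div, ← ch_add, ← ch_add, ← ch_add, List.append_assoc, rho_append, rho_append]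
  congr 2
  simp only [List.length_append, List.length_singleton, h2, h3, h4, rho_true, rho_nil,
    List.length_nil]
  push_cast
  field_simp
  ring

theorem G_sq {k : ℤ} (hk : ¬ 3 ∣ k) (A : Finset (List Bool)) {p a r c M : ℕ} {K D : ℝ}
    (hK : 0 ≤ K) (hA : ∀ v ∈ A, v.length = p ∧ ones v = a ∧ sg v ≤ K)
    (hD : ∀ u : ℤ, ¬ 3 ∣ u → ‖ph u r c‖ ≤ 4 ^ r * D) (hj : (3 : ℝ) ^ (a + c) ≤ 2 ^ p)
    (hM : 3 ^ (a + c + 1) ∣ M) :
    ∑ x ∈ range M, |G k A r c x| ^ 2 ≤ M * (D ^ 2 * ((K + 3) / 4)) := by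
  have e : ∀ x : ℕ, |G k A r c x| = ‖(G k A r c x : ℂ)‖ := fun x => by
    rw [Complex.norm_real, Real.norm_eq_abs]
  simp only [e, G_fourier k A r c _ fun v hv => ⟨(hA v hv).1, (hA v hv).2.1⟩, Int.cast_natCast]
  refine (mean_sq _ _ (fun ξ : ℕ => (2 : ℤ) ^ (p + 2 * r + 1) * ξ) (by positivity) hM
    (B := 1) ?_).trans ?_
  · intro ξ hξ
    rw [Nat.cast_le_one, card_le_one]
    intro η hη ζ hζ
    simp only [U, mem_filter, mem_range] at hη hζ
    have h1 := dvd_sub hη.2 hζ.2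
    rw [sub_sub_sub_cancel_left, ← mul_sub, Nat.cast_pow, Nat.cast_ofNat] at h1
    have h2 := (cop2 _ _).dvd_of_dvd_mul_left h1
    have h3 : (η : ℤ) < 3 ^ (a + c + 1) := by exact_mod_cast hη.1.1
    have h4 : (ζ : ℤ) < 3 ^ (a + c + 1) := by exact_mod_cast hζ.1.1
    have := Int.eq_zero_of_abs_lt_dvd h2 (abs_lt.2 ⟨by omega, by omega⟩)
    omega
  · rw [mul_one]
    refine mul_le_mul_of_nonneg_left ?_ (by positivity)
    have h1 : ∀ ξ ∈ U (a + c + 1),
        ‖(∑ v ∈ A, ch ((-k * 2 ^ (2 * r + 1) * rho v : ℤ) * ξ / 3 ^ (a + c + 1)))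
          * ch (-k * ξ / 3) * ph (-2 * k * ξ) r c / 2 ^ (p + 2 * r + 1)‖ ^ 2
        ≤ ‖∑ v ∈ A, ch ((-k * 2 ^ (2 * r + 1) * rho v : ℤ) * ξ / 3 ^ (a + c + 1))‖ ^ 2
          * (D / (2 * 2 ^ p)) ^ 2 := by
      intro ξ hξ
      have h2 : ¬ (3 : ℤ) ∣ -2 * k * ξ := by
        intro h
        rcases Int.prime_three.dvd_or_dvd h with h | h
        · rcases Int.prime_three.dvd_or_dvd h with h | h
          · omega
          · exact hk h
        · exact (mem_filter.1 hξ).2 (by exact_mod_cast h)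
      rw [← mul_pow, norm_div, norm_mul, norm_mul, norm_ch, mul_one, mul_div_assoc]
      refine pow_le_pow_left₀ (by positivity) (mul_le_mul_of_nonneg_left ?_ (norm_nonneg _)) 2
      rw [norm_pow, Complex.norm_ofNat]
      refine (div_le_div_of_nonneg_right (hD _ h2) (by positivity)).trans (le_of_eq ?_)
      rw [pow_succ, pow_add, pow_mul]
      field_simp
      norm_num [mul_comm]
    refine (sum_le_sum h1).trans ?_
    rw [← sum_mul]
    refine (mul_le_mul_of_nonneg_right ((sum_le_sum_of_subset_of_nonneg (filter_subset _ _)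
      fun _ _ _ => by positivity).trans (first_factor hk A (2 * r + 1) hK hA))
      (by positivity)).trans ?_
    have h2 : (0 : ℝ) < 2 ^ p := by positivity
    calc (K * 2 ^ p + 3 ^ (a + c + 1)) * 2 ^ p * (D / (2 * 2 ^ p)) ^ 2
        ≤ (K * 2 ^ p + 3 * 2 ^ p) * 2 ^ p * (D / (2 * 2 ^ p)) ^ 2 := by
          rw [pow_succ, mul_comm _ (3 : ℝ)]
          gcongr
      _ = _ := by
          field_simp
          ring

theorem G_abs {k : ℤ} (hk : ¬ 3 ∣ k) (A : Finset (List Bool)) {p a r c M : ℕ} {K D : ℝ}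
    (hK : 1 ≤ K) (hD0 : 0 ≤ D) (hA : ∀ v ∈ A, v.length = p ∧ ones v = a ∧ sg v ≤ K ^ 2)
    (hD : ∀ u : ℤ, ¬ 3 ∣ u → ‖ph u r c‖ ≤ 4 ^ r * D) (hj : (3 : ℝ) ^ (a + c) ≤ 2 ^ p)
    (hM : 3 ^ (a + c + 1) ∣ M) : ∑ x ∈ range M, |G k A r c x| ≤ M * (D * K) := by
  refine le_of_pow_le_pow_left₀ (n := 2) (by norm_num) (by positivity) ?_
  refine sq_sum_le_card_mul_sum_sq.trans ?_
  rw [card_range]
  refine (mul_le_mul_of_nonneg_left (G_sq hk A (by positivity) hA hD hj hM)
    (by positivity)).trans ?_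
  have h1 : (K ^ 2 + 3) / 4 ≤ K ^ 2 := by nlinarith
  calc (M : ℝ) * (M * (D ^ 2 * ((K ^ 2 + 3) / 4))) ≤ M * (M * (D ^ 2 * K ^ 2)) := by gcongr
    _ = _ := by ring

/-- The defects summed with a weight that depends on the type only. -/
noncomputable def Th (k : ℤ) (h : ℕ → ℝ) (p : ℕ) (x : ℤ) : ℝ := ∑ v ∈ W p, h (ones v) * dl k v x

theorem Th_congr {k x y : ℤ} (h : ℕ → ℝ) {p : ℕ} (hxy : 3 ^ (p + 1) ∣ x - y) :
    Th k h p x = Th k h p y :=
  sum_congr rfl fun v hv => by rw [dl_congr (by rwa [mem_W.1 hv])]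

open Classical in
theorem Th_split (k : ℤ) {h : ℕ → ℝ} (hh : ∀ j, |h j| ≤ 1) (p r : ℕ) (K : ℝ) (x : ℤ) :
    |Th k h (p + 2 * r) x|
      ≤ ∑ v ∈ W p with K < sg v, ∑ w ∈ W (2 * r), |dl k (v ++ w) x|
        + ∑ v ∈ W (p + 2 * r) with 5 * (p + 2 * r) < 9 * ones v, |dl k v x|
        + ∑ a ∈ range (p + 1), ∑ c ∈ range (2 * r + 1),
          if 9 * (a + c) ≤ 5 * (p + 2 * r) then
            |G k (((W p).filter fun v => ¬ K < sg v).filter fun v => ones v = a) r c x| else 0 := by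
  set n := p + 2 * r with hn
  have hd : ∀ v, |h (ones v) * dl k v x| ≤ |dl k v x| := fun v => by
    rw [abs_mul]
    exact mul_le_of_le_one_left (abs_nonneg _) (hh _)
  have e : Th k h n x = ∑ v ∈ W n with 5 * n < 9 * ones v, h (ones v) * dl k v x
      + ∑ v ∈ W p, ∑ w ∈ W (2 * r),
        if 9 * (ones v + ones w) ≤ 5 * n then h (ones v + ones w) * dl k (v ++ w) x else 0 := by
    rw [Th, ← sum_filter_add_sum_filter_not (W n) fun v => 5 * n < 9 * ones v,
      sum_filter fun v => ¬ 5 * n < 9 * ones v]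
    congr 1
    rw [hn, sum_W_add]
    simp only [ones_append, not_lt]
  rw [e, ← sum_filter_add_sum_filter_not (W p) fun v => K < sg v, ← add_assoc,
    add_comm (∑ v ∈ W n with 5 * n < 9 * ones v, h (ones v) * dl k v x)]
  refine (abs_add_three _ _ _).trans (add_le_add_three ?_ ?_ ?_)
  · refine (abs_sum_le_sum_abs _ _).trans (sum_le_sum fun v _ =>
      (abs_sum_le_sum_abs _ _).trans (sum_le_sum fun w _ => ?_))
    split_ifs
    · simpa only [ones_append] using hd (v ++ w)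
    · simp
  · exact (abs_sum_le_sum_abs _ _).trans (sum_le_sum fun v _ => hd v)
  · rw [← sum_fiberwise_of_maps_to (g := ones) (t := range (p + 1)) fun v hv => by
      have := ones_le v
      have := mem_W.1 (mem_filter.1 hv).1
      rw [mem_range]
      omega]
    refine (abs_sum_le_sum_abs _ _).trans (sum_le_sum fun a _ => ?_)
    rw [sum_comm, ← sum_fiberwise_of_maps_to (g := ones) (t := range (2 * r + 1)) fun v hv => by
      have := ones_le v
      have := mem_W.1 hv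
      rw [mem_range]
      omega]
    refine (abs_sum_le_sum_abs _ _).trans (sum_le_sum fun c _ => ?_)
    rw [sum_comm, sum_congr rfl fun v hv => sum_congr rfl fun w hw => by
      rw [(mem_filter.1 hv).2, (mem_filter.1 hw).2]]
    split_ifs
    · simp only [← mul_sum]
      rw [abs_mul]
      exact mul_le_of_le_one_left (abs_nonneg _) (hh _)
    · simp

theorem sum_dl_le' (k : ℤ) {n : ℕ} (B : Finset (List Bool)) (hB : ∀ v ∈ B, v.length = n) :
    ∑ x ∈ range (3 ^ (n + 1)), ∑ v ∈ B, |dl k v x| ≤ B.card * (2 * 3 ^ (n + 1) / 2 ^ n) := by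
  rw [sum_comm, ← nsmul_eq_mul]
  refine sum_le_card_nsmul _ _ _ fun v hv => ?_
  rw [← hB v hv]
  exact sum_dl_le k v

/-- Mixing at fine scales. -/
theorem mix_gen : ∃ C : ℝ, 0 ≤ C ∧ ∀ (k : ℤ) (h : ℕ → ℕ → ℝ) (n : ℕ), ¬ 3 ∣ k →
    (∀ x j, |h x j| ≤ 1) → 1 ≤ n →
    ∑ x ∈ range (3 ^ (n + 1)), |Th k (h x) n x| ≤ 3 ^ (n + 1) * (C / (n : ℝ) ^ 3) := by
  classical
  obtain ⟨C1, h1, hC1⟩ := ph_decay
  obtain ⟨C2, h2, hC2⟩ := pow_mul_bdd 3 (x := 199 / 200) (by norm_num) (by norm_num)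
  refine ⟨16000 + 2 * C2 + 4 * 40 ^ 8 * C1, by positivity, fun k h n hk hh hn => ?_⟩
  have hn' : (1 : ℝ) ≤ n := by exact_mod_cast hn
  have hM : (0 : ℝ) < 3 ^ (n + 1) := by positivity
  by_cases h20 : n < 20
  · have h3 : ∀ x : ℕ, |Th k (h x) n x| ≤ ∑ v ∈ W n, |dl k v x| := fun x =>
      (abs_sum_le_sum_abs _ _).trans (sum_le_sum fun v _ => by
        rw [abs_mul]
        exact mul_le_of_le_one_left (abs_nonneg _) (hh _ _))
    refine (sum_le_sum fun x _ => h3 x).trans ((sum_dl_le' k _ fun v hv => mem_W.1 hv).trans ?_)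
    rw [card_W, mul_div_cancel₀ _ (by positivity), mul_comm]
    refine mul_le_mul_of_nonneg_left ?_ hM.le
    have h4 : (n : ℝ) ≤ 20 := by exact_mod_cast h20.le
    have h5 : (n : ℝ) ^ 3 ≤ 20 ^ 3 := pow_le_pow_left₀ (by positivity) h4 3
    rw [le_div_iff₀ (by positivity)]
    have : 0 ≤ 4 * 40 ^ 8 * C1 := by positivity
    linarith
  obtain ⟨r, p, hr, hp, rfl⟩ : ∃ r p, 1 ≤ r ∧ (18 * r ≤ p ∧ p ≤ 38 * r) ∧ n = p + 2 * r :=
    ⟨n / 20, n - 2 * (n / 20), by omega, by omega, by omega⟩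
  set n := p + 2 * r with hnp
  have hr' : (0 : ℝ) < r := by exact_mod_cast hr
  refine (sum_le_sum fun (x : ℕ) _ => Th_split k (hh x) p r (((n : ℝ) ^ 2) ^ 2) x).trans ?_
  rw [sum_add_distrib, sum_add_distrib]
  have t1 : ∑ x ∈ range (3 ^ (n + 1)), ∑ v ∈ W p with ((n : ℝ) ^ 2) ^ 2 < sg v,
      ∑ w ∈ W (2 * r), |dl k (v ++ w) x| ≤ 3 ^ (n + 1) * (1 / (n : ℝ) ^ 3) := by
    have a1 : (((W p).filter fun v => ((n : ℝ) ^ 2) ^ 2 < sg v).card : ℝ) * ((n : ℝ) ^ 2) ^ 2
        ≤ p * 2 ^ p / 4 := by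
      rw [← sum_sg, ← nsmul_eq_mul]
      exact (card_nsmul_le_sum _ _ _ fun v hv => (mem_filter.1 hv).2.le).trans
        (sum_le_sum_of_subset_of_nonneg (filter_subset _ _) fun v _ _ => sg_nonneg v)
    have a2 : ∀ v ∈ (W p).filter fun v => ((n : ℝ) ^ 2) ^ 2 < sg v,
        ∑ x ∈ range (3 ^ (n + 1)), ∑ w ∈ W (2 * r), |dl k (v ++ w) x|
          ≤ 2 * 3 ^ (n + 1) / 2 ^ p := by
      intro v hv
      rw [sum_comm]
      refine (sum_le_card_nsmul _ _ (2 * 3 ^ (n + 1) / 2 ^ n : ℝ) fun w hw => ?_).trans ?_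
      · have := sum_dl_le k (v ++ w)
        rwa [List.length_append, mem_W.1 (mem_filter.1 hv).1, mem_W.1 hw] at this
      · rw [nsmul_eq_mul, card_W, hnp, pow_add (2 : ℝ)]
        exact le_of_eq (by field_simp)
    rw [sum_comm]
    refine (sum_le_card_nsmul _ _ _ a2).trans ?_
    have a3 : (p : ℝ) ≤ n := by exact_mod_cast (by omega : p ≤ n)
    rw [nsmul_eq_mul]
    rw [← le_div_iff₀ (by positivity)] at a1
    refine (mul_le_mul_of_nonneg_right a1 (by positivity)).trans ?_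
    calc (p : ℝ) * 2 ^ p / 4 / ((n : ℝ) ^ 2) ^ 2 * (2 * 3 ^ (n + 1) / 2 ^ p)
        ≤ (2 * n) * 2 ^ p / 4 / ((n : ℝ) ^ 2) ^ 2 * (2 * 3 ^ (n + 1) / 2 ^ p) := by
          gcongr
          linarith
      _ = _ := by
          field_simp
          ring
  have t2 : ∑ x ∈ range (3 ^ (n + 1)), ∑ v ∈ W n with 5 * n < 9 * ones v, |dl k v x|
      ≤ 3 ^ (n + 1) * (2 * C2 / (n : ℝ) ^ 3) := by
    refine (sum_dl_le' k _ fun v hv => mem_W.1 (mem_filter.1 hv).1).trans ?_
    refine (mul_le_mul_of_nonneg_right ((many_ones n).trans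
      (mul_le_mul_of_nonneg_left (hC2 n hn) (by positivity))) (by positivity)).trans ?_
    exact le_of_eq (by field_simp)
  have t3 : ∑ x ∈ range (3 ^ (n + 1)), ∑ a ∈ range (p + 1), ∑ c ∈ range (2 * r + 1),
      (if 9 * (a + c) ≤ 5 * n then |G k (((W p).filter fun v => ¬ ((n : ℝ) ^ 2) ^ 2 < sg v).filter
        fun v => ones v = a) r c x| else 0)
      ≤ 3 ^ (n + 1) * (4 * 40 ^ 8 * C1 / (n : ℝ) ^ 3) := by
    rw [sum_comm]
    refine (sum_le_card_nsmul _ _ (((2 * r + 1 : ℕ) : ℝ)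
      * (3 ^ (n + 1) * (C1 / (r : ℝ) ^ 8 * (n : ℝ) ^ 2))) fun a ha => ?_).trans ?_
    · rw [sum_comm]
      refine (sum_le_card_nsmul _ _ (3 ^ (n + 1) * (C1 / (r : ℝ) ^ 8 * (n : ℝ) ^ 2) : ℝ)
        fun c hc => ?_).trans (by rw [card_range, nsmul_eq_mul])
      split_ifs with hac
      · refine (G_abs hk _ (p := p) (a := a) (K := (n : ℝ) ^ 2) (one_le_pow₀ hn')
          (by positivity) ?_ (fun u hu => hC1 u r c hu hr) ?_
          (pow_dvd_pow _ (by omega))).trans (by push_cast; exact le_rfl)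
        · intro v hv
          simp only [mem_filter, mem_W, not_lt] at hv
          exact ⟨hv.1.1, hv.2, hv.1.2⟩
        · refine le_of_pow_le_pow_left₀ (n := 81) (by norm_num) (by positivity) ?_
          calc ((3 : ℝ) ^ (a + c)) ^ 81 ≤ (3 ^ 50) ^ p := by
                rw [← pow_mul, ← pow_mul]
                exact pow_le_pow_right₀ (by norm_num) (by omega)
            _ ≤ (2 ^ 81) ^ p := pow_le_pow_left₀ (by norm_num) (by norm_num) _
            _ = _ := by rw [← pow_mul, ← pow_mul, mul_comm]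
      · rw [sum_const_zero]
        positivity
    · have a1 : ((p + 1 : ℕ) : ℝ) ≤ 2 * n := by exact_mod_cast (by omega : p + 1 ≤ 2 * n)
      have a2 : ((2 * r + 1 : ℕ) : ℝ) ≤ 2 * n := by exact_mod_cast (by omega : 2 * r + 1 ≤ 2 * n)
      have a3 : (n : ℝ) / 40 ≤ r := by
        rw [div_le_iff₀ (by norm_num)]
        exact_mod_cast (by omega : n ≤ r * 40)
      rw [card_range, nsmul_eq_mul]
      calc ((p + 1 : ℕ) : ℝ) * (((2 * r + 1 : ℕ) : ℝ)
            * (3 ^ (n + 1) * (C1 / (r : ℝ) ^ 8 * (n : ℝ) ^ 2)))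
          ≤ (2 * n * n) * ((2 * n) * (3 ^ (n + 1) * (C1 / ((n : ℝ) / 40) ^ 8 * (n : ℝ) ^ 2))) := by
            gcongr
            nlinarith
        _ = _ := by
            field_simp
            ring
  refine (add_le_add_three t1 t2 t3).trans ?_
  rw [← mul_add, ← mul_add, ← add_div, ← add_div]
  gcongr
  norm_num

theorem mix : ∃ C : ℝ, 0 ≤ C ∧ ∀ (k : ℤ) (h : ℕ → ℝ) (n : ℕ), ¬ 3 ∣ k → (∀ j, |h j| ≤ 1) → 1 ≤ n →
    ∑ x ∈ range (3 ^ (n + 1)), |Th k h n x| ≤ 3 ^ (n + 1) * (C / (n : ℝ) ^ 3) := by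
  obtain ⟨C, h0, hC⟩ := mix_gen
  exact ⟨C, h0, fun k h n hk hh hn => hC k (fun _ => h) n hk (fun _ => hh) hn⟩

end Pool.Agent.Lib.MP_7f88e4_nt.PS
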