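import Pool.Agent.Lib.MP_7f88e4_nt.Defs

set_option autoImplicit false

namespace Pool.Agent.Lib.MP_7f88e4_nt.PS

open Finset

/-- The words of length `s`. -/
noncomputable def W (s : ℕ) : Finset (List Bool) := (List.finite_length_eq Bool s).toFinset

theorem mem_W {s : ℕ} {v : List Bool} : v ∈ W s ↔ v.length = s := by simp [W]

theorem W_zero : W 0 = {[]} := by
  ext v
  simp [mem_W]

theorem sum_W_add {M : Type*} [AddCommMonoid M] (a b : ℕ) (f : List Bool → M) :
    ∑ v ∈ W (a + b), f v = ∑ u ∈ W a, ∑ w ∈ W b, f (u ++ w) := by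
  rw [← sum_product']
  symm
  refine sum_nbij' (fun x => x.1 ++ x.2) (fun v => (v.take a, v.drop a)) ?_ ?_ ?_ ?_ ?_
  · intro x hx
    simp only [mem_product, mem_W] at hx
    simp [mem_W, hx.1, hx.2]
  · intro v hv
    simp only [mem_W] at hv
    simp [mem_W, hv]
  · intro x hx
    simp only [mem_product, mem_W] at hx
    simp [← hx.1]
  · intro v _
    simp
  · intro x _
    rfl

theorem sum_W_one {M : Type*} [AddCommMonoid M] (f : List Bool → M) :
    ∑ v ∈ W 1, f v = f [false] + f [true] := by
  have : W 1 = {[false], [true]} := by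
    ext v
    simp only [mem_W, List.length_eq_one_iff, mem_insert, mem_singleton]
    constructor
    · rintro ⟨a, rfl⟩
      cases a <;> simp
    · rintro (rfl | rfl) <;> simp
  rw [this, sum_pair (by simp)]

theorem sum_W_cons {M : Type*} [AddCommMonoid M] (s : ℕ) (f : List Bool → M) :
    ∑ v ∈ W (s + 1), f v = ∑ v ∈ W s, (f (false :: v) + f (true :: v)) := by
  rw [add_comm s 1, sum_W_add, sum_W_one, sum_add_distrib]
  rfl

theorem sum_W_snoc {M : Type*} [AddCommMonoid M] (s : ℕ) (f : List Bool → M) :
    ∑ v ∈ W (s + 1), f v = ∑ v ∈ W s, (f (v ++ [false]) + f (v ++ [true])) := by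
  rw [sum_W_add]
  exact sum_congr rfl fun v _ => sum_W_one _

/-- The number of odd steps. -/
def ones (v : List Bool) : ℕ := v.count true

@[simp] theorem ones_nil : ones [] = 0 := rfl

@[simp] theorem ones_false (v : List Bool) : ones (false :: v) = ones v := by simp [ones]

@[simp] theorem ones_true (v : List Bool) : ones (true :: v) = ones v + 1 := by simp [ones]

@[simp] theorem ones_append (v w : List Bool) : ones (v ++ w) = ones v + ones w := by simp [ones]

theorem ones_le (v : List Bool) : ones v ≤ v.length := List.count_le_length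

/-- The additive part of the affine map of a word. -/
def rho : List Bool → ℤ
  | [] => 0
  | false :: v => rho v
  | true :: v => 2 ^ v.length + 3 * rho v

@[simp] theorem rho_nil : rho [] = 0 := rfl

@[simp] theorem rho_false (v : List Bool) : rho (false :: v) = rho v := rfl

@[simp] theorem rho_true (v : List Bool) : rho (true :: v) = 2 ^ v.length + 3 * rho v := rfl

theorem rho_append (v w : List Bool) :
    rho (v ++ w) = 2 ^ w.length * rho v + 3 ^ ones v * rho w := by
  induction v with
  | nil => simp
  | cons b v ih =>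
    cases b
    · simp [ih]
    · simp only [List.cons_append, rho_true, ih, ones_true, List.length_append]
      ring

theorem rho_nonneg (v : List Bool) : 0 ≤ rho v := by
  induction v with
  | nil => simp
  | cons b v ih =>
    cases b
    · simpa using ih
    · rw [rho_true]
      positivity

theorem rho_le (v : List Bool) : rho v ≤ 4 ^ v.length := by
  induction v with
  | nil => simp
  | cons b v ih =>
    have h : (2 : ℤ) ^ v.length ≤ 4 ^ v.length := pow_le_pow_left₀ (by norm_num) (by norm_num) _
    have h0 : (0 : ℤ) < 2 ^ v.length := by positivity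
    cases b
    · rw [rho_false, List.length_cons, pow_succ]
      linarith
    · rw [rho_true, List.length_cons, pow_succ]
      linarith

/-- `x` is sent to `t` by the affine map of the word `v`. -/
def Goes (k : ℤ) (v : List Bool) (x t : ℤ) : Prop :=
  2 ^ v.length * t = 3 ^ ones v * x + k * rho v

/-- The word `v` leads backward from `t` to an integer. -/
def Valid (k : ℤ) (v : List Bool) (t : ℤ) : Prop := 3 ^ ones v ∣ 2 ^ v.length * t - k * rho v

instance (k : ℤ) (v : List Bool) (t : ℤ) : Decidable (Valid k v t) := by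
  unfold Valid
  infer_instance

/-- The point reached backward. -/
def pre (k : ℤ) (v : List Bool) (t : ℤ) : ℤ := (2 ^ v.length * t - k * rho v) / 3 ^ ones v

theorem Valid.goes {k t : ℤ} {v : List Bool} (h : Valid k v t) : Goes k v (pre k v t) t := by
  unfold Goes pre
  rw [Int.mul_ediv_cancel' h]
  ring

theorem Goes.valid {k x t : ℤ} {v : List Bool} (h : Goes k v x t) : Valid k v t :=
  ⟨x, by unfold Goes at h; linarith⟩

theorem Goes.pre_eq {k x t : ℤ} {v : List Bool} (h : Goes k v x t) : pre k v t = x := by
  have h1 := h.valid.goes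
  unfold Goes at h h1
  exact mul_left_cancel₀ (by positivity : (3 : ℤ) ^ ones v ≠ 0) (by linarith)

theorem Goes.append {k x y t : ℤ} {v w : List Bool} (h1 : Goes k v y t) (h2 : Goes k w x y) :
    Goes k (v ++ w) x t := by
  unfold Goes at *
  rw [rho_append, List.length_append, ones_append, pow_add, pow_add]
  linear_combination 2 ^ w.length * h1 + 3 ^ ones v * h2

theorem cop2 (a b : ℕ) : IsCoprime ((3 : ℤ) ^ a) (2 ^ b) :=
  IsCoprime.pow (by norm_num : IsCoprime (3 : ℤ) 2)

theorem Valid.left {k t : ℤ} {v w : List Bool} (h : Valid k (v ++ w) t) : Valid k v t := by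
  obtain ⟨x, hx⟩ := h
  rw [rho_append, List.length_append, ones_append, pow_add, pow_add] at hx
  refine (cop2 (ones v) w.length).dvd_of_dvd_mul_left ⟨3 ^ ones w * x + k * rho w, ?_⟩
  linear_combination hx

theorem Valid.right {k t : ℤ} {v w : List Bool} (h : Valid k (v ++ w) t) :
    Valid k w (pre k v t) := by
  have h1 := h.left.goes
  obtain ⟨x, hx⟩ := h
  unfold Goes at h1
  rw [rho_append, List.length_append, ones_append, pow_add, pow_add] at hx
  refine ⟨x, mul_left_cancel₀ (by positivity : (3 : ℤ) ^ ones v ≠ 0) ?_⟩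
  linear_combination hx - 2 ^ w.length * h1

theorem Valid.append {k t : ℤ} {v w : List Bool} (h1 : Valid k v t)
    (h2 : Valid k w (pre k v t)) : Valid k (v ++ w) t :=
  (h1.goes.append h2.goes).valid

/-- A point and a length determine the word. -/
theorem goes_inj {k : ℤ} (hk : Odd k) {v w : List Bool} (hl : v.length = w.length) {x t t' : ℤ}
    (h1 : Goes k v x t) (h2 : Goes k w x t') : v = w := by
  induction v using List.reverseRecOn generalizing w x with
  | nil => exact (List.length_eq_zero_iff.1 hl.symm).symm
  | append_singleton v b ih =>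
    rcases List.eq_nil_or_concat w with rfl | ⟨w, c, rfl⟩
    · simp at hl
    rw [List.concat_eq_append] at *
    have hl' : v.length = w.length := by simpa using hl
    have key : ∀ (u : List Bool) (d : Bool) (s : ℤ), Goes k (u ++ [d]) x s →
        Goes k u (if d then (3 * x + k) / 2 else x / 2) s ∧ (d = true ↔ Odd x) := by
      intro u d s h
      have g1 := h.valid.left.goes
      have g2 := h.valid.right.goes
      rw [← (g1.append g2).pre_eq.symm.trans h.pre_eq] at *
      generalize pre k [d] (pre k u s) = x at *
      generalize pre k u s = y at *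
      obtain ⟨m, rfl⟩ := hk
      cases d
      · have e : 2 * y = x := by simpa [Goes] using g2
        refine ⟨by simpa [← e] using g1, by simp [← e]⟩
      · have e : 2 * y = 3 * x + (2 * m + 1) := by simpa [Goes] using g2
        refine ⟨by simpa [← e] using g1, by simp only [true_iff, Int.odd_iff]; omega⟩
    obtain ⟨a1, a2⟩ := key v b t h1
    obtain ⟨a3, a4⟩ := key w c t' h2
    have hbc : b = c := by
      rw [← a4] at a2
      cases b <;> cases c <;> simp_all
    subst hbc
    rw [ih hl' a1 a3]

/-- The parity word of the first `i` steps from `n`, last step first. -/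
def fw (k n : ℤ) : ℕ → List Bool
  | 0 => []
  | i + 1 => decide (Odd ((T k)^[i] n)) :: fw k n i

@[simp] theorem fw_length (k n : ℤ) (i : ℕ) : (fw k n i).length = i := by
  induction i with
  | zero => rfl
  | succ i ih => simp [fw, ih]

theorem fw_add (k n : ℤ) (a b : ℕ) : fw k n (a + b) = fw k ((T k)^[a] n) b ++ fw k n a := by
  induction b with
  | zero => rfl
  | succ b ih =>
    rw [← add_assoc, fw, fw, ih, add_comm a b, Function.iterate_add_apply]
    rfl

theorem goes_fw {k : ℤ} (hk : Odd k) (n : ℤ) (i : ℕ) : Goes k (fw k n i) n ((T k)^[i] n) := by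
  induction i with
  | zero => simp [Goes, fw]
  | succ i ih =>
    rw [fw, Function.iterate_succ_apply']
    generalize (T k)^[i] n = y at *
    refine Goes.append (v := [decide (Odd y)]) ?_ ih
    obtain ⟨m, rfl⟩ := hk
    by_cases h : Odd y
    · obtain ⟨z, rfl⟩ := h
      have : Odd (2 * z + 1) := ⟨z, rfl⟩
      simp only [Goes, T, this, if_true, decide_true]
      simp
      omega
    · have h' := h
      rw [Int.not_odd_iff_even, Int.even_iff] at h'
      simp only [Goes, T, h, if_false, decide_false]
      simp
      omega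

/-- The multiplier of a word. -/
noncomputable def om (v : List Bool) : ℝ := 3 ^ ones v / 2 ^ v.length

/-- The normalised additive part. -/
noncomputable def sg (v : List Bool) : ℝ := rho v / 2 ^ v.length

theorem om_pos (v : List Bool) : 0 < om v := by
  unfold om
  positivity

theorem om_append (v w : List Bool) : om (v ++ w) = om v * om w := by
  unfold om
  rw [ones_append, List.length_append, pow_add, pow_add]
  field_simp

theorem om_false : om [false] = 1 / 2 := by simp [om]

theorem om_true : om [true] = 3 / 2 := by simp [om]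

theorem sg_nonneg (v : List Bool) : 0 ≤ sg v := by
  have : (0 : ℝ) ≤ rho v := by exact_mod_cast rho_nonneg v
  unfold sg
  positivity

theorem sg_append (v w : List Bool) : sg (v ++ w) = sg v + om v * sg w := by
  unfold sg om
  rw [rho_append, List.length_append, pow_add]
  push_cast
  field_simp

theorem sg_false : sg [false] = 0 := by simp [sg]

theorem sg_true : sg [true] = 1 / 2 := by simp [sg]

theorem Goes.real {k x t : ℤ} {v : List Bool} (h : Goes k v x t) :
    (x : ℝ) * om v = t - k * sg v := by
  have : (2 : ℝ) ^ v.length * t = 3 ^ ones v * x + k * rho v := by exact_mod_cast h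
  unfold om sg
  field_simp
  linarith

theorem sg_le (v : List Bool) : sg v ≤ ∑ p ∈ range v.length, om (v.take p) := by
  induction v using List.reverseRecOn with
  | nil => simp [sg]
  | append_singleton v b ih =>
    rw [List.length_append, List.length_singleton, sum_range_succ, List.take_left', sg_append]
    · have h1 : ∑ p ∈ range v.length, om ((v ++ [b]).take p)
          = ∑ p ∈ range v.length, om (v.take p) :=
        sum_congr rfl fun p hp => by
          rw [List.take_append_of_le_length (mem_range.1 hp).le]
      have := om_pos v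
      cases b
      · rw [h1, sg_false]
        linarith
      · rw [h1, sg_true]
        linarith
    · rfl

theorem moment (l : ℝ) (s : ℕ) : ∑ v ∈ W s, l ^ ones v = (1 + l) ^ s := by
  induction s with
  | zero => simp [W_zero]
  | succ s ih =>
    rw [sum_W_cons, pow_succ, ← ih, sum_mul]
    exact sum_congr rfl fun v _ => by simp [pow_succ]; ring

theorem card_W (s : ℕ) : ((W s).card : ℝ) = 2 ^ s := by
  have := moment 1 s
  norm_num at this
  exact this

theorem sum_om (s : ℕ) : ∑ v ∈ W s, om v = 2 ^ s := by
  have h : ∑ v ∈ W s, om v = (∑ v ∈ W s, (3 : ℝ) ^ ones v) / 2 ^ s := by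
    rw [sum_div]
    exact sum_congr rfl fun v hv => by rw [om, mem_W.1 hv]
  rw [h, moment, ← div_pow]
  norm_num

theorem sum_sg (s : ℕ) : ∑ v ∈ W s, sg v = s * 2 ^ s / 4 := by
  induction s with
  | zero => simp [W_zero, sg]
  | succ s ih =>
    have h : ∀ v : List Bool, sg (v ++ [false]) + sg (v ++ [true]) = 2 * sg v + om v / 2 := by
      intro v
      rw [sg_append, sg_append, sg_false, sg_true]
      ring
    rw [sum_W_snoc, sum_congr rfl fun v _ => h v, sum_add_distrib, ← mul_sum, ← sum_div, ih,
      sum_om]
    push_cast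
    ring

/-- Words with many odd steps are rare. -/
theorem many_ones (s : ℕ) :
    (((W s).filter fun v => 5 * s < 9 * ones v).card : ℝ) ≤ 2 ^ s * (199 / 200) ^ s := by
  have h1 : ∀ v ∈ (W s).filter fun v => 5 * s < 9 * ones v,
      (1131 / 1000 : ℝ) ^ s ≤ (5 / 4) ^ ones v := by
    intro v hv
    have h := (mem_filter.1 hv).2
    refine le_of_pow_le_pow_left₀ (n := 9) (by norm_num) (by positivity) ?_
    calc ((1131 / 1000 : ℝ) ^ s) ^ 9 = ((1131 / 1000) ^ 9) ^ s := by rw [← pow_mul, ← pow_mul, mul_comm]
      _ ≤ ((5 / 4) ^ 5) ^ s := pow_le_pow_left₀ (by norm_num) (by norm_num) _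
      _ ≤ _ := by
        rw [← pow_mul, ← pow_mul]
        exact pow_le_pow_right₀ (by norm_num) (by omega)
  have h2 := (card_nsmul_le_sum _ _ _ h1).trans
    (sum_le_sum_of_subset_of_nonneg (filter_subset _ _) fun v _ _ => by positivity)
  rw [moment, nsmul_eq_mul] at h2
  refine le_of_mul_le_mul_right (h2.trans ?_) (by positivity)
  rw [← mul_pow, ← mul_pow]
  exact pow_le_pow_left₀ (by norm_num) (by norm_num) _

/-- Words with few odd steps are rare. -/
theorem few_ones (r c : ℕ) (hc : 2 * c ≤ r) :
    (((W (2 * r)).filter fun v => ones v = c).card : ℝ) ≤ 4 ^ r * (25 / 32) ^ r := by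
  have h1 : ∀ v ∈ (W (2 * r)).filter fun v => ones v = c,
      (1 / 2 : ℝ) ^ r ≤ (1 / 4) ^ ones v := by
    intro v hv
    rw [(mem_filter.1 hv).2, show (1 / 4 : ℝ) = (1 / 2) ^ 2 by norm_num, ← pow_mul]
    exact pow_le_pow_of_le_one (by norm_num) (by norm_num) hc
  have h2 := (card_nsmul_le_sum _ _ _ h1).trans
    (sum_le_sum_of_subset_of_nonneg (filter_subset _ _) fun v _ _ => by positivity)
  rw [moment, nsmul_eq_mul] at h2
  refine le_of_mul_le_mul_right (h2.trans ?_) (by positivity)
  rw [← mul_pow, ← mul_pow, pow_mul]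
  exact pow_le_pow_left₀ (by norm_num) (by norm_num) _

/-- Pairwise congruent integers in an interval. -/
theorem card_cong (A : Finset ℤ) {M : ℤ} (hM : 0 < M) {l : ℝ} (hl : 0 ≤ l)
    (h1 : ∀ x ∈ A, ∀ y ∈ A, M ∣ x - y) (h2 : ∀ x ∈ A, ∀ y ∈ A, (x : ℝ) - y ≤ l) :
    (A.card : ℝ) ≤ l / M + 1 := by
  have hM' : (0 : ℝ) < M := by exact_mod_cast hM
  rcases A.eq_empty_or_nonempty with rfl | hA
  · simp only [card_empty, Nat.cast_zero]
    positivity
  obtain ⟨a, ha, hmin⟩ := exists_min_image A id hA
  have h3 : A.card ≤ (range (⌊l / M⌋₊ + 1)).card := by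
    refine card_le_card_of_injOn (fun x => ((x - a) / M).toNat) ?_ ?_
    · intro x hx
      obtain ⟨c, hc⟩ := h1 x hx a ha
      have h4 : (0 : ℤ) ≤ c := by
        have : a ≤ x := hmin x hx
        exact nonneg_of_mul_nonneg_right (by linarith : 0 ≤ M * c) hM
      have h5 := h2 x hx a ha
      have h6 : (x : ℝ) - a = M * c := by exact_mod_cast hc
      simp only [hc, Int.mul_ediv_cancel_left _ hM.ne', coe_range, Set.mem_Iio]
      obtain ⟨d, rfl⟩ := Int.eq_ofNat_of_zero_le h4
      rw [Int.toNat_natCast, Nat.lt_succ_iff]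
      refine Nat.le_floor ?_
      rw [le_div_iff₀ hM']
      push_cast at h6
      linarith
    · intro x hx y hy hxy
      obtain ⟨c, hc⟩ := h1 x hx a ha
      obtain ⟨d, hd⟩ := h1 y hy a ha
      have h4 : (0 : ℤ) ≤ c := by
        have : a ≤ x := hmin x hx
        exact nonneg_of_mul_nonneg_right (by linarith : 0 ≤ M * c) hM
      have h5 : (0 : ℤ) ≤ d := by
        have : a ≤ y := hmin y hy
        exact nonneg_of_mul_nonneg_right (by linarith : 0 ≤ M * d) hM
      simp only [hc, hd, Int.mul_ediv_cancel_left _ hM.ne'] at hxy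
      have : c = d := by omega
      subst this
      linarith
  rw [card_range] at h3
  have h4 : (A.card : ℝ) ≤ ⌊l / M⌋₊ + 1 := by exact_mod_cast h3
  linarith [Nat.floor_le (div_nonneg hl hM'.le)]

end Pool.Agent.Lib.MP_7f88e4_nt.PS
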