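import Pool.Agent.Lib.MP_7f88e4_nt.PS.Arith
import Pool.Agent.Lib.MP_7f88e4_nt.PS.Words

set_option autoImplicit false

namespace Pool.Agent.Lib.MP_7f88e4_nt.PS

open Finset

/-- The additive character `exp (2 π i θ)`. -/
noncomputable def ch (θ : ℝ) : ℂ := Complex.exp (((2 * Real.pi * θ : ℝ) : ℂ) * Complex.I)

theorem ch_add (a b : ℝ) : ch (a + b) = ch a * ch b := by
  unfold ch
  rw [← Complex.exp_add]
  congr 1
  push_cast
  ring

theorem norm_ch (a : ℝ) : ‖ch a‖ = 1 := Complex.norm_exp_ofReal_mul_I _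

theorem ch_eq_one {a : ℝ} : ch a = 1 ↔ ∃ n : ℤ, a = n := by
  unfold ch
  rw [Complex.exp_eq_one_iff]
  have h : (2 * Real.pi * Complex.I : ℂ) ≠ 0 := by simp [Real.pi_ne_zero]
  refine exists_congr fun n => ⟨fun hn => ?_, fun hn => ?_⟩
  · have : (a : ℂ) = n := by
      refine mul_right_cancel₀ h ?_
      rw [← hn]
      push_cast
      ring
    exact_mod_cast this
  · rw [hn]
    push_cast
    ring

theorem ch_int (n : ℤ) : ch n = 1 := ch_eq_one.2 ⟨n, rfl⟩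

theorem ch_zero : ch 0 = 1 := ch_eq_one.2 ⟨0, by simp⟩

theorem ch_nat_mul (a : ℝ) (n : ℕ) : ch (n * a) = ch a ^ n := by
  induction n with
  | zero => simp [ch_zero]
  | succ n ih => rw [pow_succ, ← ih, ← ch_add, Nat.cast_succ, add_mul, one_mul]

theorem conj_ch (a : ℝ) : (starRingEnd ℂ) (ch a) = ch (-a) := by
  unfold ch
  rw [← Complex.exp_conj, map_mul, Complex.conj_ofReal, Complex.conj_I]
  congr 1
  push_cast
  ring

theorem orth {M M' : ℕ} (hM : 0 < M) (h : M ∣ M') (y : ℤ) :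
    ∑ x ∈ range M', ch (y * x / M) = if (M : ℤ) ∣ y then (M' : ℂ) else 0 := by
  have hM' : (M : ℝ) ≠ 0 := by positivity
  have e : ∀ x : ℕ, ch (y * x / M) = ch (y / M) ^ x := fun x => by
    rw [← ch_nat_mul]
    congr 1
    ring
  simp only [e]
  split_ifs with hy
  · obtain ⟨c, rfl⟩ := hy
    have : ch (((M * c : ℤ) : ℝ) / M) = 1 := ch_eq_one.2 ⟨c, by push_cast; field_simp⟩
    rw [this]
    simp
  · have h1 : ch (y / M) ≠ 1 := by
      intro h1
      obtain ⟨n, hn⟩ := ch_eq_one.1 h1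
      refine hy ⟨n, ?_⟩
      rw [div_eq_iff hM'] at hn
      rw [mul_comm]
      exact_mod_cast hn
    obtain ⟨c, rfl⟩ := h
    have h2 : ch (y / M) ^ (M * c) = 1 := by
      rw [← ch_nat_mul]
      exact ch_eq_one.2 ⟨c * y, by push_cast; field_simp⟩
    rw [geom_sum_eq h1, h2]
    simp

/-- Mean square of an exponential sum with few coincident frequencies. -/
theorem mean_sq {ι : Type*} (I : Finset ι) (a : ι → ℂ) (y : ι → ℤ) {M M' : ℕ} (hM : 0 < M)
    (h : M ∣ M') {B : ℝ}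
    (hB : ∀ i ∈ I, ((I.filter fun j => (M : ℤ) ∣ y i - y j).card : ℝ) ≤ B) :
    ∑ x ∈ range M', ‖∑ i ∈ I, a i * ch (y i * x / M)‖ ^ 2 ≤ M' * B * ∑ i ∈ I, ‖a i‖ ^ 2 := by
  have e1 : ∀ x : ℕ, ((‖∑ i ∈ I, a i * ch (y i * x / M)‖ ^ 2 : ℝ) : ℂ)
      = ∑ i ∈ I, ∑ j ∈ I, (starRingEnd ℂ) (a j) * a i * ch (((y i - y j : ℤ) : ℝ) * x / M) := by
    intro x
    rw [Complex.ofReal_pow, ← Complex.conj_mul', map_sum, sum_mul_sum, sum_comm]
    refine sum_congr rfl fun i _ => sum_congr rfl fun j _ => ?_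
    rw [map_mul, conj_ch, show ((y i - y j : ℤ) : ℝ) * x / M = -(y j * x / M) + y i * x / M by
      push_cast; ring, ch_add]
    ring
  have e2 : ((∑ x ∈ range M', ‖∑ i ∈ I, a i * ch (y i * x / M)‖ ^ 2 : ℝ) : ℂ)
      = ∑ i ∈ I, ∑ j ∈ I, (starRingEnd ℂ) (a j) * a i *
        if (M : ℤ) ∣ y i - y j then (M' : ℂ) else 0 := by
    rw [Complex.ofReal_sum, sum_congr rfl fun x _ => e1 x, sum_comm]
    refine sum_congr rfl fun i _ => ?_
    rw [sum_comm]
    refine sum_congr rfl fun j _ => ?_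
    rw [← mul_sum, orth hM h]
  have e3 : ∀ i j, ‖(starRingEnd ℂ) (a j) * a i * if (M : ℤ) ∣ y i - y j then (M' : ℂ) else 0‖
      ≤ M' / 2 * ((if (M : ℤ) ∣ y i - y j then ‖a i‖ ^ 2 else 0)
        + if (M : ℤ) ∣ y j - y i then ‖a j‖ ^ 2 else 0) := by
    intro i j
    by_cases hij : (M : ℤ) ∣ y i - y j
    · rw [if_pos hij, if_pos hij, if_pos (dvd_sub_comm.1 hij), norm_mul, norm_mul,
        Complex.norm_conj, Complex.norm_natCast]
      nlinarith [mul_nonneg (Nat.cast_nonneg M' : (0 : ℝ) ≤ M') (sq_nonneg (‖a i‖ - ‖a j‖))]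
    · rw [if_neg hij, if_neg hij, if_neg fun h => hij (dvd_sub_comm.1 h)]
      simp
  have e4 : ∑ i ∈ I, ∑ j ∈ I, (if (M : ℤ) ∣ y i - y j then ‖a i‖ ^ 2 else 0)
      ≤ B * ∑ i ∈ I, ‖a i‖ ^ 2 := by
    rw [mul_sum]
    refine sum_le_sum fun i hi => ?_
    rw [← sum_filter, sum_const, nsmul_eq_mul]
    exact mul_le_mul_of_nonneg_right (hB i hi) (by positivity)
  have e5 := congrArg norm e2
  rw [Complex.norm_real, Real.norm_of_nonneg (by positivity)] at e5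
  rw [e5]
  refine (norm_sum_le _ _).trans ((sum_le_sum fun i _ => (norm_sum_le _ _).trans
    (sum_le_sum fun j _ => e3 i j)).trans ?_)
  simp only [← mul_sum, sum_add_distrib]
  rw [sum_comm (f := fun i j => if (M : ℤ) ∣ y j - y i then ‖a j‖ ^ 2 else 0)]
  nlinarith [mul_le_mul_of_nonneg_left e4 (Nat.cast_nonneg M' : (0 : ℝ) ≤ M')]

theorem norm_one_add {θ : ℝ} (h1 : 1 / 8 ≤ |θ|) (h2 : |θ| ≤ 1 / 2) : ‖1 + ch θ‖ ≤ 31 / 16 := by
  have hpi := Real.pi_pos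
  have h3 : |2 * Real.pi * θ| ≤ Real.pi := by
    rw [abs_mul, abs_of_pos (by positivity)]
    nlinarith
  have h4 := Real.cos_le_one_sub_mul_cos_sq h3
  have h5 : 2 / Real.pi ^ 2 * (2 * Real.pi * θ) ^ 2 = 8 * θ ^ 2 := by
    field_simp
    ring
  have h6 : 1 / 64 ≤ θ ^ 2 := by
    rw [← sq_abs]
    nlinarith
  refine le_of_pow_le_pow_left₀ (n := 2) (by norm_num) (by norm_num) ?_
  rw [Complex.sq_norm, Complex.normSq_apply, ch, Complex.add_re, Complex.add_im,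
    Complex.exp_ofReal_mul_I_re, Complex.exp_ofReal_mul_I_im, Complex.one_re, Complex.one_im]
  nlinarith [Real.sin_sq_add_cos_sq (2 * Real.pi * θ)]

/-- The characteristic function of the words with `c` odd steps. -/
noncomputable def ph (u : ℤ) (r c : ℕ) : ℂ :=
  ∑ v ∈ W (2 * r), if ones v = c then ch (u * rho v / 3 ^ (c + 1)) else 0

theorem ph_shift (u a : ℤ) (r c i : ℕ) :
    (∑ w ∈ W (2 * r), if ones w + i = c then ch (u * (a + 3 ^ i * rho w) / 3 ^ (c + 1)) else 0)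
      = ch (u * a / 3 ^ (c + 1)) * if i ≤ c then ph u r (c - i) else 0 := by
  split_ifs with h
  · obtain ⟨d, rfl⟩ := Nat.exists_eq_add_of_le' h
    rw [Nat.add_sub_cancel, ph, mul_sum]
    refine sum_congr rfl fun w _ => ?_
    by_cases hw : ones w = d
    · rw [if_pos hw, if_pos (by omega), ← ch_add]
      congr 1
      field_simp
      ring
    · rw [if_neg hw, if_neg (by omega), mul_zero]
  · rw [mul_zero]
    exact sum_eq_zero fun w _ => if_neg (by omega)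

theorem ph_succ (u : ℤ) (r c : ℕ) :
    ph u (r + 1) c = ph u r c
      + ch (u * 4 ^ r / 3 ^ (c + 1)) * (1 + ch (u * 4 ^ r / 3 ^ (c + 1)))
        * (if 1 ≤ c then ph u r (c - 1) else 0)
      + ch (u * (5 * 4 ^ r : ℤ) / 3 ^ (c + 1)) * if 2 ≤ c then ph u r (c - 2) else 0 := by
  have h1 := ph_shift u (4 ^ r) r c 1
  have h2 := ph_shift u (2 * 4 ^ r) r c 1
  have h3 := ph_shift u (5 * 4 ^ r) r c 2
  have h4 : ch (u * (2 * 4 ^ r : ℤ) / 3 ^ (c + 1))
      = ch (u * 4 ^ r / 3 ^ (c + 1)) * ch (u * 4 ^ r / 3 ^ (c + 1)) := by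
    rw [← ch_add]
    congr 1
    push_cast
    ring
  rw [h4] at h2
  rw [Int.cast_pow, Int.cast_ofNat] at h1
  rw [mul_add, mul_one, add_mul, ← h1, ← h2, ← h3, ph, ph, mul_add, mul_one, sum_W_cons,
    sum_W_cons, ← sum_add_distrib, ← sum_add_distrib, ← sum_add_distrib]
  refine sum_congr rfl fun w hw => ?_
  have e : (2 : ℝ) ^ w.length = 4 ^ r := by
    rw [mem_W.1 hw, pow_mul]
    norm_num
  simp only [ones_false, ones_true, rho_false, rho_true, List.length_cons, add_assoc]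
  push_cast
  rw [pow_succ (2 : ℝ), e]
  have e1 : (4 : ℝ) ^ r * 2 + 3 * rho w = 2 * 4 ^ r + 3 ^ 1 * rho w := by ring
  have e2 : (4 : ℝ) ^ r * 2 + 3 * (4 ^ r + 3 * rho w) = 5 * 4 ^ r + 3 ^ 2 * rho w := by ring
  rw [e1, e2, pow_one]
  ring

theorem norm_gam {u : ℤ} (hu : ¬ 3 ∣ u) (r N : ℕ) :
    ‖1 + ch (u * 4 ^ r / 3 ^ N)‖ ≤ 2 * (sys u hu).gam r N := by
  unfold Sys.gam
  split_ifs with h
  · obtain ⟨m, hm⟩ := zz_dvd u r N
    have h1 : (zz u r N : ℝ) - u * 4 ^ r = 3 ^ N * m := by exact_mod_cast hm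
    have h2 : (3 : ℝ) ^ N ≤ 8 * |(zz u r N : ℝ)| := by exact_mod_cast h.2
    have h3 : 2 * |(zz u r N : ℝ)| ≤ 3 ^ N := by exact_mod_cast zz_abs u r N
    have h4 : (0 : ℝ) < 3 ^ N := by positivity
    have e : (u : ℝ) * 4 ^ r / 3 ^ N = zz u r N / 3 ^ N + ((-m : ℤ) : ℝ) := by
      push_cast
      field_simp
      linarith
    rw [e, ch_add, ch_int, mul_one]
    refine (norm_one_add ?_ ?_).trans (by norm_num)
    · rw [abs_div, abs_of_pos h4, le_div_iff₀ h4]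
      linarith
    · rw [abs_div, abs_of_pos h4, div_le_iff₀ h4]
      linarith
  · refine (norm_add_le _ _).trans ?_
    rw [norm_ch, norm_one]
    norm_num

theorem ph_le {u : ℤ} (hu : ¬ 3 ∣ u) (r c : ℕ) :
    ‖ph u r c‖ ≤ 4 ^ r * (sys u hu).Q r (c + 1) := by
  induction r generalizing c with
  | zero =>
    rcases c with _ | c
    · simp [ph, W_zero, Sys.Q, Sys.iter, norm_ch]
    · simp [ph, W_zero, Sys.Q, Sys.iter]
  | succ r ih =>
    have h : ∀ i, ‖if i ≤ c then ph u r (c - i) else 0‖ ≤ 4 ^ r * (sys u hu).Q r (c + 1 - i) := by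
      intro i
      split_ifs with hi
      · rw [show c + 1 - i = c - i + 1 by omega]
        exact ih _
      · rw [norm_zero]
        exact mul_nonneg (by positivity) (Sys.Q_nonneg _ _ _)
    have e : (sys u hu).Q (r + 1) = (sys u hu).P r ((sys u hu).Q r) := (sys u hu).Q_add r 1
    rw [ph_succ, e, Sys.P]
    refine (norm_add₃_le).trans ?_
    rw [norm_mul, norm_mul, norm_mul, norm_ch, norm_ch, one_mul, one_mul, pow_succ (4 : ℝ)]
    have h1 := mul_le_mul (norm_gam hu r (c + 1)) (h 1) (norm_nonneg _)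
      (mul_nonneg zero_le_two (Sys.gam_nonneg _ _ _))
    nlinarith [h 2, ih c]

theorem pow_mul_bdd (n : ℕ) {x : ℝ} (h0 : 0 ≤ x) (h1 : x < 1) :
    ∃ C : ℝ, 0 ≤ C ∧ ∀ r : ℕ, 1 ≤ r → x ^ r ≤ C / (r : ℝ) ^ n := by
  obtain ⟨C, hC⟩ := (tendsto_pow_const_mul_const_pow_of_abs_lt_one n
    (by rwa [abs_of_nonneg h0] : |x| < 1)).bddAbove_range
  refine ⟨C, le_trans (by positivity) (hC ⟨0, rfl⟩), fun r hr => ?_⟩
  rw [le_div_iff₀ (by positivity), mul_comm]
  exact hC ⟨r, rfl⟩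

/-- Decay of the characteristic function at every frequency prime to `3`. -/
theorem ph_decay : ∃ C : ℝ, 0 ≤ C ∧ ∀ (u : ℤ) (r c : ℕ), ¬ 3 ∣ u → 1 ≤ r →
    ‖ph u r c‖ ≤ 4 ^ r * (C / (r : ℝ) ^ 8) := by
  obtain ⟨C1, h1, hC1⟩ := Q_decay
  obtain ⟨C2, h2, hC2⟩ := pow_mul_bdd 8 (x := 25 / 32) (by norm_num) (by norm_num)
  refine ⟨256 * C1 + C2, by positivity, fun u r c hu hr => ?_⟩
  have hr' : (0 : ℝ) < r := by exact_mod_cast hr
  by_cases hc : 2 * c ≤ r
  · have h3 : ‖ph u r c‖ ≤ (((W (2 * r)).filter fun v => ones v = c).card : ℝ) := by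
      rw [ph, ← sum_filter]
      refine (norm_sum_le _ _).trans ?_
      simp [norm_ch]
    refine h3.trans ((few_ones r c hc).trans (mul_le_mul_of_nonneg_left ((hC2 r hr).trans ?_)
      (by positivity)))
    exact div_le_div_of_nonneg_right (by linarith) (by positivity)
  · refine (ph_le hu r c).trans (mul_le_mul_of_nonneg_left ((hC1 _ _ _ (by omega)).trans ?_)
      (by positivity))
    have h3 : (r : ℝ) ≤ 2 * ((c + 1 : ℕ) : ℝ) := by exact_mod_cast (by omega : r ≤ 2 * (c + 1))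
    have h4 : (r : ℝ) ^ 8 ≤ (2 * ((c + 1 : ℕ) : ℝ)) ^ 8 := pow_le_pow_left₀ hr'.le h3 8
    rw [div_le_div_iff₀ (by positivity) (by positivity)]
    rw [mul_pow] at h4
    have h5 : (0 : ℝ) ≤ ((c + 1 : ℕ) : ℝ) ^ 8 := by positivity
    nlinarith [mul_le_mul_of_nonneg_left h4 h1, mul_nonneg h2 h5]

end Pool.Agent.Lib.MP_7f88e4_nt.PS
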