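import Pool.Agent.Lib.MP_7f88e4_nt.PS.Lim

set_option autoImplicit false

namespace Pool.Agent.Lib.MP_7f88e4_nt.PS

open Finset Filter Topology

theorem sum_wt_ge (k : ℤ) (v : List Bool) {M : ℕ} (hM : 3 ^ ones v ∣ M) :
    (M : ℝ) / 2 ^ v.length ≤ ∑ x ∈ range M, wt k v x := by
  obtain ⟨c, rfl⟩ := hM
  obtain ⟨a, b, hab⟩ := cop2 (ones v) v.length
  have h0 : (0 : ℤ) < 3 ^ ones v := by positivity
  obtain ⟨x0, hx0⟩ := Int.eq_ofNat_of_zero_le (Int.emod_nonneg (b * k * rho v) h0.ne')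
  have h1 : x0 < 3 ^ ones v := by
    have := Int.emod_lt_of_pos (b * k * rho v) h0
    rw [hx0] at this
    exact_mod_cast this
  have h2 : ∀ i : ℕ, wt k v ((x0 + 3 ^ ones v * i : ℕ) : ℤ) = om v := fun i => by
    rw [wt_congr (y := b * k * rho v), wt, if_pos]
    · exact ⟨-a * k * rho v, by linear_combination k * rho v * hab⟩
    · push_cast
      rw [← hx0, add_sub_right_comm]
      exact dvd_add Int.dvd_emod_sub_self (dvd_mul_right _ _)
  refine le_trans ?_ (sum_le_sum_of_subset_of_nonneg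
    (s := (range c).image fun i => x0 + 3 ^ ones v * i) (fun x hx => ?_)
    fun x _ _ => wt_nonneg k v x)
  · rw [sum_image fun i _ j _ h => by simpa using h]
    simp only [h2, sum_const, card_range, nsmul_eq_mul, om]
    push_cast
    exact le_of_eq (by ring)
  · obtain ⟨i, hi, rfl⟩ := mem_image.1 hx
    have := Nat.mul_le_mul_left (3 ^ ones v) (mem_range.1 hi)
    rw [Nat.mul_succ] at this
    rw [mem_range]
    omega

theorem many_ones' (H p : ℕ) :
    (((W p).filter fun v => 5 * p + 9 * H < 9 * ones v).card : ℝ)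
      ≤ 2 ^ p * ((4 / 5) ^ H * (199 / 200) ^ p) := by
  have h1 : ∀ v ∈ (W p).filter fun v => 5 * p + 9 * H < 9 * ones v,
      (5 / 4 : ℝ) ^ H * (1131 / 1000) ^ p ≤ (5 / 4) ^ ones v := by
    intro v hv
    have h := (mem_filter.1 hv).2
    refine le_of_pow_le_pow_left₀ (n := 9) (by norm_num) (by positivity) ?_
    calc ((5 / 4 : ℝ) ^ H * (1131 / 1000) ^ p) ^ 9
        = ((5 / 4) ^ H) ^ 9 * ((1131 / 1000) ^ 9) ^ p := by
          rw [mul_pow, ← pow_mul (1131 / 1000 : ℝ), ← pow_mul (1131 / 1000 : ℝ), mul_comm p]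
      _ ≤ ((5 / 4) ^ H) ^ 9 * ((5 / 4) ^ 5) ^ p := by
          gcongr
          norm_num
      _ ≤ _ := by
          rw [← pow_mul, ← pow_mul, ← pow_mul, ← pow_add]
          exact pow_le_pow_right₀ (by norm_num) (by omega)
  have h2 := (card_nsmul_le_sum _ _ _ h1).trans
    (sum_le_sum_of_subset_of_nonneg (filter_subset _ _) fun v _ _ => by positivity)
  rw [moment, nsmul_eq_mul] at h2
  refine le_of_mul_le_mul_right (h2.trans ?_) (by positivity)
  rw [mul_assoc, mul_mul_mul_comm, ← mul_pow, ← mul_pow,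
    show (4 / 5 * (5 / 4) : ℝ) = 1 by norm_num, one_pow, one_mul, ← mul_pow]
  exact pow_le_pow_left₀ (by norm_num) (by norm_num) _

theorem card_take (μ d : ℕ) (Q : List Bool → Prop) [DecidablePred Q] :
    (((W (μ + d)).filter fun w => Q (w.take μ)).card : ℝ) = ((W μ).filter Q).card * 2 ^ d := by
  rw [card_filter, Nat.cast_sum, sum_W_add]
  have : ∀ u ∈ W μ, ∑ w ∈ W d, ((if Q ((u ++ w).take μ) then 1 else 0 : ℕ) : ℝ)
      = if Q u then 2 ^ d else 0 := by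
    intro u hu
    simp only [List.take_left' (mem_W.1 hu)]
    split_ifs <;> simp [card_W]
  rw [sum_congr rfl this, ← sum_filter, sum_const, nsmul_eq_mul]

open Classical in
theorem card_good (s a : ℕ) :
    9 / 10 * 2 ^ s ≤ (((W s).filter fun v => Good 40 (v.take a)).card : ℝ) := by
  have h1 : (W s).filter (fun v => ¬ Good 40 (v.take a)) ⊆ (range (s + 1)).biUnion fun p =>
      (W s).filter fun v => 5 * p + 9 * 40 < 9 * ones (v.take p) := by
    intro v hv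
    obtain ⟨h1, h2⟩ := mem_filter.1 hv
    have h3 : ¬ Good 40 v := fun h => h2 (h.take a)
    simp only [Good, not_forall, not_le] at h3
    obtain ⟨p, hp, h4⟩ := h3
    exact mem_biUnion.2 ⟨p, mem_range.2 (by have := mem_W.1 h1; omega), mem_filter.2 ⟨h1, h4⟩⟩
  have h2 : ∀ p ∈ range (s + 1), (((W s).filter fun v =>
      5 * p + 9 * 40 < 9 * ones (v.take p)).card : ℝ) ≤ 2 ^ s * (4 / 5) ^ 40 * (199 / 200) ^ p := by
    intro p hp
    obtain ⟨d, rfl⟩ := Nat.exists_eq_add_of_le (Nat.lt_succ_iff.1 (mem_range.1 hp))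
    rw [card_take p d fun u => 5 * p + 9 * 40 < 9 * ones u]
    exact (mul_le_mul_of_nonneg_right (many_ones' 40 p) (by positivity)).trans
      (le_of_eq (by ring))
  have h3 := Nat.cast_le (α := ℝ).2 ((card_le_card h1).trans card_biUnion_le)
  rw [Nat.cast_sum] at h3
  have h4 := h3.trans (sum_le_sum h2)
  rw [← mul_sum, range_eq_Ico] at h4
  have h5 := h4.trans (mul_le_mul_of_nonneg_left (geom_sum_Ico_le_of_lt_one (by norm_num)
    (by norm_num)) (by positivity))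
  have h6 := congrArg (Nat.cast : ℕ → ℝ)
    (card_filter_add_card_filter_not (s := W s) fun v => Good 40 (v.take a))
  rw [Nat.cast_add, card_W] at h6
  have h7 : (0 : ℝ) < 2 ^ s := by positivity
  norm_num at h5
  linarith

theorem rho_not_dvd {v : List Bool} (h : 1 ≤ ones v) : ¬ 3 ∣ rho v := by
  induction v with
  | nil => simp at h
  | cons b v ih =>
    cases b
    · exact ih h
    · rw [rho_true, dvd_add_left (dvd_mul_right _ _)]
      intro h1
      have := Int.prime_three.dvd_of_dvd_pow h1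
      omega

theorem F_le_one {k x : ℤ} (hk : ¬ 3 ∣ k) (hx : 3 ∣ x) (p : ℕ) : F k p x ≤ 1 := by
  refine (sum_le_card_nsmul _ _ (1 / 2 ^ p : ℝ) fun v hv => ?_).trans
    (by rw [nsmul_eq_mul, card_W, mul_one_div_cancel (by positivity)])
  unfold wt
  split_ifs with h
  · have h0 : ones v = 0 := by
      by_contra h1
      have h2 := (dvd_pow_self 3 h1).trans h
      rw [dvd_sub_right (hx.mul_left _)] at h2
      rcases Int.prime_three.dvd_or_dvd h2 with h3 | h3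
      · exact hk h3
      · exact rho_not_dvd (by omega) h3
    rw [om, h0, mem_W.1 hv, pow_zero]
  · positivity

theorem SF_congr {k x y : ℤ} {H e : ℕ} (h : 100 * (H + 1) ≤ e) (hxy : 3 ^ e ∣ x - y) :
    SF k x H = SF k y H :=
  sum_congr rfl fun p hp => sum_congr rfl fun v hv => wt_congr ((pow_dvd_pow 3 (by
    have := mem_W.1 hv
    have := mem_range.1 hp
    have := ones_le v
    omega)).trans hxy)

theorem Rg_congr {k x y : ℤ} {P : List Bool → Prop} {g : ℝ → ℝ} {s a : ℕ}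
    (hxy : 3 ^ s ∣ x - y) : Rg k x P g s a = Rg k y P g s a := by
  classical
  exact sum_congr rfl fun v hv => by
    rw [wt_congr ((pow_dvd_pow 3 (mem_W.1 (mem_filter.1 hv).1 ▸ ones_le v)).trans hxy)]

theorem exists_class {k : ℤ} (hk : ¬ 3 ∣ k) {B : ℝ} (hB : 0 ≤ B) {l : ℕ} (hl : 41 ≤ l)
    (hlB : 82020 * B ≤ l) : ∃ x : ℤ, ¬ 3 ∣ x ∧ ∀ y, 3 ^ (100 * l) ∣ y - x →
      2 / 5 ≤ Rg k y (Good 40) (fun _ => 1) (100 * l) (99 * l) - B * SF k y 40 / l := by
  classical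
  have hl0 : (0 : ℝ) < l := by exact_mod_cast (by omega : 0 < l)
  have hM : (27 : ℝ) ≤ 3 ^ (100 * l) :=
    le_trans (by norm_num) (pow_le_pow_right₀ (by norm_num) (by omega : 3 ≤ 100 * l))
  have h1 : 9 / 10 * 3 ^ (100 * l) ≤ ∑ x ∈ range (3 ^ (100 * l)),
      Rg k x (Good 40) (fun _ => 1) (100 * l) (99 * l) := by
    simp only [Rg, mul_one]
    rw [sum_comm]
    refine le_trans ?_ (card_nsmul_le_sum _ _ (3 ^ (100 * l) / 2 ^ (100 * l) : ℝ) fun v hv => ?_)
    · rw [nsmul_eq_mul]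
      exact le_trans (le_of_eq (by field_simp))
        (mul_le_mul_of_nonneg_right (card_good (100 * l) (99 * l)) (by positivity))
    · have h2 := mem_W.1 (mem_filter.1 hv).1
      have := sum_wt_ge k v (M := 3 ^ (100 * l)) (pow_dvd_pow 3 (h2 ▸ ones_le v))
      rwa [h2, Nat.cast_pow, Nat.cast_ofNat] at this
  have h2 : ∑ x ∈ range (3 ^ (100 * l)), SF k x 40 ≤ 8202 * 3 ^ (100 * l) := by
    simp only [SF, F]
    rw [sum_comm]
    refine (sum_le_card_nsmul _ _ (2 * 3 ^ (100 * l) : ℝ) fun p hp => ?_).trans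
      (by rw [card_range, nsmul_eq_mul]; push_cast; linarith)
    rw [sum_comm]
    refine (sum_le_card_nsmul _ _ (2 * 3 ^ (100 * l) / 2 ^ p : ℝ) fun v hv => ?_).trans
      (by rw [nsmul_eq_mul, card_W, mul_div_cancel₀ _ (by positivity)])
    have h3 := mem_W.1 hv
    have h4 := ones_le v
    have h5 := mem_range.1 hp
    have := sum_wt_le k v (M := 3 ^ (100 * l)) (Nat.pow_le_pow_right (by norm_num) (by omega))
    rwa [h3, Nat.cast_pow, Nat.cast_ofNat] at this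
  have h3 : ∃ x : ℕ, ¬ (3 : ℤ) ∣ x ∧
      2 / 5 ≤ Rg k x (Good 40) (fun _ => 1) (100 * l) (99 * l) - B * SF k x 40 / l := by
    by_contra hc
    have a1 : ∀ x : ℕ, Rg k x (Good 40) (fun _ => 1) (100 * l) (99 * l) - B * SF k x 40 / l
        ≤ 2 / 5 + if (3 : ℤ) ∣ x then 1 else 0 := by
      intro x
      split_ifs with h
      · have b1 : Rg k x (Good 40) (fun _ => 1) (100 * l) (99 * l) ≤ F k (100 * l) x := by
          simp only [Rg, mul_one]
          exact sum_le_sum_of_subset_of_nonneg (filter_subset _ _) fun v _ _ => wt_nonneg k v x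
        have b2 := one_le_SF k x 40
        have b3 : 0 ≤ B * SF k x 40 / l := div_nonneg (mul_nonneg hB (by linarith)) hl0.le
        linarith [F_le_one hk h (100 * l)]
      · rw [add_zero]
        exact (not_le.1 fun h' => hc ⟨x, h, h'⟩).le
    have a2 := sum_le_sum (s := range (3 ^ (100 * l))) fun x _ => a1 x
    rw [sum_sub_distrib, ← sum_div, ← mul_sum, sum_add_distrib, sum_const, ← sum_filter, sum_const,
      card_range, nsmul_eq_mul, nsmul_eq_mul, mul_one, Nat.cast_pow, Nat.cast_ofNat] at a2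
    have a3 := card_cong (((range (3 ^ (100 * l))).filter fun x : ℕ => (3 : ℤ) ∣ x).image
      fun x : ℕ => (x : ℤ)) (M := 3) (by norm_num) (l := 3 ^ (100 * l)) (by positivity) ?_ ?_
    · rw [card_image_of_injective _ Nat.cast_injective] at a3
      have a4 : B * (∑ x ∈ range (3 ^ (100 * l)), SF k x 40) / l ≤ 3 ^ (100 * l) / 10 := by
        rw [div_le_iff₀ hl0]
        nlinarith [mul_le_mul_of_nonneg_left h2 hB]
      push_cast at a3
      linarith
    · simp only [mem_image, mem_filter]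
      rintro _ ⟨x, hx, rfl⟩ _ ⟨y, hy, rfl⟩
      exact dvd_sub hx.2 hy.2
    · simp only [mem_image, mem_filter, mem_range]
      rintro _ ⟨x, hx, rfl⟩ _ ⟨y, hy, rfl⟩
      have : (x : ℝ) ≤ 3 ^ (100 * l) := by exact_mod_cast hx.1.le
      push_cast
      linarith [(Nat.cast_nonneg y : (0 : ℝ) ≤ y)]
  obtain ⟨x, hx, h⟩ := h3
  refine ⟨x, hx, fun y hy => h.trans (le_of_eq ?_)⟩
  rw [SF_congr (H := 40) (by omega) hy, Rg_congr hy]

theorem four_pow (e : ℕ) : ∃ u : ℤ, 4 ^ 3 ^ e = 1 + 3 ^ (e + 1) * (1 + 3 * u) := by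
  induction e with
  | zero => exact ⟨0, by norm_num⟩
  | succ e ih =>
    obtain ⟨u, hu⟩ := ih
    refine ⟨u + 3 ^ e * (1 + 3 * u) ^ 2 + 3 ^ (2 * e) * (1 + 3 * u) ^ 3, ?_⟩
    rw [pow_succ 3 e, pow_mul, hu]
    ring

theorem four_hit (e : ℕ) {a x : ℤ} (ha : ¬ 3 ∣ a) (h : 3 ∣ a - x) :
    ∃ t < 3 ^ e, 3 ^ (e + 1) ∣ 4 ^ t * a - x := by
  induction e with
  | zero => exact ⟨0, by norm_num, by simpa using h⟩
  | succ e ih =>
    obtain ⟨t, ht, y, hy⟩ := ih
    obtain ⟨u, hu⟩ := four_pow e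
    have hb : ¬ 3 ∣ 4 ^ t * a := fun h1 => by
      rcases Int.prime_three.dvd_or_dvd h1 with h2 | h2
      · have := Int.prime_three.dvd_of_dvd_pow h2
        omega
      · exact ha h2
    have h1 : 3 ∣ y ∨ 3 ∣ y + 4 ^ t * a ∨ 3 ∣ y + 2 * (4 ^ t * a) := by
      have h2 : y % 3 = 0 ∨ y % 3 = 1 ∨ y % 3 = 2 := by omega
      have h3 : 4 ^ t * a % 3 = 1 ∨ 4 ^ t * a % 3 = 2 := by omega
      rcases h2 with h2 | h2 | h2 <;> rcases h3 with h3 | h3 <;> omega
    rcases h1 with ⟨z, hz⟩ | ⟨z, hz⟩ | ⟨z, hz⟩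
    · exact ⟨t, by omega, z, by rw [hy, hz]; ring⟩
    · refine ⟨t + 3 ^ e, by omega, z + u * (4 ^ t * a), ?_⟩
      rw [pow_add 4, hu]
      linear_combination hy + 3 ^ (e + 1) * hz
    · refine ⟨t + 3 ^ e * 2, by omega,
        z + 2 * u * (4 ^ t * a) + 3 ^ e * (1 + 3 * u) ^ 2 * (4 ^ t * a), ?_⟩
      rw [pow_add 4, pow_mul, hu]
      linear_combination hy + 3 ^ (e + 1) * hz

theorem two_hit (e t1 : ℕ) {a x : ℤ} (ha : ¬ 3 ∣ a) (hx : ¬ 3 ∣ x) :
    ∃ t, t1 ≤ t ∧ t ≤ t1 + 2 * 3 ^ e ∧ 3 ^ e ∣ 2 ^ t * a - x := by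
  have hb : ¬ 3 ∣ 2 ^ t1 * a := fun h1 => by
    rcases Int.prime_three.dvd_or_dvd h1 with h2 | h2
    · have := Int.prime_three.dvd_of_dvd_pow h2
      omega
    · exact ha h2
  have e4 : ∀ t : ℕ, (4 : ℤ) ^ t = 2 ^ (2 * t) := fun t => by rw [pow_mul]; norm_num
  by_cases h : 3 ∣ 2 ^ t1 * a - x
  · obtain ⟨t, ht, h1⟩ := four_hit e hb h
    refine ⟨2 * t + t1, by omega, by omega, (pow_dvd_pow 3 (by omega)).trans (h1.trans ?_)⟩
    rw [e4, pow_add, mul_assoc]
  · obtain ⟨t, ht, h1⟩ := four_hit e (a := 2 * (2 ^ t1 * a)) (x := x) (by omega) (by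
      have h2 : x % 3 = 1 ∨ x % 3 = 2 := by omega
      have h3 : 2 ^ t1 * a % 3 = 1 ∨ 2 ^ t1 * a % 3 = 2 := by omega
      rcases h2 with h2 | h2 <;> rcases h3 with h3 | h3 <;> omega)
    refine ⟨2 * t + (1 + t1), by omega, by omega, (pow_dvd_pow 3 (by omega)).trans (h1.trans ?_)⟩
    rw [e4, pow_add, pow_add, pow_one, mul_assoc, mul_assoc]

theorem pow_mul_mem {k : ℤ} {A : Set ℤ} (hA : ∀ n, T k n ∈ A → n ∈ A) {a : ℤ} (ha : a ∈ A)
    (t : ℕ) : 2 ^ t * a ∈ A := by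
  induction t with
  | zero => simpa using ha
  | succ t ih =>
    refine hA _ ?_
    rw [pow_succ', mul_assoc, T, if_neg (by simp)]
    simpa using ih

theorem packing_one {k r : ℤ} (hk : Odd k) {A : Set ℤ} (hA : ∀ n, T k n ∈ A → n ∈ A) (hr : r ∈ A)
    (hr0 : r ≠ 0) {H l : ℕ} (hb : |(k : ℝ)| * (16 * 3 ^ H) ≤ 1 / 2 * |(r : ℝ)|) (hl : H + 1 ≤ l)
    (P : List Bool → Prop) (X : ℝ) (n : ℕ) :
    ∑ s ∈ Ico (100 * l) n, ((Cn k r H l P (X / ((1 + 1 / 2) * |(r : ℝ)|)) s).card : ℝ)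
      ≤ 99 * l * (cut A X).card := by
  have h0 : (0 : ℝ) < |(r : ℝ)| := abs_pos.2 (by exact_mod_cast hr0)
  have h := sum_card_le (Ico (100 * l) n) (fun s => (Cn k r H l P
    (X / ((1 + 1 / 2) * |(r : ℝ)|)) s).image fun v => pre k v r) (cut A X) (99 * l)
    (fun s _ => image_Cn_sub hk hA hr hr0 (by norm_num) hb _ _ _ _) ?_
  · simp only [card_image_Cn hk] at h
    exact_mod_cast h
  · intro m _
    rcases ((Ico (100 * l) n).filter fun s => m ∈ (Cn k r H l P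
      (X / ((1 + 1 / 2) * |(r : ℝ)|)) s).image fun v => pre k v r).eq_empty_or_nonempty
      with h1 | h1
    · rw [h1]
      simp
    obtain ⟨s, hs, hmin⟩ := exists_min_image _ id h1
    refine (card_le_card (t := Ico s (s + 99 * l)) fun s' hs' => ?_).trans (by simp)
    refine mem_Ico.2 ⟨hmin s' hs', not_le.1 fun h2 => ?_⟩
    obtain ⟨v, hv, e⟩ := mem_image.1 (mem_filter.1 hs).2
    obtain ⟨v', hv', e'⟩ := mem_image.1 (mem_filter.1 hs').2
    have h3 := far hk hv' hl (mem_Ico.1 (mem_filter.1 hs').1).1 (by linarith) h2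
    simp only [Cn, mem_filter, mem_W] at hv
    rw [e', ← e, ← hv.1, (hv.2.2.1.goes.iter hk).2] at h3
    linarith

theorem density_pos {k : ℤ} (hk : Odd k) (hk3 : ¬ 3 ∣ k) : ∃ c : ℝ, 0 < c ∧ ∀ (A : Set ℤ) (d : ℝ),
    (∀ n, T k n ∈ A → n ∈ A) →
    Tendsto (fun X : ℝ => ((cut A X).card : ℝ) / X) atTop (𝓝 d) →
    ∀ b ∈ A, ¬ 3 ∣ b → c / |(b : ℝ)| ≤ d := by
  obtain ⟨V0, hV0, hV⟩ := renewal
  obtain ⟨C, hC, hL⟩ := root_lower
  have hk0 : k ≠ 0 := by
    rintro rfl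
    exact hk3 (dvd_zero 3)
  have hk1 : (1 : ℝ) ≤ |(k : ℝ)| := by exact_mod_cast Int.one_le_abs hk0
  obtain ⟨l, hl1, hl2⟩ := ((eventually_ge_atTop 41).and (tendsto_natCast_atTop_atTop.eventually
    (eventually_ge_atTop (82020 * (2 * (C * (|(k : ℝ)| + 1))))))).exists
  have hl0 : (0 : ℝ) < l := by exact_mod_cast (by omega : 0 < l)
  obtain ⟨x, hx, hcl⟩ := exists_class hk3 (by positivity) hl1 hl2
  obtain ⟨t1, ht1⟩ := pow_unbounded_of_one_lt (2 * (|(k : ℝ)| * (16 * 3 ^ 40))) one_lt_two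
  obtain ⟨Z, hZ⟩ : ∃ Z : ℝ, Z = 2 ^ (t1 + 2 * 3 ^ (100 * l)) := ⟨_, rfl⟩
  have hZ0 : 0 < Z := by
    rw [hZ]
    positivity
  refine ⟨1 / 5 / (99 * l * ((1 + 1 / 2) * Z)), by positivity, fun A d hA hd b hb hb3 => ?_⟩
  obtain ⟨t, ht, ht', hdv⟩ := two_hit (100 * l) t1 hb3 hx
  have hb0 : b ≠ 0 := by
    rintro rfl
    exact hb3 (dvd_zero 3)
  have hb1 : (1 : ℝ) ≤ |(b : ℝ)| := by exact_mod_cast Int.one_le_abs hb0
  have h1 := hcl _ hdv
  have hr := pow_mul_mem hA hb t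
  have e : |((2 ^ t * b : ℤ) : ℝ)| = 2 ^ t * |(b : ℝ)| := by
    push_cast
    rw [abs_mul, abs_of_pos (by positivity)]
  have h2 : |(k : ℝ)| * (16 * 3 ^ 40) ≤ 1 / 2 * |((2 ^ t * b : ℤ) : ℝ)| := by
    have : (2 : ℝ) ^ t1 ≤ 2 ^ t := pow_le_pow_right₀ one_le_two ht
    have : (2 : ℝ) ^ t ≤ 2 ^ t * |(b : ℝ)| := le_mul_of_one_le_right (by positivity) hb1
    linarith
  have h3 : |((2 ^ t * b : ℤ) : ℝ)| ≤ Z * |(b : ℝ)| := by
    rw [e, hZ]
    exact mul_le_mul_of_nonneg_right (pow_le_pow_right₀ one_le_two ht') (by positivity)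
  have hr0 : 2 ^ t * b ≠ 0 := mul_ne_zero (by positivity) hb0
  generalize 2 ^ t * b = r at *
  have h0 : (0 : ℝ) < |(r : ℝ)| := abs_pos.2 (by exact_mod_cast hr0)
  have c0 : 0 < (1 + 1 / 2) * |(r : ℝ)| := by positivity
  have lo : ∀ X : ℝ, 0 < X → (Rg k r (Good 40) (fun w => V (X / ((1 + 1 / 2) * |(r : ℝ)|) * w))
      (100 * l) (99 * l) - C * ((|(k : ℝ)| + 1) * SF k r 40) / l)
        / (99 * l * ((1 + 1 / 2) * |(r : ℝ)|)) ≤ (cut A X).card / X := by
    intro X hX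
    refine le_of_tendsto (((tendsto_Rg_n k r (Good 40) (100 * l) (99 * l) (100 * l)
      (div_pos hX c0)).sub_const _).div_const _) ?_
    filter_upwards [eventually_ge_atTop (100 * l)] with n hn
    have h4 := hL k r 40 l n (Good 40) _ hk hk3 hl1 (fun u hu => hu) (div_pos hX c0) hn
    have h5 := div_le_div_of_nonneg_right (packing_one hk hA hr hr0 h2 hl1 (Good 40) X n)
      (div_pos hX c0).le
    rw [← sum_div] at h4
    rw [div_le_iff₀ (by positivity)]
    refine (sub_le_iff_le_add.2 (h4.trans (add_le_add h5 le_rfl))).trans (le_of_eq ?_)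
    field_simp
  have h4 := le_of_tendsto_of_tendsto (((tendsto_Rg hV k r (Good 40) (100 * l) (99 * l)
    c0).sub_const _).div_const _) hd ((eventually_gt_atTop 0).mono lo)
  refine le_trans ?_ h4
  have h5 : 0 ≤ Rg k r (Good 40) (fun _ => 1) (100 * l) (99 * l) :=
    sum_nonneg fun v _ => mul_nonneg (wt_nonneg k v r) zero_le_one
  have h6 : 1 / 5 ≤ V0 * Rg k r (Good 40) (fun _ => 1) (100 * l) (99 * l)
      - C * ((|(k : ℝ)| + 1) * SF k r 40) / l := by
    have := mul_le_mul_of_nonneg_right hV0 h5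
    rw [mul_assoc, mul_assoc, mul_div_assoc] at h1
    linarith
  rw [div_div]
  refine div_le_div₀ (by linarith) h6 (by positivity) ?_
  calc 99 * (l : ℝ) * ((1 + 1 / 2) * |(r : ℝ)|)
      ≤ 99 * l * ((1 + 1 / 2) * (Z * |(b : ℝ)|)) := by gcongr
    _ = _ := by ring

end Pool.Agent.Lib.MP_7f88e4_nt.PS
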