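import Pool.Agent.Lib.MP_7f88e4_nt.PS.Visit

set_option autoImplicit false

namespace Pool.Agent.Lib.MP_7f88e4_nt.PS

open Finset Filter Topology

/-- The counting weight. -/
noncomputable def ff (w : ℝ) : ℝ := if 1 ≤ w then 1 / w else 0

/-- The expected total weight in `n` steps of the free walk. -/
noncomputable def Vn : ℕ → ℝ → ℝ
  | 0, _ => 0
  | n + 1, w => ff w + (Vn n (w * (1 / 2)) + Vn n (w * (3 / 2))) / 2

/-- The renewal function. -/
noncomputable def V (w : ℝ) : ℝ := ⨆ n, Vn n w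

theorem ff_nonneg (w : ℝ) : 0 ≤ ff w := by
  unfold ff
  split_ifs
  · positivity
  · exact le_rfl

theorem ff_le {w : ℝ} (hw : 0 < w) : ff w ≤ 1 / w := by
  unfold ff
  split_ifs
  · exact le_rfl
  · positivity

theorem ff_gain {w : ℝ} (hw : 0 < w) :
    ff w + (30 * pot (w * (1 / 2)) + 30 * pot (w * (3 / 2))) / 2 ≤ 30 * pot w := by
  have h := pot_gain hw
  unfold ff
  split_ifs at h ⊢
  · have : 1 / w = 30 * (1 / (30 * w)) := by field_simp
    linarith
  · linarith

theorem Vn_nonneg (n : ℕ) (w : ℝ) : 0 ≤ Vn n w := by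
  induction n generalizing w with
  | zero => exact le_rfl
  | succ n ih =>
    unfold Vn
    linarith [ff_nonneg w, ih (w * (1 / 2)), ih (w * (3 / 2))]

theorem Vn_le_pot (n : ℕ) {w : ℝ} (hw : 0 < w) : Vn n w ≤ 30 * pot w := by
  induction n generalizing w with
  | zero => exact mul_nonneg (by norm_num) (pot_nonneg hw.le)
  | succ n ih =>
    unfold Vn
    linarith [ff_gain hw, ih (w := w * (1 / 2)) (by positivity),
      ih (w := w * (3 / 2)) (by positivity)]

theorem Vn_le (n : ℕ) {w : ℝ} (hw : 0 < w) : Vn n w ≤ 30 := by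
  linarith [Vn_le_pot n hw, pot_le hw.le]

theorem Vn_le_succ (n : ℕ) (w : ℝ) : Vn n w ≤ Vn (n + 1) w := by
  induction n generalizing w with
  | zero => exact Vn_nonneg 1 w
  | succ n ih =>
    rw [Vn, Vn]
    linarith [ih (w * (1 / 2)), ih (w * (3 / 2))]

theorem tendsto_Vn {w : ℝ} (hw : 0 < w) : Tendsto (fun n => Vn n w) atTop (𝓝 (V w)) :=
  tendsto_atTop_ciSup (monotone_nat_of_le_succ fun n => Vn_le_succ n w)
    ⟨30, by rintro _ ⟨n, rfl⟩; exact Vn_le n hw⟩

theorem Vn_le_V (n : ℕ) {w : ℝ} (hw : 0 < w) : Vn n w ≤ V w :=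
  le_ciSup (f := fun n => Vn n w) ⟨30, by rintro _ ⟨n, rfl⟩; exact Vn_le n hw⟩ n

theorem V_nonneg {w : ℝ} (hw : 0 < w) : 0 ≤ V w := Vn_le_V 0 hw

theorem V_le {w : ℝ} (hw : 0 < w) : V w ≤ 30 := ciSup_le fun n => Vn_le n hw

theorem V_eq {w : ℝ} (hw : 0 < w) : V w = ff w + (V (w * (1 / 2)) + V (w * (3 / 2))) / 2 :=
  tendsto_nhds_unique ((tendsto_add_atTop_iff_nat 1).2 (tendsto_Vn hw))
    ((((tendsto_Vn (by positivity)).add (tendsto_Vn (by positivity))).div_const 2).const_add _)

theorem mul_Vn_mono (n : ℕ) {a b : ℝ} (ha : 0 < a) (hab : a ≤ b) : a * Vn n a ≤ b * Vn n b := by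
  induction n generalizing a b with
  | zero => simp [Vn]
  | succ n ih =>
    have h1 := ih (a := a * (1 / 2)) (b := b * (1 / 2)) (by positivity) (by linarith)
    have h2 := ih (a := a * (3 / 2)) (b := b * (3 / 2)) (by positivity) (by linarith)
    have h3 : a * ff a ≤ b * ff b := by
      have hb : 0 < b := by linarith
      unfold ff
      split_ifs
      · rw [mul_one_div_cancel ha.ne', mul_one_div_cancel hb.ne']
      · linarith
      · rw [mul_zero]
        positivity
      · simp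
    rw [Vn, Vn]
    linarith

theorem mul_V_mono {a b : ℝ} (ha : 0 < a) (hab : a ≤ b) : a * V a ≤ b * V b :=
  le_of_tendsto_of_tendsto' ((tendsto_Vn ha).const_mul a)
    ((tendsto_Vn (by linarith)).const_mul b) fun n => mul_Vn_mono n ha hab

theorem V_iter {w : ℝ} (hw : 0 < w) (t : ℕ) :
    |V w - (∑ v ∈ W t, V (w * om v)) / 2 ^ t| ≤ t * 2 ^ t / w := by
  induction t with
  | zero => simp [W_zero, om]
  | succ t ih =>
    have h1 : ∀ v, V (w * om (v ++ [false])) + V (w * om (v ++ [true]))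
        = 2 * V (w * om v) - 2 * ff (w * om v) := fun v => by
      rw [om_append, om_append, om_false, om_true, V_eq (mul_pos hw (om_pos v)), ← mul_assoc,
        ← mul_assoc]
      ring
    have h2 : ∑ v ∈ W t, ff (w * om v) ≤ 2 ^ t * (2 ^ t / w) := by
      rw [← card_W t, ← nsmul_eq_mul, card_W]
      refine sum_le_card_nsmul _ _ _ fun v hv => (ff_le (mul_pos hw (om_pos v))).trans ?_
      have : (1 : ℝ) ≤ 3 ^ ones v := one_le_pow₀ (by norm_num)
      rw [om, mem_W.1 hv, div_le_div_iff₀ (by positivity) hw, one_mul, mul_comm, mul_assoc,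
        div_mul_cancel₀ _ (by positivity)]
      nlinarith
    have h3 : 0 ≤ ∑ v ∈ W t, ff (w * om v) := sum_nonneg fun v _ => ff_nonneg _
    rw [sum_W_snoc, sum_congr rfl fun v _ => h1 v, sum_sub_distrib, ← mul_sum, ← mul_sum]
    have e : V w - (2 * ∑ v ∈ W t, V (w * om v) - 2 * ∑ v ∈ W t, ff (w * om v)) / 2 ^ (t + 1)
        = V w - (∑ v ∈ W t, V (w * om v)) / 2 ^ t + (∑ v ∈ W t, ff (w * om v)) / 2 ^ t := by
      field_simp
      ring
    have h4 : (∑ v ∈ W t, ff (w * om v)) / 2 ^ t ≤ 2 ^ t / w := by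
      rwa [div_le_iff₀ (by positivity), mul_comm]
    rw [e]
    refine (abs_add_le _ _).trans ?_
    rw [abs_of_nonneg (by positivity : 0 ≤ (∑ v ∈ W t, ff (w * om v)) / 2 ^ t)]
    have h5 : ((t + 1 : ℕ) : ℝ) * 2 ^ (t + 1) / w = 2 * (t * 2 ^ t / w + 2 ^ t / w) := by
      push_cast
      ring
    have h6 : (0 : ℝ) ≤ t * 2 ^ t / w + 2 ^ t / w := by positivity
    linarith

theorem stein (t : ℕ) (g : ℕ → ℝ) :
    ∑ v ∈ W (t + 1), (2 * (ones v : ℝ) - (t + 1 : ℕ)) * g (ones v)
      = (t + 1 : ℕ) * ∑ v ∈ W t, (g (ones v + 1) - g (ones v)) := by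
  induction t generalizing g with
  | zero =>
    rw [zero_add, sum_W_one]
    simp [W_zero]
    ring
  | succ t ih =>
    have h1 := ih fun j => g j + g (j + 1)
    have h2 : ∑ v ∈ W (t + 1), (g (ones v + 1) - g (ones v))
        = ∑ v ∈ W t, (g (ones v + 1) + g (ones v + 1 + 1) - (g (ones v) + g (ones v + 1))) := by
      rw [sum_W_cons]
      exact sum_congr rfl fun v _ => by
        simp only [ones_false, ones_true]
        ring
    rw [← h2] at h1
    rw [sum_W_cons, Nat.cast_succ (t + 1), add_mul, ← h1, one_mul, ← sum_add_distrib]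
    refine sum_congr rfl fun v _ => ?_
    simp only [ones_false, ones_true]
    push_cast
    ring

theorem variance (t : ℕ) : ∑ v ∈ W t, (2 * (ones v : ℝ) - t) ^ 2 = (t : ℝ) * 2 ^ t := by
  induction t with
  | zero => simp [W_zero]
  | succ t ih =>
    have h : ∀ v : List Bool, (2 * (ones (false :: v) : ℝ) - (t + 1 : ℕ)) ^ 2
        + (2 * (ones (true :: v) : ℝ) - (t + 1 : ℕ)) ^ 2 = 2 * (2 * (ones v : ℝ) - t) ^ 2 + 2 := by
      intro v
      simp only [ones_false, ones_true]
      push_cast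
      ring
    rw [sum_W_cons, sum_congr rfl fun v _ => h v, sum_add_distrib, ← mul_sum, ih, sum_const,
      nsmul_eq_mul, card_W]
    push_cast
    ring

theorem shift_le {t a : ℕ} (h : t + 1 = a ^ 2) {g : ℕ → ℝ} (hg : ∀ j, |g j| ≤ 30) :
    |∑ v ∈ W t, (g (ones v + 1) - g (ones v))| ≤ 60 / a * 2 ^ t := by
  have ha : (0 : ℝ) < a := by
    rcases Nat.eq_zero_or_pos a with rfl | ha
    · simp at h
    · exact_mod_cast ha
  have h1 := congrArg abs (stein t g)
  have e : ((t + 1 : ℕ) : ℝ) = (a : ℝ) ^ 2 := by exact_mod_cast h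
  have h2 : ∀ v : List Bool, |(2 * (ones v : ℝ) - (t + 1 : ℕ)) * g (ones v)|
      ≤ 15 / a * (2 * (ones v : ℝ) - (t + 1 : ℕ)) ^ 2 + 15 * a := by
    intro v
    rw [abs_mul, ← sq_abs]
    generalize hx : |2 * (ones v : ℝ) - (t + 1 : ℕ)| = x
    have h3 : 0 ≤ x := hx ▸ abs_nonneg _
    refine (mul_le_mul_of_nonneg_left (hg _) h3).trans ?_
    rw [div_mul_eq_mul_div, div_add' _ _ _ ha.ne', le_div_iff₀ ha]
    nlinarith [sq_nonneg (x - a)]
  have h3 := (abs_sum_le_sum_abs _ _).trans (sum_le_sum (s := W (t + 1)) fun v _ => h2 v)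
  rw [h1, sum_add_distrib, ← mul_sum, variance, sum_const, nsmul_eq_mul, card_W, abs_mul,
    e, abs_of_pos (by positivity)] at h3
  refine le_of_mul_le_mul_left (h3.trans (le_of_eq ?_)) (by positivity)
  field_simp
  ring

/-- Asymptotic invariance under the dilation `exp x`. -/
def Sl (x : ℝ) : Prop := Tendsto (fun w => V (Real.exp x * w) - V w) atTop (𝓝 0)

theorem Sl.add {x y : ℝ} (hx : Sl x) (hy : Sl y) : Sl (x + y) := by
  have := (hx.comp (tendsto_id.const_mul_atTop (Real.exp_pos y))).add hy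
  rw [add_zero] at this
  refine this.congr fun w => ?_
  simp only [Function.comp, id, Real.exp_add, mul_assoc]
  ring

theorem Sl.neg {x : ℝ} (hx : Sl x) : Sl (-x) := by
  have := (hx.comp (tendsto_id.const_mul_atTop (Real.exp_pos (-x)))).neg
  rw [neg_zero] at this
  refine this.congr fun w => ?_
  simp only [Function.comp, id, ← mul_assoc, ← Real.exp_add, add_neg_cancel, Real.exp_zero, one_mul]
  ring

theorem Sl_three : Sl (Real.log 3) := by
  unfold Sl
  rw [Real.exp_log (by norm_num), Metric.tendsto_nhds]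
  intro ε hε
  obtain ⟨a, ha⟩ := exists_nat_gt (120 / ε)
  have ha0 : (0 : ℝ) < a := lt_trans (by positivity) ha
  obtain ⟨t, ht⟩ : ∃ t, t + 1 = a ^ 2 :=
    ⟨a ^ 2 - 1, Nat.sub_add_cancel (pow_pos (by exact_mod_cast ha0) 2)⟩
  filter_upwards [eventually_gt_atTop 0, eventually_gt_atTop (4 * (t * 2 ^ t) / ε)] with w hw hw'
  have h1 := V_iter hw t
  have h2 := V_iter (w := 3 * w) (by positivity) t
  have h3 := shift_le ht (g := fun j => V (w * (3 ^ j / 2 ^ t))) fun j => by
    rw [abs_of_nonneg (V_nonneg (by positivity))]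
    exact V_le (by positivity)
  have e : ∑ v ∈ W t, (V (w * (3 ^ (ones v + 1) / 2 ^ t)) - V (w * (3 ^ ones v / 2 ^ t)))
      = ∑ v ∈ W t, V (3 * w * om v) - ∑ v ∈ W t, V (w * om v) := by
    rw [← sum_sub_distrib]
    refine sum_congr rfl fun v hv => ?_
    rw [om, mem_W.1 hv]
    congr 2
    ring
  rw [e, ← div_le_iff₀ (by positivity), ← abs_of_pos (by positivity : (0 : ℝ) < 2 ^ t), ← abs_div,
    sub_div] at h3
  have h4 : 60 / (a : ℝ) < ε / 2 := by
    rw [div_lt_iff₀ hε] at ha
    rw [div_lt_iff₀ ha0]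
    linarith
  have h5 : t * 2 ^ t / w ≤ ε / 4 := by
    rw [div_lt_iff₀ hε] at hw'
    rw [div_le_iff₀ hw]
    linarith
  have h6 : t * 2 ^ t / (3 * w) ≤ t * 2 ^ t / w :=
    div_le_div_of_nonneg_left (by positivity) hw (by linarith)
  rw [Real.dist_eq, sub_zero, abs_lt]
  rw [abs_le] at h1 h2 h3
  constructor <;> linarith

theorem Sl_two : Sl (Real.log 2) := by
  have h1 : Tendsto (fun w : ℝ => ff (2 * w)) atTop (𝓝 0) := by
    refine squeeze_zero' (Eventually.of_forall fun w => ff_nonneg _) ?_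
      (tendsto_const_nhds.div_atTop (tendsto_id.const_mul_atTop (by norm_num : (0 : ℝ) < 2))
        (f := fun _ => 1))
    filter_upwards [eventually_gt_atTop 0] with w hw
    exact ff_le (by positivity)
  have h2 := h1.add (Sl_three.div_const 2)
  rw [zero_div, add_zero, Real.exp_log (by norm_num)] at h2
  unfold Sl
  rw [Real.exp_log (by norm_num)]
  refine h2.congr' ?_
  filter_upwards [eventually_gt_atTop 0] with w hw
  rw [V_eq (w := 2 * w) (by positivity), show 2 * w * (1 / 2) = w by ring,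
    show 2 * w * (3 / 2) = 3 * w by ring]
  ring

/-- The group of asymptotic periods. -/
def slGroup : AddSubgroup ℝ where
  carrier := {x | Sl x}
  add_mem' := Sl.add
  zero_mem' := by simp [Sl]
  neg_mem' := Sl.neg

theorem exists_small {ε : ℝ} (hε : 0 < ε) : ∃ x, 0 < x ∧ x < ε ∧ Sl x := by
  rcases slGroup.dense_or_cyclic with h | ⟨g, hg⟩
  · obtain ⟨x, hx, h1, h2⟩ := h.exists_between hε
    exact ⟨x, h1, h2, hx⟩
  · exfalso
    have h2 : Real.log 2 ∈ slGroup := Sl_two
    have h3 : Real.log 3 ∈ slGroup := Sl_three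
    rw [hg, AddSubgroup.mem_closure_singleton] at h2 h3
    obtain ⟨m, hm⟩ := h2
    obtain ⟨n, hn⟩ := h3
    have l2 : 0 < Real.log 2 := Real.log_pos (by norm_num)
    have l3 : 0 < Real.log 3 := Real.log_pos (by norm_num)
    have h4 : (n : ℝ) * Real.log 2 = m * Real.log 3 := by
      rw [← hm, ← hn, zsmul_eq_mul, zsmul_eq_mul]
      ring
    have h5 := congrArg abs h4
    rw [abs_mul, abs_mul, abs_of_pos l2, abs_of_pos l3, ← Int.cast_abs, ← Int.cast_abs,
      ← Int.natCast_natAbs, ← Int.natCast_natAbs, Int.cast_natCast, Int.cast_natCast,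
      ← Real.log_pow, ← Real.log_pow] at h5
    have h6 : 2 ^ n.natAbs = 3 ^ m.natAbs := by
      exact_mod_cast Real.log_injOn_pos (Set.mem_Ioi.2 (by positivity))
        (Set.mem_Ioi.2 (by positivity)) h5
    have h7 : m ≠ 0 := by
      rintro rfl
      simp at hm
      linarith
    have h8 : 3 ∣ 2 ^ n.natAbs := h6 ▸ dvd_pow_self 3 (by omega)
    exact absurd (Nat.prime_three.dvd_of_dvd_pow h8) (by norm_num)

theorem osc {ε : ℝ} (hε : 0 < ε) :
    ∀ᶠ w in atTop, ∀ y, w ≤ y → y ≤ 2 * w → |V y - V w| ≤ ε := by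
  obtain ⟨x, hx0, hx, hS⟩ := exists_small (ε := Real.log (1 + ε / 60))
    (Real.log_pos (by linarith))
  have hγ : Real.exp x ≤ 1 + ε / 60 := by
    rw [← Real.exp_log (by positivity : 0 < 1 + ε / 60)]
    exact Real.exp_le_exp.2 hx.le
  have hγ1 : 1 < Real.exp x := Real.one_lt_exp_iff.2 hx0
  obtain ⟨I, hI⟩ := pow_unbounded_of_one_lt 2 hγ1
  have h1 : ∀ i : ℕ, ∀ᶠ w in atTop, |V (Real.exp x ^ i * w) - V w| ≤ ε / 2 := fun i => by
    have h : Sl (i • x) := slGroup.nsmul_mem hS i
    unfold Sl at h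
    rw [nsmul_eq_mul, Real.exp_nat_mul, Metric.tendsto_nhds] at h
    filter_upwards [h (ε / 2) (by positivity)] with w hw
    rw [Real.dist_eq, sub_zero] at hw
    exact hw.le
  filter_upwards [eventually_gt_atTop 0,
    (eventually_all_finset (range (I + 1))).2 fun i _ => h1 i] with w hw h y hy hy'
  obtain ⟨i, hi, hi'⟩ := exists_nat_pow_near ((one_le_div hw).2 hy) hγ1
  rw [le_div_iff₀ hw] at hi
  rw [div_lt_iff₀ hw] at hi'
  have hiI : i < I := by
    refine (pow_lt_pow_iff_right₀ hγ1).1 (lt_of_le_of_lt ?_ hI)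
    exact le_of_mul_le_mul_right (hi.trans hy') hw
  have a1 := abs_le.1 (h i (mem_range.2 (by omega)))
  have a2 := abs_le.1 (h (i + 1) (mem_range.2 (by omega)))
  have p1 : 0 < Real.exp x ^ i * w := by positivity
  have py : 0 < y := by linarith
  have b1 := mul_V_mono p1 hi
  have b2 := mul_V_mono py hi'.le
  have e : Real.exp x ^ (i + 1) * w = Real.exp x * (Real.exp x ^ i * w) := by ring
  have c1 : V (Real.exp x ^ i * w) ≤ (1 + ε / 60) * V y := by
    refine le_of_mul_le_mul_left (b1.trans ?_) p1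
    have := V_nonneg py
    calc y * V y ≤ ((1 + ε / 60) * (Real.exp x ^ i * w)) * V y := by
          gcongr
          exact (hi'.le.trans_eq e).trans (by gcongr)
      _ = _ := by ring
  have c2 : V y ≤ (1 + ε / 60) * V (Real.exp x ^ (i + 1) * w) := by
    refine le_of_mul_le_mul_left (b2.trans ?_) py
    have := V_nonneg (w := Real.exp x ^ (i + 1) * w) (by positivity)
    calc Real.exp x ^ (i + 1) * w * V (Real.exp x ^ (i + 1) * w)
        ≤ ((1 + ε / 60) * y) * V (Real.exp x ^ (i + 1) * w) :=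
          mul_le_mul_of_nonneg_right (e.trans_le (by gcongr)) this
      _ = _ := by ring
  have d1 := mul_le_mul_of_nonneg_left (V_le py) hε.le
  have d2 := mul_le_mul_of_nonneg_left
    (V_le (w := Real.exp x ^ (i + 1) * w) (by positivity)) hε.le
  rw [abs_le]
  constructor <;> linarith

theorem V_upper {w m : ℝ} (hw : 0 < w) (h : ∀ y, w ≤ y → y ≤ 2 * w → V y ≤ m) {y : ℝ}
    (hy : w ≤ y) : V y ≤ m + 30 / w := by
  have hm : 0 ≤ m := (V_nonneg hw).trans (h w le_rfl (by linarith))
  have h1 : ∀ n y, w ≤ y → Vn n y ≤ m + 30 * pot (y / w) / w := by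
    intro n
    induction n with
    | zero =>
      intro y hy
      have := pot_nonneg (div_nonneg (hw.le.trans hy) hw.le)
      rw [Vn]
      positivity
    | succ n ih =>
      intro y hy
      have hy0 : 0 < y := by linarith
      by_cases h2 : y ≤ 2 * w
      · have := pot_nonneg (div_nonneg hy0.le hw.le)
        exact le_add_of_le_of_nonneg ((Vn_le_V _ hy0).trans (h y hy h2)) (by positivity)
      · have a1 := ih (y * (1 / 2)) (by linarith)
        have a2 := ih (y * (3 / 2)) (by linarith)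
        have a3 := div_le_div_of_nonneg_right (ff_gain (div_pos hy0 hw)) hw.le
        have a4 : ff y ≤ ff (y / w) / w := by
          refine (ff_le hy0).trans (le_of_eq ?_)
          rw [ff, if_pos ((one_le_div hw).2 hy)]
          field_simp
        rw [mul_div_right_comm y] at a1 a2
        rw [add_div, div_right_comm, add_div] at a3
        rw [Vn]
        linarith
  refine ciSup_le fun n => (h1 n y hy).trans (add_le_add le_rfl ?_)
  refine div_le_div_of_nonneg_right ?_ hw.le
  linarith [pot_le (div_nonneg (hw.le.trans hy) hw.le)]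

theorem V_lower {w m : ℝ} (hw : 0 < w) (h : ∀ y, w ≤ y → y ≤ 2 * w → m ≤ V y) {y : ℝ}
    (hy : w ≤ y) : m ≤ V y := by
  have hm : m ≤ 30 := (h w le_rfl (by linarith)).trans (V_le hw)
  have h1 : ∀ (n : ℕ) y, w ≤ y → m - 30 * √(y / w) * (97 / 100) ^ n ≤ V y := by
    intro n
    induction n with
    | zero =>
      intro y hy
      have := Real.one_le_sqrt.2 ((one_le_div hw).2 hy)
      linarith [V_nonneg (hw.trans_le hy)]
    | succ n ih =>
      intro y hy
      have hy0 : 0 < y := by linarith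
      by_cases h2 : y ≤ 2 * w
      · exact le_trans (sub_le_self _ (by positivity)) (h y hy h2)
      · have a1 := ih (y * (1 / 2)) (by linarith)
        have a2 := ih (y * (3 / 2)) (by linarith)
        rw [mul_div_right_comm y, Real.sqrt_mul (div_pos hy0 hw).le] at a1 a2
        have a3 : √(1 / 2 : ℝ) ≤ 71 / 100 := Real.sqrt_le_iff.2 ⟨by norm_num, by norm_num⟩
        have a4 : √(3 / 2 : ℝ) ≤ 123 / 100 := Real.sqrt_le_iff.2 ⟨by norm_num, by norm_num⟩
        have a5 : 0 ≤ √(y / w) * (97 / 100 : ℝ) ^ n := by positivity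
        rw [V_eq hy0, pow_succ]
        nlinarith [ff_nonneg y, mul_le_mul_of_nonneg_left a3 a5, mul_le_mul_of_nonneg_left a4 a5]
  have h2 := ((tendsto_pow_atTop_nhds_zero_of_lt_one (by norm_num : (0 : ℝ) ≤ 97 / 100)
    (by norm_num)).const_mul (30 * √(y / w))).const_sub m
  rw [mul_zero, sub_zero] at h2
  exact le_of_tendsto' h2 fun n => h1 n y hy

/-- The renewal theorem for the free walk. -/
theorem renewal : ∃ V0 : ℝ, 1 / 2 ≤ V0 ∧ Tendsto V atTop (𝓝 V0) := by
  have h : CauchySeq V := by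
    refine Metric.cauchySeq_iff'.2 fun ε hε => ?_
    obtain ⟨w, h1, h2, h3⟩ := ((osc (half_pos hε)).and ((eventually_gt_atTop 0).and
      (eventually_gt_atTop (60 / ε)))).exists
    refine ⟨w, fun y hy => ?_⟩
    have a1 := V_upper (m := V w + ε / 2) h2
      (fun z h4 h5 => by linarith [abs_le.1 (h1 z h4 h5)]) hy
    have a2 := V_lower (m := V w - ε / 2) h2
      (fun z h4 h5 => by linarith [abs_le.1 (h1 z h4 h5)]) hy
    have a3 : 30 / w < ε / 2 := by
      rw [div_lt_iff₀ hε] at h3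
      rw [div_lt_iff₀ h2]
      linarith
    rw [Real.dist_eq, abs_lt]
    constructor <;> linarith
  obtain ⟨V0, hV⟩ := cauchySeq_tendsto_of_complete h
  refine ⟨V0, ge_of_tendsto hV ?_, hV⟩
  filter_upwards [eventually_ge_atTop 1] with y hy
  refine V_lower one_pos (fun z h1 h2 => le_trans ?_ (Vn_le_V 1 (by linarith))) hy
  rw [Vn, Vn, Vn, ff, if_pos h1]
  have := one_div_le_one_div_of_le (by linarith) h2
  linarith

end Pool.Agent.Lib.MP_7f88e4_nt.PS
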