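import Pool.Agent.Lib.MP_7f88e4_nt.PS.Ren

set_option autoImplicit false

namespace Pool.Agent.Lib.MP_7f88e4_nt.PS

open Finset

/-- The defects summed over one type. -/
noncomputable def Ps (k : ℤ) (p j : ℕ) (x : ℤ) : ℝ := ∑ v ∈ W p with ones v = j, dl k v x

/-- The total defect. -/
noncomputable def phi (k : ℤ) (p : ℕ) (x : ℤ) : ℝ := ∑ j ∈ range (p + 1), |Ps k p j x|

theorem Th_eq (k : ℤ) (h : ℕ → ℝ) (p : ℕ) (x : ℤ) :
    Th k h p x = ∑ j ∈ range (p + 1), h j * Ps k p j x := by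
  rw [Th, ← sum_fiberwise_of_maps_to (g := ones) (t := range (p + 1)) fun v hv => by
    have := ones_le v
    have := mem_W.1 hv
    rw [mem_range]
    omega]
  refine sum_congr rfl fun j _ => ?_
  rw [Ps, mul_sum]
  exact sum_congr rfl fun v hv => by rw [(mem_filter.1 hv).2]

theorem Th_le_phi (k : ℤ) {h : ℕ → ℝ} {B : ℝ} (hh : ∀ j, |h j| ≤ B) (p : ℕ) (x : ℤ) :
    |Th k h p x| ≤ B * phi k p x := by
  rw [Th_eq, phi, mul_sum]
  refine (abs_sum_le_sum_abs _ _).trans (sum_le_sum fun j _ => ?_)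
  rw [abs_mul]
  exact mul_le_mul_of_nonneg_right (hh j) (abs_nonneg _)

theorem phi_nonneg (k : ℤ) (p : ℕ) (x : ℤ) : 0 ≤ phi k p x := sum_nonneg fun _ _ => abs_nonneg _

theorem phi_congr {k x y : ℤ} {p : ℕ} (hxy : 3 ^ (p + 1) ∣ x - y) : phi k p x = phi k p y :=
  sum_congr rfl fun j _ => congrArg abs (sum_congr rfl fun v hv =>
    dl_congr (by rwa [mem_W.1 (mem_filter.1 hv).1]))

theorem phi_avg : ∃ C : ℝ, 0 ≤ C ∧ ∀ (k : ℤ) (n : ℕ), ¬ 3 ∣ k → 1 ≤ n →
    ∑ x ∈ range (3 ^ (n + 1)), phi k n x ≤ 3 ^ (n + 1) * (C / (n : ℝ) ^ 3) := by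
  obtain ⟨C, h0, hC⟩ := mix_gen
  refine ⟨C, h0, fun k n hk hn => le_trans (sum_le_sum fun x _ => ?_)
    (hC k (fun x j => if 0 ≤ Ps k n j x then 1 else -1) n hk
      (fun x j => by split_ifs <;> simp) hn)⟩
  refine le_trans (le_of_eq ?_) (le_abs_self _)
  rw [Th_eq, phi]
  refine sum_congr rfl fun j _ => ?_
  split_ifs with h
  · rw [abs_of_nonneg h, one_mul]
  · rw [abs_of_neg (not_le.1 h), neg_one_mul]

/-- The majorant of the additive parts of the good words at `r`. -/
noncomputable def SF (k r : ℤ) (H : ℕ) : ℝ := ∑ p ∈ range (100 * (H + 1) + 1), F k p r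

theorem one_le_SF (k r : ℤ) (H : ℕ) : 1 ≤ SF k r H := by
  rw [← F_zero k r]
  exact single_le_sum (f := fun p => F k p r) (fun p _ => F_nonneg k p r) (mem_range.2 (by omega))

theorem good_interval {k : ℤ} (hk : Odd k) (r : ℤ) {φ : ℤ → ℝ} (h0 : ∀ x, 0 ≤ φ x) {e : ℕ}
    (hper : ∀ x y, (3 : ℤ) ^ e ∣ x - y → φ x = φ y) {ε : ℝ} (hε0 : 0 ≤ ε)
    (hε : ∑ x ∈ range (3 ^ e), φ x ≤ 3 ^ e * ε) {H σ m : ℕ} (h1 : H + e ≤ 4 * m)
    (h2 : 97 * m ≤ σ) (B : Finset (List Bool))
    (hB : ∀ u ∈ B, u.length = σ ∧ Good H u ∧ Valid k u r) :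
    ∑ u ∈ B, om u * φ (pre k u r) ≤ (σ + 1 : ℕ) * (2 * ((|(k : ℝ)| + 1) * SF k r H) * ε) := by
  have hS := one_le_SF k r H
  rw [← sum_fiberwise_of_maps_to (g := ones) (t := range (σ + 1)) fun v hv => by
    have := ones_le v
    have := (hB v hv).1
    rw [mem_range]
    omega]
  refine (sum_le_card_nsmul _ _ (2 * ((|(k : ℝ)| + 1) * SF k r H) * ε) fun a _ => ?_).trans
    (by rw [card_range, nsmul_eq_mul])
  rcases (B.filter fun u => ones u = a).eq_empty_or_nonempty with h3 | ⟨u0, hu0⟩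
  · rw [h3, sum_empty]
    positivity
  obtain ⟨hu1, hu2⟩ := mem_filter.1 hu0
  refine (interval (r := r) hk h0 (M := 3 ^ e) (by positivity) (by exact_mod_cast hper)
    (by exact_mod_cast hε) _ (s := σ) (K := SF k r H + 1) (by positivity) (om_pos u0)
    ?_ ?_).trans ?_
  · have h3 := (hB u0 hu1).2.1.om_le le_rfl
    rw [List.take_length, (hB u0 hu1).1] at h3
    calc om u0 * ((3 ^ e : ℕ) : ℝ) ≤ 3 ^ H * (93 / 100) ^ σ * 3 ^ e := by
          push_cast
          gcongr
      _ = 3 ^ (H + e) * (93 / 100) ^ σ := by ring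
      _ ≤ 3 ^ (4 * m) * (93 / 100) ^ (97 * m) :=
          mul_le_mul (pow_le_pow_right₀ (by norm_num) h1)
            (pow_le_pow_of_le_one (by norm_num) (by norm_num) h2) (by positivity) (by positivity)
      _ ≤ 1 := by
          rw [pow_mul, pow_mul, ← mul_pow]
          exact pow_le_one₀ (by positivity) (by norm_num)
  · intro v hv
    obtain ⟨hv1, hv2⟩ := mem_filter.1 hv
    exact ⟨(hB v hv1).1, by rw [om, om, hv2, hu2, (hB v hv1).1, (hB u0 hu1).1], (hB v hv1).2.2,
      (hB v hv1).2.1.sg_le_F (hB v hv1).2.2⟩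
  · refine mul_le_mul_of_nonneg_right ?_ hε0
    nlinarith [abs_nonneg (k : ℝ)]

open Classical in
theorem err_abs : ∃ C : ℝ, 0 ≤ C ∧ ∀ (k r : ℤ) (H s : ℕ) (Cl : List Bool → Prop) (g : ℝ → ℝ),
    Odd k → ¬ 3 ∣ k → 100 * (H + 1) ≤ s → (∀ u, Cl u → Good H u) → (∀ w, 0 < w → |g w| ≤ 30) →
    |∑ v ∈ W s with Cl (v.take (s - s / 100)), dl k v r * g (om v)|
      ≤ C * ((|(k : ℝ)| + 1) * SF k r H) / (s : ℝ) ^ 2 := by
  obtain ⟨C, hC0, hC⟩ := phi_avg
  refine ⟨120 * 200 ^ 3 * C, by positivity, fun k r H s Cl g hk hk3 hs hCl hg => ?_⟩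
  obtain ⟨σ, m, rfl, hσ, hm, h1, h2⟩ : ∃ σ m, s = σ + m ∧ s - s / 100 = σ ∧ H + 1 ≤ m ∧
      99 * m ≤ σ ∧ s ≤ m * 200 := ⟨s - s / 100, s / 100, by omega, rfl, by omega, by omega, by omega⟩
  have e : ∑ v ∈ W (σ + m) with Cl (v.take σ), dl k v r * g (om v)
      = ∑ u ∈ W σ with Cl u ∧ Valid k u r,
        om u * Th k (fun c => g (om u * (3 ^ c / 2 ^ m))) m (pre k u r) := by
    rw [sum_filter, sum_filter, sum_W_add]
    refine sum_congr rfl fun u hu => ?_
    rw [mem_W] at hu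
    simp only [List.take_left' hu, dl_append, wt]
    by_cases h1 : Cl u
    · by_cases h2 : Valid k u r
      · simp only [h1, h2, and_self, if_true, Th, mul_sum]
        refine sum_congr rfl fun w hw => ?_
        rw [om_append, om.eq_1 w, mem_W.1 hw]
        ring
      · simp [h2]
    · simp [h1]
  rw [hσ, e]
  have h3 := good_interval hk r (phi_nonneg k m) (fun x y h => phi_congr h) (by positivity)
    (hC k m hk3 (by omega)) (H := H) (σ := σ) (m := m) (by omega) (by omega)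
    ((W σ).filter fun u => Cl u ∧ Valid k u r) fun u hu => by
      simp only [mem_filter, mem_W] at hu
      exact ⟨hu.1, hCl u hu.2.1, hu.2.2⟩
  refine (abs_sum_le_sum_abs _ _).trans ((sum_le_sum
    (g := fun u => 30 * (om u * phi k m (pre k u r))) fun u _ => ?_).trans ?_)
  · have := om_pos u
    rw [abs_mul, abs_of_pos this, mul_left_comm]
    exact mul_le_mul_of_nonneg_left (Th_le_phi k (fun c => hg _ (by positivity)) _ _) this.le
  · rw [← mul_sum]
    refine (mul_le_mul_of_nonneg_left h3 (by norm_num)).trans ?_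
    have hS := one_le_SF k r H
    have hs0 : (0 : ℝ) < (σ + m : ℕ) := by exact_mod_cast (by omega : 0 < σ + m)
    have a1 : ((σ + 1 : ℕ) : ℝ) ≤ 2 * (σ + m : ℕ) := by
      exact_mod_cast (by omega : σ + 1 ≤ 2 * (σ + m))
    have a2 : ((σ + m : ℕ) : ℝ) / 200 ≤ m := by
      rw [div_le_iff₀ (by norm_num)]
      exact_mod_cast h2
    generalize ((σ + m : ℕ) : ℝ) = s at *
    calc 30 * (((σ + 1 : ℕ) : ℝ) * (2 * ((|(k : ℝ)| + 1) * SF k r H) * (C / (m : ℝ) ^ 3)))
        ≤ 30 * ((2 * s) * (2 * ((|(k : ℝ)| + 1) * SF k r H) * (C / (s / 200) ^ 3))) := by gcongr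
      _ = _ := by
          field_simp
          ring

open Classical in
theorem loss_le : ∃ C : ℝ, 0 ≤ C ∧ ∀ (k r : ℤ) (H s μ a : ℕ), Odd k → 100 * (H + 1) ≤ s →
    μ = (s - s / 100 + 1) / 100 → a = s - s / 100 + 1 - μ →
    ∑ v ∈ W (s + 1) with Good H (v.take a) ∧ 5 * μ < 9 * ones ((v.drop a).take μ), wt k v r
      ≤ C * ((|(k : ℝ)| + 1) * SF k r H) / (s : ℝ) ^ 2 := by
  obtain ⟨C, hC0, hC⟩ := pow_mul_bdd 3 (x := 199 / 200) (by norm_num) (by norm_num)
  refine ⟨8 * 250 ^ 3 * C, by positivity, fun k r H s μ a hk hs hμ ha => ?_⟩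
  have hμ1 : 1 ≤ μ := by omega
  obtain ⟨d, hd⟩ : ∃ d, s + 1 = a + (μ + d) := ⟨s + 1 - a - μ, by omega⟩
  have e : ∑ v ∈ W (a + (μ + d)) with Good H (v.take a) ∧ 5 * μ < 9 * ones ((v.drop a).take μ),
      wt k v r = ∑ u ∈ W a with Good H u ∧ Valid k u r, om u *
        ∑ w ∈ W (μ + d) with 5 * μ < 9 * ones (w.take μ), wt k w (pre k u r) := by
    rw [sum_filter, sum_filter, sum_W_add]
    refine sum_congr rfl fun u hu => ?_
    rw [mem_W] at hu
    simp only [List.take_left' hu, List.drop_left' hu, wt_append, wt.eq_1 k u]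
    by_cases h1 : Good H u
    · by_cases h2 : Valid k u r
      · simp only [h1, h2, and_self, if_true, true_and, mul_sum, sum_filter, mul_ite, mul_zero]
      · simp [h2]
    · simp [h1]
  have h1 : (((W (μ + d)).filter fun w => 5 * μ < 9 * ones (w.take μ)).card : ℝ)
      ≤ 2 ^ (μ + d) * (199 / 200) ^ μ := by
    rw [card_filter, Nat.cast_sum, sum_W_add]
    have : ∀ u ∈ W μ, ∑ w ∈ W d, ((if 5 * μ < 9 * ones ((u ++ w).take μ) then 1 else 0 : ℕ) : ℝ)
        = if 5 * μ < 9 * ones u then 2 ^ d else 0 := by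
      intro u hu
      simp only [List.take_left' (mem_W.1 hu)]
      split_ifs <;> simp [card_W]
    rw [sum_congr rfl this, ← sum_filter, sum_const, nsmul_eq_mul, pow_add, mul_right_comm]
    exact mul_le_mul_of_nonneg_right (many_ones μ) (by positivity)
  have h2 := good_interval hk r
    (φ := fun x => ∑ w ∈ W (μ + d) with 5 * μ < 9 * ones (w.take μ), wt k w x)
    (fun x => sum_nonneg fun w _ => wt_nonneg k w x) (e := μ + d)
    (fun x y h => sum_congr rfl fun w hw => wt_congr ((pow_dvd_pow 3 (by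
      have := ones_le w
      have := mem_W.1 (mem_filter.1 hw).1
      omega)).trans h)) (ε := 2 * (199 / 200) ^ μ) (by positivity) ?_ (H := H) (σ := a)
    (m := s / 100) (by omega) (by omega) ((W a).filter fun u => Good H u ∧ Valid k u r)
    fun u hu => by simpa only [mem_filter, mem_W] using hu
  · rw [hd, e]
    refine h2.trans ?_
    have hS := one_le_SF k r H
    have hs0 : (0 : ℝ) < s := by exact_mod_cast (by omega : 0 < s)
    have a1 : ((a + 1 : ℕ) : ℝ) ≤ 2 * s := by exact_mod_cast (by omega : a + 1 ≤ 2 * s)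
    have a2 : (s : ℝ) / 250 ≤ μ := by
      rw [div_le_iff₀ (by norm_num)]
      exact_mod_cast (by omega : s ≤ μ * 250)
    have a3 := hC μ (by omega)
    calc ((a + 1 : ℕ) : ℝ) * (2 * ((|(k : ℝ)| + 1) * SF k r H) * (2 * (199 / 200) ^ μ))
        ≤ (2 * s) * (2 * ((|(k : ℝ)| + 1) * SF k r H) * (2 * (C / (μ : ℝ) ^ 3))) := by gcongr
      _ ≤ (2 * s) * (2 * ((|(k : ℝ)| + 1) * SF k r H) * (2 * (C / ((s : ℝ) / 250) ^ 3))) := by
          gcongr
      _ = _ := by
          field_simp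
          ring
  · rw [sum_comm]
    refine (sum_le_card_nsmul _ _ (2 * 3 ^ (μ + d) / 2 ^ (μ + d) : ℝ) fun w hw => ?_).trans ?_
    · have h3 := mem_W.1 (mem_filter.1 hw).1
      have := sum_wt_le k w (M := 3 ^ (μ + d))
        (Nat.pow_le_pow_right (by norm_num) (h3 ▸ ones_le w))
      rwa [h3, Nat.cast_pow, Nat.cast_ofNat] at this
    · rw [nsmul_eq_mul]
      exact (mul_le_mul_of_nonneg_right h1 (by positivity)).trans (le_of_eq (by field_simp))

open Classical in
/-- The potential of a class of words. -/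
noncomputable def Rg (k r : ℤ) (Cl : List Bool → Prop) (g : ℝ → ℝ) (s a : ℕ) : ℝ :=
  ∑ v ∈ W s with Cl (v.take a), wt k v r * g (om v)

open Classical in
theorem Rg_step (k r : ℤ) (Cl : List Bool → Prop) (Y : ℝ) (n : ℕ) {s a : ℕ} (ha : a ≤ s) :
    Rg k r Cl (fun w => Vn n (Y * w)) (s + 1) a + Rg k r Cl (fun w => ff (Y * w)) s a
      = Rg k r Cl (fun w => Vn (n + 1) (Y * w)) s a
        + ∑ v ∈ W s with Cl (v.take a), dl k v r * Vn n (Y * om v * (3 / 2)) := by
  simp only [Rg, sum_filter]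
  rw [sum_W_snoc, ← sum_add_distrib, ← sum_add_distrib]
  refine sum_congr rfl fun v hv => ?_
  have h : a ≤ v.length := by rwa [mem_W.1 hv]
  rw [List.take_append_of_le_length h, List.take_append_of_le_length h]
  split_ifs
  · rw [om_append, om_append, om_false, om_true, wt_false, dl, Vn, ← mul_assoc, ← mul_assoc]
    ring
  · simp

theorem tele2 {R c : ℕ → ℝ} {L : ℕ} (hL : 1 ≤ L) {E : ℝ} (hE : 0 ≤ E) {n : ℕ} (hn : L ≤ n)
    (h : ∀ s, L ≤ s → s < n → R (s + 1) + c s ≤ R s + E / (s : ℝ) ^ 2) :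
    ∑ s ∈ Ico L n, c s + R n ≤ R L + 2 * E / L := by
  have h2 : ∑ s ∈ Ico L n, c s + R n + 2 * E / n ≤ R L + 2 * E / L := by
    induction n, hn using Nat.le_induction with
    | base => simp
    | succ n hn ih =>
      have a0 : (1 : ℝ) ≤ n := by exact_mod_cast (by omega : 1 ≤ n)
      have a1 : E / (n : ℝ) ^ 2 + 2 * E / ((n + 1 : ℕ) : ℝ) ≤ 2 * E / n := by
        push_cast
        rw [div_add_div _ _ (by positivity) (by positivity),
          div_le_div_iff₀ (by positivity) (by positivity)]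
        nlinarith [mul_nonneg (mul_nonneg hE (by positivity : (0 : ℝ) ≤ n)) (sub_nonneg.2 a0)]
      rw [sum_Ico_succ_top hn]
      linarith [h n hn (by omega), ih fun s h1 h2 => h s h1 (by omega)]
  have h3 : (0 : ℝ) ≤ 2 * E / n := by positivity
  linarith

/-- The larger class. -/
def ClU (H l : ℕ) (P : List Bool → Prop) (u : List Bool) : Prop := P (u.take (99 * l)) ∧ Good H u

/-- The smaller class. -/
def ClL (l : ℕ) (P : List Bool → Prop) (u : List Bool) : Prop := P (u.take (99 * l)) ∧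
  ∀ p, 99 * l < p → p ≤ u.length → 9 * ones ((u.drop (p - p / 100)).take (p / 100)) ≤ 5 * (p / 100)

theorem ClL.good {H l : ℕ} (hl : 1 ≤ l) {P : List Bool → Prop} (hP : ∀ u, P u → Good H u)
    {u : List Bool} (h : ClL l P u) : Good H u := by
  intro p
  induction p using Nat.strong_induction_on with
  | _ p ih =>
    intro hp
    by_cases h1 : p ≤ 99 * l
    · have := hP _ h.1 p (by rw [List.length_take]; omega)
      rwa [List.take_take, min_eq_left h1] at this
    · have h2 := ih (p - p / 100) (by omega) (by omega)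
      have h3 := h.2 p (by omega) hp
      have e : u.take p = u.take (p - p / 100) ++ (u.drop (p - p / 100)).take (p / 100) := by
        rw [← List.take_add]
        congr 1
        omega
      rw [e, ones_append]
      omega

theorem window_take (v : List Bool) {a p : ℕ} (h : p ≤ a) :
    ((v.take a).drop (p - p / 100)).take (p / 100) = (v.drop (p - p / 100)).take (p / 100) := by
  rw [List.drop_take, List.take_take, min_eq_left (by omega)]

open Classical in
/-- The counted words of length `s`. -/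
noncomputable def Cn (k r : ℤ) (H l : ℕ) (P : List Bool → Prop) (Y : ℝ) (s : ℕ) :
    Finset (List Bool) :=
  (W s).filter fun v => ClU H l P (v.take (s - s / 100)) ∧ Valid k v r ∧ 1 ≤ Y * om v

theorem card_Cn (k r : ℤ) (H l : ℕ) (P : List Bool → Prop) {Y : ℝ} (hY : 0 < Y) (s : ℕ) :
    ((Cn k r H l P Y s).card : ℝ) / Y
      = Rg k r (ClU H l P) (fun w => ff (Y * w)) s (s - s / 100) := by
  classical
  rw [Cn, Rg, sum_filter, card_filter, Nat.cast_sum, sum_div]
  refine sum_congr rfl fun v _ => ?_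
  have := om_pos v
  by_cases h1 : ClU H l P (v.take (s - s / 100)) <;> by_cases h2 : Valid k v r <;>
    by_cases h3 : 1 ≤ Y * om v <;> simp [h1, h2, h3, wt, ff]
  field_simp

theorem Rg_mono {k r : ℤ} {C1 C2 : List Bool → Prop} {g : ℝ → ℝ} (hg : ∀ w, 0 ≤ g w) {s a b : ℕ}
    (h : ∀ v ∈ W s, C1 (v.take a) → C2 (v.take b)) : Rg k r C1 g s a ≤ Rg k r C2 g s b := by
  classical
  refine sum_le_sum_of_subset_of_nonneg (fun v hv => ?_)
    fun v _ _ => mul_nonneg (wt_nonneg k v r) (hg _)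
  rw [mem_filter] at *
  exact ⟨hv.1, h v hv.1 hv.2⟩

theorem abs_Vn {Y : ℝ} (hY : 0 < Y) (n : ℕ) (w : ℝ) (hw : 0 < w) :
    |Vn n (Y * w * (3 / 2))| ≤ 30 := by
  rw [abs_of_nonneg (Vn_nonneg _ _)]
  exact Vn_le _ (by positivity)

theorem root_upper : ∃ C : ℝ, 0 ≤ C ∧ ∀ (k r : ℤ) (H l n : ℕ) (P : List Bool → Prop) (Y : ℝ),
    Odd k → ¬ 3 ∣ k → H + 1 ≤ l → 0 < Y → 100 * l ≤ n →
    ∑ s ∈ Ico (100 * l) n, ((Cn k r H l P Y s).card : ℝ) / Y
      ≤ Rg k r P (fun w => V (Y * w)) (100 * l) (99 * l)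
        + C * ((|(k : ℝ)| + 1) * SF k r H) / l := by
  classical
  obtain ⟨C, hC0, hC⟩ := err_abs
  refine ⟨C, hC0, fun k r H l n P Y hk hk3 hl hY hn => ?_⟩
  have hS := one_le_SF k r H
  have h := tele2 (R := fun s => Rg k r (ClU H l P) (fun w => Vn (n - s) (Y * w)) s (s - s / 100))
    (c := fun s => ((Cn k r H l P Y s).card : ℝ) / Y) (L := 100 * l) (by omega)
    (E := C * ((|(k : ℝ)| + 1) * SF k r H)) (by positivity) hn fun s hs hs' => by
      have h1 := Rg_step k r (ClU H l P) Y (n - (s + 1)) (s := s) (a := s - s / 100) (by omega)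
      have h2 := hC k r H s (ClU H l P) (fun w => Vn (n - (s + 1)) (Y * w * (3 / 2))) hk hk3
        (by omega) (fun u hu => hu.2) (abs_Vn hY _)
      have h3 : Rg k r (ClU H l P) (fun w => Vn (n - (s + 1)) (Y * w)) (s + 1)
            (s + 1 - (s + 1) / 100)
          ≤ Rg k r (ClU H l P) (fun w => Vn (n - (s + 1)) (Y * w)) (s + 1) (s - s / 100) :=
        Rg_mono (fun w => Vn_nonneg _ _) fun v _ hv => by
          have a1 := hv.1
          have a2 := hv.2.take (s - s / 100)
          rw [List.take_take, min_eq_left (by omega)] at a1 a2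
          exact ⟨by rwa [List.take_take, min_eq_left (by omega)], a2⟩
      rw [show n - (s + 1) + 1 = n - s by omega] at h1
      rw [card_Cn k r H l P hY]
      linarith [(abs_le.1 h2).2]
  have h1 : 0 ≤ Rg k r (ClU H l P) (fun w => Vn (n - n) (Y * w)) n (n - n / 100) :=
    sum_nonneg fun v _ => mul_nonneg (wt_nonneg k v r) (Vn_nonneg _ _)
  have h2 : Rg k r (ClU H l P) (fun w => Vn (n - 100 * l) (Y * w)) (100 * l)
        (100 * l - 100 * l / 100)
      ≤ Rg k r P (fun w => V (Y * w)) (100 * l) (99 * l) := by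
    refine (Rg_mono (C2 := P) (b := 99 * l) (fun w => Vn_nonneg _ _) fun v _ hv => ?_).trans
      (sum_le_sum fun v _ => mul_le_mul_of_nonneg_left
        (Vn_le_V _ (mul_pos hY (om_pos v))) (wt_nonneg k v r))
    have a1 := hv.1
    rwa [List.take_take, min_eq_left (by omega)] at a1
  have h3 : 2 * (C * ((|(k : ℝ)| + 1) * SF k r H)) / ((100 * l : ℕ) : ℝ)
      ≤ C * ((|(k : ℝ)| + 1) * SF k r H) / l := by
    have : (0 : ℝ) < l := by exact_mod_cast (by omega : 0 < l)
    have : 0 ≤ C * ((|(k : ℝ)| + 1) * SF k r H) := by positivity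
    push_cast
    rw [div_le_div_iff₀ (by positivity) (by positivity)]
    nlinarith
  linarith

theorem root_lower : ∃ C : ℝ, 0 ≤ C ∧ ∀ (k r : ℤ) (H l n : ℕ) (P : List Bool → Prop) (Y : ℝ),
    Odd k → ¬ 3 ∣ k → H + 1 ≤ l → (∀ u, P u → Good H u) → 0 < Y → 100 * l ≤ n →
    Rg k r P (fun w => Vn (n - 100 * l) (Y * w)) (100 * l) (99 * l)
      ≤ ∑ s ∈ Ico (100 * l) n, ((Cn k r H l P Y s).card : ℝ) / Y
        + C * ((|(k : ℝ)| + 1) * SF k r H) / l := by
  classical
  obtain ⟨C1, hC1, hC⟩ := err_abs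
  obtain ⟨C2, hC2, hD⟩ := loss_le
  refine ⟨C1 + 30 * C2, by positivity, fun k r H l n P Y hk hk3 hl hP hY hn => ?_⟩
  have hS := one_le_SF k r H
  have hg : ∀ u, ClL l P u → Good H u := fun u hu => hu.good (by omega) hP
  have h := tele2 (R := fun s => -Rg k r (ClL l P) (fun w => Vn (n - s) (Y * w)) s (s - s / 100))
    (c := fun s => -(((Cn k r H l P Y s).card : ℝ) / Y)) (L := 100 * l) (by omega)
    (E := (C1 + 30 * C2) * ((|(k : ℝ)| + 1) * SF k r H)) (by positivity) hn fun s hs hs' => by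
      have h1 := Rg_step k r (ClL l P) Y (n - (s + 1)) (s := s) (a := s - s / 100) (by omega)
      have h2 := hC k r H s (ClL l P) (fun w => Vn (n - (s + 1)) (Y * w * (3 / 2))) hk hk3
        (by omega) hg (abs_Vn hY _)
      have h3 := hD k r H s _ _ hk (by omega) rfl rfl
      have h4 : Rg k r (ClL l P) (fun w => ff (Y * w)) s (s - s / 100)
          ≤ Rg k r (ClU H l P) (fun w => ff (Y * w)) s (s - s / 100) :=
        Rg_mono (fun w => ff_nonneg _) fun v _ hv => ⟨hv.1, hg _ hv⟩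
      have h5 : Rg k r (ClL l P) (fun w => Vn (n - (s + 1)) (Y * w)) (s + 1) (s - s / 100)
          ≤ Rg k r (ClL l P) (fun w => Vn (n - (s + 1)) (Y * w)) (s + 1) (s + 1 - (s + 1) / 100)
            + 30 * ∑ v ∈ W (s + 1) with
              Good H (v.take (s - s / 100 + 1 - (s - s / 100 + 1) / 100)) ∧
              5 * ((s - s / 100 + 1) / 100) < 9 * ones ((v.drop (s - s / 100 + 1
                - (s - s / 100 + 1) / 100)).take ((s - s / 100 + 1) / 100)), wt k v r := by
        simp only [Rg, sum_filter, mul_sum]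
        rw [← sum_add_distrib]
        refine sum_le_sum fun v hv => ?_
        have b0 := wt_nonneg k v r
        have b1 := mul_nonneg b0 (Vn_nonneg (n - (s + 1)) (Y * om v))
        have b2 := mul_le_mul_of_nonneg_left (Vn_le (n - (s + 1)) (mul_pos hY (om_pos v))) b0
        split_ifs with a1 a2 a3 a4 <;> try linarith
        exfalso
        refine a2 ⟨?_, fun p hp hp' => ?_⟩
        · have := a1.1
          rwa [List.take_take, min_eq_left (by omega)] at this ⊢
        · rw [List.length_take] at hp'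
          rw [window_take v (by omega)]
          by_cases h6 : p ≤ s - s / 100
          · have := a1.2 p hp (by rw [List.length_take, mem_W.1 hv]; omega)
            rwa [window_take v h6] at this
          · obtain rfl : p = s - s / 100 + 1 := by omega
            refine not_lt.1 fun h7 => a4 ⟨?_, h7⟩
            have := (hg _ a1).take (s - s / 100 + 1 - (s - s / 100 + 1) / 100)
            rwa [List.take_take, min_eq_left (by omega)] at this
      rw [show n - (s + 1) + 1 = n - s by omega] at h1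
      rw [card_Cn k r H l P hY, add_mul, add_div, mul_assoc 30, mul_div_assoc 30]
      linarith [(abs_le.1 h2).1]
  have h1 : Rg k r (ClL l P) (fun w => Vn (n - n) (Y * w)) n (n - n / 100) = 0 := by
    simp [Rg, Vn]
  have h2 : Rg k r P (fun w => Vn (n - 100 * l) (Y * w)) (100 * l) (99 * l)
      ≤ Rg k r (ClL l P) (fun w => Vn (n - 100 * l) (Y * w)) (100 * l)
        (100 * l - 100 * l / 100) :=
    Rg_mono (fun w => Vn_nonneg _ _) fun v _ hv =>
      ⟨by rwa [List.take_take, min_eq_left (by omega)], fun p hp hp' => by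
        rw [List.length_take] at hp'
        omega⟩
  have h3 : 2 * ((C1 + 30 * C2) * ((|(k : ℝ)| + 1) * SF k r H)) / ((100 * l : ℕ) : ℝ)
      ≤ (C1 + 30 * C2) * ((|(k : ℝ)| + 1) * SF k r H) / l := by
    have : (0 : ℝ) < l := by exact_mod_cast (by omega : 0 < l)
    have : 0 ≤ (C1 + 30 * C2) * ((|(k : ℝ)| + 1) * SF k r H) := by positivity
    push_cast
    rw [div_le_div_iff₀ (by positivity) (by positivity)]
    nlinarith
  rw [sum_neg_distrib] at h
  linarith

end Pool.Agent.Lib.MP_7f88e4_nt.PS
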