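import Pool.Agent.Lib.MP_7f88e4_nt.PS.Mix

set_option autoImplicit false

namespace Pool.Agent.Lib.MP_7f88e4_nt.PS

open Finset

/-- Every initial piece of the word has few odd steps, up to the allowance `H`. -/
def Good (H : ℕ) (v : List Bool) : Prop := ∀ p ≤ v.length, 9 * ones (v.take p) ≤ 5 * p + 9 * H

/-- The total weight of the words of length `p` at the point `t`. -/
noncomputable def F (k : ℤ) (p : ℕ) (t : ℤ) : ℝ := ∑ v ∈ W p, wt k v t

theorem F_nonneg (k : ℤ) (p : ℕ) (t : ℤ) : 0 ≤ F k p t := sum_nonneg fun v _ => wt_nonneg k v t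

theorem F_zero (k t : ℤ) : F k 0 t = 1 := by simp [F, W_zero, wt, Valid, om]

theorem Good.take {H : ℕ} {v : List Bool} (h : Good H v) (a : ℕ) : Good H (v.take a) := by
  intro p hp
  rw [List.length_take] at hp
  rw [List.take_take, min_eq_left (by omega)]
  exact h p (by omega)

theorem three_pow_le {j p H : ℕ} (h : 9 * j ≤ 5 * p + 9 * H) :
    (3 : ℝ) ^ j ≤ 3 ^ H * (93 / 50) ^ p := by
  refine le_of_pow_le_pow_left₀ (n := 9) (by norm_num) (by positivity) ?_
  calc ((3 : ℝ) ^ j) ^ 9 ≤ (3 ^ H) ^ 9 * (3 ^ 5) ^ p := by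
        rw [← pow_mul, ← pow_mul, ← pow_mul, ← pow_add]
        exact pow_le_pow_right₀ (by norm_num) (by omega)
    _ ≤ (3 ^ H) ^ 9 * ((93 / 50) ^ 9) ^ p := by
        gcongr
        norm_num
    _ = _ := by rw [mul_pow, ← pow_mul (93 / 50 : ℝ), ← pow_mul (93 / 50 : ℝ), mul_comm 9 p]

theorem Good.om_le {H : ℕ} {v : List Bool} (h : Good H v) {p : ℕ} (hp : p ≤ v.length) :
    om (v.take p) ≤ 3 ^ H * (93 / 100) ^ p := by
  rw [om, List.length_take, min_eq_left hp, div_le_iff₀ (by positivity), mul_assoc, ← mul_pow]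
  exact (three_pow_le (h p hp)).trans (by norm_num)

theorem Good.sg_le {H : ℕ} {v : List Bool} (h : Good H v) : sg v ≤ 15 * 3 ^ H := by
  refine (PS.sg_le v).trans ((sum_le_sum fun p hp => h.om_le (mem_range.1 hp).le).trans ?_)
  rw [← mul_sum, range_eq_Ico, mul_comm]
  refine mul_le_mul_of_nonneg_right ((geom_sum_Ico_le_of_lt_one (by norm_num)
    (by norm_num)).trans (by norm_num)) (by positivity)

theorem Good.sg_le_F {H : ℕ} {v : List Bool} (h : Good H v) {k t : ℤ} (hv : Valid k v t) :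
    sg v ≤ ∑ p ∈ range (100 * (H + 1) + 1), F k p t + 1 := by
  refine (PS.sg_le v).trans ?_
  rw [← sum_filter_add_sum_filter_not _ fun p => p < 100 * (H + 1)]
  refine add_le_add ?_ ?_
  · refine (sum_le_sum (g := fun p => F k p t) fun p hp => ?_).trans
      (sum_le_sum_of_subset_of_nonneg ?_ fun p _ _ => F_nonneg k p t)
    · have h1 : Valid k (v.take p) t := by
        rw [← List.take_append_drop p v] at hv
        exact hv.left
      have h2 : v.take p ∈ W p := by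
        have := mem_range.1 (mem_filter.1 hp).1
        rw [mem_W, List.length_take]
        omega
      exact le_trans (by rw [wt, if_pos h1])
        (single_le_sum (f := fun w => wt k w t) (fun w _ => wt_nonneg k w t) h2)
    · intro p hp
      have := (mem_filter.1 hp).2
      rw [mem_range]
      omega
  · have e : (range v.length).filter (fun p => ¬ p < 100 * (H + 1))
        = Ico (100 * (H + 1)) v.length := by
      ext p
      simp only [mem_filter, mem_range, mem_Ico]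
      omega
    rw [e]
    refine (sum_le_sum fun p hp => h.om_le (mem_Ico.1 hp).2.le).trans ?_
    rw [← mul_sum]
    refine (mul_le_mul_of_nonneg_left (geom_sum_Ico_le_of_lt_one (by norm_num) (by norm_num))
      (by positivity)).trans ?_
    have h1 : (3 * (93 / 100) ^ 100 : ℝ) ^ H ≤ 1 := pow_le_one₀ (by positivity) (by norm_num)
    rw [pow_mul, pow_succ, mul_div_assoc, ← mul_assoc, ← mul_pow]
    exact mul_le_one₀ h1 (by norm_num) (by norm_num)

/-- The backward images of one type fill a short interval. -/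
theorem interval {k r : ℤ} (hk : Odd k) {φ : ℤ → ℝ} (h0 : ∀ x, 0 ≤ φ x) {M : ℕ} (hM : 0 < M)
    (hper : ∀ x y, (M : ℤ) ∣ x - y → φ x = φ y) {ε : ℝ} (hε : ∑ x ∈ range M, φ x ≤ M * ε)
    (B : Finset (List Bool)) {s : ℕ} {K w : ℝ} (hK : 0 ≤ K) (hw : 0 < w) (hwM : w * M ≤ 1)
    (hB : ∀ v ∈ B, v.length = s ∧ om v = w ∧ Valid k v r ∧ sg v ≤ K) :
    ∑ v ∈ B, om v * φ (pre k v r) ≤ (|(k : ℝ)| * K + 1) * ε := by
  have hM' : (0 : ℤ) < M := by exact_mod_cast hM
  have hM'' : (0 : ℝ) < M := by exact_mod_cast hM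
  have hε0 : 0 ≤ ε := nonneg_of_mul_nonneg_right ((sum_nonneg fun x _ => h0 _).trans hε) hM''
  have hinj : Set.InjOn (fun v => pre k v r) B := by
    intro v hv v' hv' h
    obtain ⟨a1, -, a2, -⟩ := hB v hv
    obtain ⟨b1, -, b2, -⟩ := hB v' hv'
    have h' : pre k v r = pre k v' r := h
    exact goes_inj hk (by omega) a2.goes (h' ▸ b2.goes)
  rw [sum_congr rfl fun v hv => by rw [(hB v hv).2.1], ← mul_sum, ← sum_image (f := φ) hinj]
  set A := B.image fun v => pre k v r with hA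
  have h1 : ∀ x ∈ A, ∀ y ∈ A, (x : ℝ) - y ≤ |(k : ℝ)| * K / w := by
    simp only [hA, mem_image]
    rintro _ ⟨v, hv, rfl⟩ _ ⟨v', hv', rfl⟩
    obtain ⟨-, a1, a2, a3⟩ := hB v hv
    obtain ⟨-, b1, b2, b3⟩ := hB v' hv'
    have a4 := a2.goes.real
    have b4 := b2.goes.real
    rw [a1] at a4
    rw [b1] at b4
    rw [le_div_iff₀ hw, sub_mul, a4, b4]
    have h2 : |sg v' - sg v| ≤ K := by
      rw [abs_le]
      constructor <;> linarith [sg_nonneg v, sg_nonneg v']
    calc (r : ℝ) - k * sg v - (r - k * sg v') = k * (sg v' - sg v) := by ring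
      _ ≤ |(k : ℝ)| * |sg v' - sg v| := by
        rw [← abs_mul]
        exact le_abs_self _
      _ ≤ _ := by gcongr
  have hmod : ∀ x : ℤ, (M : ℤ) ∣ x - ((x % M).toNat : ℤ) := fun x => by
    rw [Int.toNat_of_nonneg (Int.emod_nonneg _ hM'.ne')]
    exact Int.dvd_self_sub_emod
  rw [← sum_fiberwise_of_maps_to (g := fun x : ℤ => (x % M).toNat) (t := range M) fun x _ => by
    have := Int.emod_lt_of_pos x hM'
    have := Int.emod_nonneg x hM'.ne'
    rw [mem_range]
    omega]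
  have h2 : ∀ y ∈ range M, ∑ x ∈ A.filter (fun x : ℤ => (x % M).toNat = y), φ x
      ≤ (|(k : ℝ)| * K / w / M + 1) * φ y := by
    intro y _
    rw [sum_congr rfl (g := fun _ => φ y) fun x hx => hper _ _ (by
      rw [← (mem_filter.1 hx).2]
      exact hmod x), sum_const, nsmul_eq_mul]
    refine mul_le_mul_of_nonneg_right ?_ (h0 _)
    refine (card_cong _ hM' (by positivity) ?_ fun x hx y hy =>
      h1 x (mem_filter.1 hx).1 y (mem_filter.1 hy).1).trans (by push_cast; exact le_rfl)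
    intro x hx z hz
    have h3 := dvd_sub (hmod x) (hmod z)
    rwa [(mem_filter.1 hx).2, (mem_filter.1 hz).2, sub_sub_sub_cancel_right] at h3
  refine (mul_le_mul_of_nonneg_left ((sum_le_sum h2).trans_eq (mul_sum _ _ _).symm)
    hw.le).trans ?_
  calc w * ((|(k : ℝ)| * K / w / M + 1) * ∑ y ∈ range M, φ y)
      ≤ w * ((|(k : ℝ)| * K / w / M + 1) * (M * ε)) := by gcongr
    _ = (|(k : ℝ)| * K + w * M) * ε := by field_simp
    _ ≤ _ := by gcongr

/-- The concave potential. -/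
noncomputable def pot (w : ℝ) : ℝ := w / (1 + w)

theorem pot_nonneg {w : ℝ} (hw : 0 ≤ w) : 0 ≤ pot w := by
  unfold pot
  positivity

theorem pot_le {w : ℝ} (hw : 0 ≤ w) : pot w ≤ 1 := by
  unfold pot
  rw [div_le_one (by positivity)]
  linarith

theorem pot_gain {w : ℝ} (hw : 0 < w) :
    (pot (w * (1 / 2)) + pot (w * (3 / 2))) / 2 + (if 1 ≤ w then 1 / (30 * w) else 0) ≤ pot w := by
  have e : pot w = (pot (w * (1 / 2)) + pot (w * (3 / 2))) / 2
      + w ^ 2 / ((1 + w) * (2 + w) * (2 + 3 * w)) := by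
    unfold pot
    field_simp
    ring
  rw [e]
  refine add_le_add le_rfl ?_
  split_ifs with h
  · rw [div_le_div_iff₀ (by positivity) (by positivity)]
    have : (1 + w) * (2 + w) * (2 + 3 * w) ≤ (2 * w) * (3 * w) * (5 * w) := by
      gcongr <;> linarith
    linarith
  · positivity

open Classical in
theorem err_le {C : ℝ} (hC0 : 0 ≤ C)
    (hC : ∀ (k : ℤ) (h : ℕ → ℝ) (n : ℕ), ¬ 3 ∣ k → (∀ j, |h j| ≤ 1) → 1 ≤ n →
      ∑ x ∈ range (3 ^ (n + 1)), |Th k h n x| ≤ 3 ^ (n + 1) * (C / (n : ℝ) ^ 3))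
    {k : ℤ} (hk : Odd k) (hk3 : ¬ 3 ∣ k) (r : ℤ) {H σ m : ℕ} (hH : H + 1 ≤ m) (hσ : 99 * m ≤ σ)
    {Y : ℝ} (hY : 0 < Y) :
    ∑ v ∈ W (σ + m) with Good H (v.take σ), dl k v r * pot (Y * om v * (3 / 2))
      ≤ (σ + 1 : ℕ) * ((|(k : ℝ)| * (∑ p ∈ range (100 * (H + 1) + 1), F k p r + 1) + 1)
        * (C / (m : ℝ) ^ 3)) := by
  set K := ∑ p ∈ range (100 * (H + 1) + 1), F k p r + 1 with hK
  have hK0 : 0 ≤ K := add_nonneg (sum_nonneg fun p _ => F_nonneg k p r) zero_le_one
  set h : ℕ → ℕ → ℝ := fun a c => pot (Y * (3 ^ a / 2 ^ σ * (3 ^ c / 2 ^ m)) * (3 / 2)) with hh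
  have e : ∑ v ∈ W (σ + m) with Good H (v.take σ), dl k v r * pot (Y * om v * (3 / 2))
      = ∑ u ∈ W σ with Good H u ∧ Valid k u r, om u * Th k (h (ones u)) m (pre k u r) := by
    rw [sum_filter, sum_filter, sum_W_add]
    refine sum_congr rfl fun u hu => ?_
    rw [mem_W] at hu
    simp only [List.take_left' hu, dl_append, wt]
    by_cases h1 : Good H u
    · by_cases h2 : Valid k u r
      · simp only [h1, h2, and_self, if_true, Th, mul_sum]
        refine sum_congr rfl fun w hw => ?_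
        rw [om_append, hh, om, om, hu, mem_W.1 hw]
        ring
      · simp [h2]
    · simp [h1]
  rw [e, ← sum_fiberwise_of_maps_to (g := ones) (t := range (σ + 1)) fun v hv => by
    have := ones_le v
    have := mem_W.1 (mem_filter.1 hv).1
    rw [mem_range]
    omega]
  refine (sum_le_card_nsmul _ _ ((|(k : ℝ)| * K + 1) * (C / (m : ℝ) ^ 3)) fun a _ => ?_).trans
    (by rw [card_range, nsmul_eq_mul])
  rcases (((W σ).filter fun u => Good H u ∧ Valid k u r).filter
    fun u => ones u = a).eq_empty_or_nonempty with h0 | ⟨u0, hu0⟩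
  · rw [h0, sum_empty]
    positivity
  refine (sum_le_sum fun u hu => ?_).trans (interval (r := r) hk (φ := fun x => |Th k (h a) m x|)
    (fun x => abs_nonneg _) (M := 3 ^ (m + 1)) (by positivity) ?_ ?_ _ (s := σ) hK0 (om_pos u0)
    ?_ ?_)
  · rw [(mem_filter.1 hu).2]
    exact mul_le_mul_of_nonneg_left (le_abs_self _) (om_pos u).le
  · intro x y hxy
    rw [Th_congr _ (by exact_mod_cast hxy)]
  · rw [Nat.cast_pow, Nat.cast_ofNat]
    refine hC k _ m hk3 (fun j => ?_) (by omega)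
    rw [abs_of_nonneg (pot_nonneg (by positivity))]
    exact pot_le (by positivity)
  · simp only [mem_filter, mem_W] at hu0
    have h1 := hu0.1.2.1.om_le le_rfl
    rw [List.take_length, hu0.1.1] at h1
    calc om u0 * ((3 ^ (m + 1) : ℕ) : ℝ) ≤ 3 ^ H * (93 / 100) ^ σ * 3 ^ (m + 1) := by
          push_cast
          gcongr
      _ = 3 ^ (H + (m + 1)) * (93 / 100) ^ σ := by ring
      _ ≤ 3 ^ (2 * m) * (93 / 100) ^ (99 * m) :=
          mul_le_mul (pow_le_pow_right₀ (by norm_num) (by omega))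
            (pow_le_pow_of_le_one (by norm_num) (by norm_num) hσ) (by positivity) (by positivity)
      _ ≤ 1 := by
          rw [pow_mul, pow_mul, ← mul_pow]
          exact pow_le_one₀ (by positivity) (by norm_num)
  · intro v hv
    simp only [mem_filter, mem_W] at hu0 hv
    exact ⟨hv.1.1, by rw [om, om, hv.2, hu0.2, hv.1.1, hu0.1.1], hv.1.2.2,
      hv.1.2.1.sg_le_F hv.1.2.2⟩

open Classical in
/-- The backward words of length `s` that are counted. -/
noncomputable def Cnt (k r : ℤ) (H : ℕ) (Y : ℝ) (s : ℕ) : Finset (List Bool) :=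
  (W s).filter fun v => Valid k v r ∧ Good H v ∧ 1 ≤ Y * om v

open Classical in
/-- The potential at length `s`. -/
noncomputable def Rp (k r : ℤ) (H : ℕ) (Y : ℝ) (s : ℕ) : ℝ :=
  ∑ v ∈ W s with Good H (v.take (s - s / 100)), wt k v r * pot (Y * om v)

open Classical in
theorem Cnt_le (k r : ℤ) (H : ℕ) {Y : ℝ} (hY : 0 < Y) (s : ℕ) :
    ((Cnt k r H Y s).card : ℝ) ≤ Y * F k s r := by
  rw [F, mul_sum, card_eq_sum_ones, Nat.cast_sum]
  refine (sum_le_sum fun v hv => ?_).trans (sum_le_sum_of_subset_of_nonneg (filter_subset _ _)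
    fun v _ _ => mul_nonneg hY.le (wt_nonneg k v r))
  simp only [Cnt, mem_filter] at hv
  rw [wt, if_pos hv.2.1, Nat.cast_one]
  exact hv.2.2.2

theorem Rp_nonneg (k r : ℤ) (H : ℕ) {Y : ℝ} (hY : 0 < Y) (s : ℕ) : 0 ≤ Rp k r H Y s :=
  sum_nonneg fun v _ => mul_nonneg (wt_nonneg k v r) (pot_nonneg (mul_pos hY (om_pos v)).le)

open Classical in
theorem Rp_le (k r : ℤ) (H : ℕ) {Y : ℝ} (hY : 0 < Y) (s : ℕ) : Rp k r H Y s ≤ F k s r :=
  (sum_le_sum fun v _ => mul_le_of_le_one_right (wt_nonneg k v r)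
    (pot_le (mul_pos hY (om_pos v)).le)).trans
    (sum_le_sum_of_subset_of_nonneg (filter_subset _ _) fun v _ _ => wt_nonneg k v r)

open Classical in
theorem Rp_succ (k r : ℤ) (H : ℕ) {Y : ℝ} (hY : 0 < Y) (s : ℕ) :
    Rp k r H Y (s + 1) + (Cnt k r H Y s).card / (30 * Y) ≤ Rp k r H Y s
      + ∑ v ∈ W s with Good H (v.take (s - s / 100)), dl k v r * pot (Y * om v * (3 / 2)) := by
  have hg : ∀ v ∈ W s, ∀ b, Good H ((v ++ [b]).take (s + 1 - (s + 1) / 100)) →
      Good H (v.take (s - s / 100)) := by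
    intro v hv b h
    have := h.take (s - s / 100)
    rwa [List.take_take, min_eq_left (by omega),
      List.take_append_of_le_length (by rw [mem_W.1 hv]; omega)] at this
  have e : ((Cnt k r H Y s).card : ℝ) / (30 * Y)
      = ∑ v ∈ W s, if Valid k v r ∧ Good H v ∧ 1 ≤ Y * om v then 1 / (30 * Y) else 0 := by
    rw [← sum_filter, sum_const, nsmul_eq_mul, mul_one_div]
    rfl
  rw [e, Rp, Rp, sum_filter, sum_filter, sum_filter, sum_W_snoc, ← sum_add_distrib,
    ← sum_add_distrib]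
  refine sum_le_sum fun v hv => ?_
  have hw := mul_pos hY (om_pos v)
  by_cases h : Good H (v.take (s - s / 100))
  · have h1 : ∀ (P : Prop) (b : Bool), (if P then wt k (v ++ [b]) r * pot (Y * om (v ++ [b])) else 0)
        ≤ wt k (v ++ [b]) r * pot (Y * om v * om [b]) := by
      intro P b
      rw [om_append, mul_assoc Y]
      split_ifs
      · exact le_rfl
      · exact mul_nonneg (wt_nonneg _ _ _) (pot_nonneg (mul_pos hY
          (mul_pos (om_pos _) (om_pos _))).le)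
    have h2 : (if Valid k v r ∧ Good H v ∧ 1 ≤ Y * om v then 1 / (30 * Y) else 0)
        ≤ wt k v r * if 1 ≤ Y * om v then 1 / (30 * (Y * om v)) else 0 := by
      split_ifs with a1 a2 a3
      · rw [wt, if_pos a1.1]
        have := om_pos v
        exact le_of_eq (by field_simp)
      · exact absurd a1.2.2 a2
      · exact mul_nonneg (wt_nonneg _ _ _) (by positivity)
      · simp
    refine (add_le_add (add_le_add (h1 _ false) (h1 _ true)) h2).trans ?_
    rw [if_pos h, if_pos h, om_false, om_true, wt_false, dl]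
    nlinarith [mul_le_mul_of_nonneg_left (pot_gain hw) (wt_nonneg k v r)]
  · rw [if_neg h, if_neg h, if_neg fun h' => h (hg v hv _ h'), if_neg fun h' => h (hg v hv _ h'),
      if_neg fun h' => h (h'.2.1.take _)]
    simp

theorem tele {R c : ℕ → ℝ} {L : ℕ} (hL : 1 ≤ L) {E : ℝ} (hE : 0 ≤ E) (hR : ∀ s, 0 ≤ R s)
    (h : ∀ s, L ≤ s → R (s + 1) + c s ≤ R s + E / (s : ℝ) ^ 2) {n : ℕ} (hn : L ≤ n) :
    ∑ s ∈ Ico L n, c s ≤ R L + 2 * E := by
  have h2 : ∑ s ∈ Ico L n, c s + R n + 2 * E / n ≤ R L + 2 * E := by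
    induction n, hn using Nat.le_induction with
    | base =>
      have a2 : 2 * E / L ≤ 2 * E := div_le_self (by positivity) (by exact_mod_cast hL)
      rw [Ico_self, sum_empty]
      linarith
    | succ n hn ih =>
      have a0 : (1 : ℝ) ≤ n := by exact_mod_cast (by omega : 1 ≤ n)
      have a1 : E / (n : ℝ) ^ 2 + 2 * E / ((n + 1 : ℕ) : ℝ) ≤ 2 * E / n := by
        push_cast
        rw [div_add_div _ _ (by positivity) (by positivity),
          div_le_div_iff₀ (by positivity) (by positivity)]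
        nlinarith [mul_nonneg (mul_nonneg hE (by positivity : (0 : ℝ) ≤ n)) (sub_nonneg.2 a0)]
      rw [sum_Ico_succ_top hn]
      linarith [h n hn]
  have h3 : (0 : ℝ) ≤ 2 * E / n := by positivity
  linarith [hR n]

theorem Rp_step {C : ℝ} (hC0 : 0 ≤ C)
    (hC : ∀ (k : ℤ) (h : ℕ → ℝ) (n : ℕ), ¬ 3 ∣ k → (∀ j, |h j| ≤ 1) → 1 ≤ n →
      ∑ x ∈ range (3 ^ (n + 1)), |Th k h n x| ≤ 3 ^ (n + 1) * (C / (n : ℝ) ^ 3))
    {k : ℤ} (hk : Odd k) (hk3 : ¬ 3 ∣ k) (r : ℤ) {H s : ℕ} (hs : 100 * (H + 1) ≤ s)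
    {Y : ℝ} (hY : 0 < Y) {S : ℝ} (hS : ∑ p ∈ range (100 * (H + 1) + 1), F k p r = S)
    (hS1 : 1 ≤ S) :
    Rp k r H Y (s + 1) + (Cnt k r H Y s).card / (30 * Y)
      ≤ Rp k r H Y s + 4 * 200 ^ 3 * C * ((|(k : ℝ)| + 1) * S) / (s : ℝ) ^ 2 := by
  refine (Rp_succ k r H hY s).trans (add_le_add le_rfl ?_)
  have h2 := err_le hC0 hC hk hk3 r (H := H) (σ := s - s / 100) (m := s / 100) (by omega)
    (by omega) hY
  rw [show s - s / 100 + s / 100 = s by omega, hS] at h2
  refine h2.trans ?_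
  have hs0 : (0 : ℝ) < s := by exact_mod_cast (by omega : 0 < s)
  have a1 : ((s - s / 100 + 1 : ℕ) : ℝ) ≤ 2 * s := by
    exact_mod_cast (by omega : s - s / 100 + 1 ≤ 2 * s)
  have a2 : (s : ℝ) / 200 ≤ (s / 100 : ℕ) := by
    rw [div_le_iff₀ (by norm_num)]
    exact_mod_cast (by omega : s ≤ s / 100 * 200)
  have a3 : |(k : ℝ)| * (S + 1) + 1 ≤ 2 * ((|(k : ℝ)| + 1) * S) := by
    nlinarith [abs_nonneg (k : ℝ)]
  calc ((s - s / 100 + 1 : ℕ) : ℝ) * ((|(k : ℝ)| * (S + 1) + 1) * (C / ((s / 100 : ℕ) : ℝ) ^ 3))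
      ≤ (2 * s) * ((2 * ((|(k : ℝ)| + 1) * S)) * (C / ((s : ℝ) / 200) ^ 3)) := by gcongr
    _ = _ := by
        field_simp
        ring

/-- The number of good backward words that end below a given size. -/
theorem visits : ∃ C : ℝ, 0 ≤ C ∧ ∀ (k r : ℤ) (H : ℕ) (Y : ℝ) (n : ℕ), Odd k → ¬ 3 ∣ k → 0 < Y →
    ∑ s ∈ range n, ((Cnt k r H Y s).card : ℝ)
      ≤ Y * (C * (|(k : ℝ)| + 1) * ∑ p ∈ range (100 * (H + 1) + 1), F k p r) := by
  obtain ⟨C, hC0, hC⟩ := mix
  refine ⟨31 + 60 * (4 * 200 ^ 3 * C), by positivity, fun k r H Y n hk hk3 hY => ?_⟩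
  obtain ⟨S, hS⟩ : ∃ S, ∑ p ∈ range (100 * (H + 1) + 1), F k p r = S := ⟨_, rfl⟩
  have hF : ∀ p ≤ 100 * (H + 1), F k p r ≤ S := fun p hp => by
    rw [← hS]
    exact single_le_sum (f := fun p => F k p r) (fun p _ => F_nonneg k p r) (mem_range.2 (by omega))
  have hS1 : 1 ≤ S := (F_zero k r).ge.trans (hF 0 (by omega))
  have h1 := tele (L := 100 * (H + 1)) (by omega) (by positivity) (Rp_nonneg k r H hY)
    (fun s hs => Rp_step hC0 hC hk hk3 r hs hY hS hS1) (Nat.le_add_right _ n)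
  have h3 : ∑ s ∈ range n, ((Cnt k r H Y s).card : ℝ)
      ≤ ∑ s ∈ range (100 * (H + 1)), ((Cnt k r H Y s).card : ℝ)
        + ∑ s ∈ Ico (100 * (H + 1)) (100 * (H + 1) + n), ((Cnt k r H Y s).card : ℝ) := by
    rw [sum_range_add_sum_Ico _ (by omega)]
    exact sum_le_sum_of_subset_of_nonneg (range_subset_range.2 (by omega))
      fun _ _ _ => by positivity
  have h4 : ∑ s ∈ range (100 * (H + 1)), ((Cnt k r H Y s).card : ℝ) ≤ Y * S := by
    refine (sum_le_sum fun s _ => Cnt_le k r H hY s).trans ?_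
    rw [← mul_sum, ← hS, sum_range_succ]
    exact mul_le_mul_of_nonneg_left (le_add_of_nonneg_right (F_nonneg _ _ _)) hY.le
  have h5 := (Rp_le k r H hY _).trans (hF _ le_rfl)
  rw [← sum_div, div_le_iff₀ (by positivity)] at h1
  have h8 : Y * S ≤ Y * ((|(k : ℝ)| + 1) * S) := by
    refine mul_le_mul_of_nonneg_left ?_ hY.le
    nlinarith [abs_nonneg (k : ℝ)]
  have h9 := mul_le_mul_of_nonneg_left h5 hY.le
  rw [hS]
  linarith

end Pool.Agent.Lib.MP_7f88e4_nt.PS
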