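import Pool.Agent.Lib.MP_7f88e4_nt.PS.Bin

set_option autoImplicit false

namespace Pool.Agent.Lib.MP_7f88e4_nt.PS

open Finset Filter

/-- A colouring of the states (time, level) with heights of the black states. -/
structure Sys where
  white : ℕ → ℕ → Prop
  ht : ℕ → ℕ → ℕ
  white_two : ∀ r N, white r N → 2 ≤ N
  ht_le : ∀ r N, 2 ≤ N → ¬ white r N → 5 * ht r N ≤ 4 * N
  exit : ∀ r N J, 2 ≤ N → ¬ white r N → ht r N ≤ r → J ≤ ht r N → J + 2 ≤ N →
    white (r - ht r N) (N - J)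
  sep : ∀ r N p V J1 J2, 2 ≤ N → ¬ white r N → ht r N + p ≤ r → J1 < J2 →
    4 * J2 ≤ 5 * ht r N → J2 + 2 ≤ N →
    ¬ white (r - ht r N - p) (N - J1) → V < ht (r - ht r N - p) (N - J1) →
    ¬ white (r - ht r N - p) (N - J2) → V < ht (r - ht r N - p) (N - J2) →
    J2 - J1 ≤ 2 * p + 2 ∨ V ≤ J2 - J1

namespace Sys

variable (S : Sys)

open Classical in
/-- The gain at a state. -/
noncomputable def gam (r N : ℕ) : ℝ := if S.white r N then 31 / 32 else 1

/-- One block of two coins. -/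
noncomputable def P (r : ℕ) (f : ℕ → ℝ) (N : ℕ) : ℝ :=
  f N / 4 + S.gam r N / 2 * f (N - 1) + f (N - 2) / 4

/-- The blocks at the times `r + s - 1, ..., r`. -/
noncomputable def iter (r : ℕ) : ℕ → (ℕ → ℝ) → ℕ → ℝ
  | 0, f => f
  | s + 1, f => S.P (r + s) (iter r s f)

/-- The majorant of the characteristic function. -/
noncomputable def Q (r : ℕ) : ℕ → ℝ := S.iter 0 r fun N => if N ≤ 1 then 1 else 0

theorem gam_nonneg (r N : ℕ) : 0 ≤ S.gam r N := by
  unfold gam
  split_ifs <;> norm_num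

theorem gam_le (r N : ℕ) : S.gam r N ≤ 1 := by
  unfold gam
  split_ifs <;> norm_num

theorem P_mono (r : ℕ) {f g : ℕ → ℝ} (h : ∀ N, f N ≤ g N) (N : ℕ) : S.P r f N ≤ S.P r g N := by
  unfold P
  have := mul_le_mul_of_nonneg_left (h (N - 1)) (div_nonneg (S.gam_nonneg r N) zero_le_two)
  linarith [h N, h (N - 2)]

theorem P_nonneg (r : ℕ) {f : ℕ → ℝ} (h : ∀ N, 0 ≤ f N) (N : ℕ) : 0 ≤ S.P r f N := by
  unfold P
  have := mul_nonneg (div_nonneg (S.gam_nonneg r N) zero_le_two) (h (N - 1))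
  linarith [h N, h (N - 2)]

theorem P_le (r : ℕ) {f : ℕ → ℝ} (h : ∀ N, 0 ≤ f N) (N : ℕ) : S.P r f N ≤ Bn 2 f N := by
  rw [Bn_two]
  unfold P
  nlinarith [h (N - 1), S.gam_le r N]

theorem P_le_of_le (r : ℕ) {f : ℕ → ℝ} {b : ℝ} (N : ℕ) (hb : 0 ≤ b) (h0 : f N ≤ b)
    (h1 : f (N - 1) ≤ b) (h2 : f (N - 2) ≤ b) : S.P r f N ≤ b := by
  unfold P
  have := mul_le_mul_of_nonneg_left h1 (div_nonneg (S.gam_nonneg r N) zero_le_two)
  nlinarith [S.gam_le r N]

theorem P_white {r N : ℕ} (hw : S.white r N) {f : ℕ → ℝ} {b : ℝ} (h0 : f N ≤ b)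
    (h1 : f (N - 1) ≤ b) (h2 : f (N - 2) ≤ b) : S.P r f N ≤ 63 / 64 * b := by
  unfold P gam
  rw [if_pos hw]
  linarith

theorem iter_mono (r s : ℕ) {f g : ℕ → ℝ} (h : ∀ N, f N ≤ g N) (N : ℕ) :
    S.iter r s f N ≤ S.iter r s g N := by
  induction s generalizing N with
  | zero => exact h N
  | succ s ih => exact S.P_mono _ ih N

theorem iter_nonneg (r s : ℕ) {f : ℕ → ℝ} (h : ∀ N, 0 ≤ f N) (N : ℕ) : 0 ≤ S.iter r s f N := by
  induction s generalizing N with
  | zero => exact h N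
  | succ s ih => exact S.P_nonneg _ ih N

theorem iter_add (r a b : ℕ) (f : ℕ → ℝ) :
    S.iter r (a + b) f = S.iter (r + a) b (S.iter r a f) := by
  induction b with
  | zero => rfl
  | succ b ih =>
    show S.P (r + (a + b)) (S.iter r (a + b) f) = S.P (r + a + b) _
    rw [ih, add_assoc]

theorem iter_lin (r s : ℕ) (a b : ℝ) (f g : ℕ → ℝ) (N : ℕ) :
    S.iter r s (fun M => a * f M + b * g M) N = a * S.iter r s f N + b * S.iter r s g N := by
  induction s generalizing N with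
  | zero => rfl
  | succ s ih =>
    show S.P _ _ N = a * S.P _ _ N + b * S.P _ _ N
    unfold P
    rw [ih, ih, ih]
    ring

theorem iter_le_Bn (r s : ℕ) {f : ℕ → ℝ} (h : ∀ N, 0 ≤ f N) (N : ℕ) :
    S.iter r s f N ≤ Bn (2 * s) f N := by
  induction s generalizing N with
  | zero => exact (Bn_zero f N).ge
  | succ s ih =>
    rw [show 2 * (s + 1) = 2 + 2 * s by ring, Bn_add]
    exact (S.P_le _ (S.iter_nonneg r s h) N).trans (Bn_mono ih N)

theorem Q_nonneg (r N : ℕ) : 0 ≤ S.Q r N :=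
  S.iter_nonneg _ _ (fun M => by split_ifs <;> norm_num) N

theorem Q_le_Ex (r N : ℕ) : S.Q r N ≤ Ex (2 * r) fun J => if N - J ≤ 1 then 1 else 0 :=
  S.iter_le_Bn _ _ (fun M => by split_ifs <;> norm_num) N

theorem Q_le_one (r N : ℕ) : S.Q r N ≤ 1 := by
  refine (S.Q_le_Ex r N).trans ((Ex_mono fun J _ => ?_).trans (Ex_const _ 1).le)
  split_ifs <;> norm_num

theorem Q_add (r s : ℕ) : S.Q (r + s) = S.iter r s (S.Q r) := by
  unfold Q
  rw [iter_add, zero_add]

/-- An excursion from a black state ends at a white state with probability one half. -/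
theorem excursion {r N : ℕ} (hb : ¬ S.white r N) (hr : S.ht r N ≤ r)
    (hN : 2 * S.ht r N + 2 ≤ N) {f : ℕ → ℝ} {b : ℝ} (hb0 : 0 ≤ b) (hf : ∀ M, 0 ≤ f M)
    (hfb : ∀ M, N ≤ M + 2 * S.ht r N + 2 → M ≤ N → f M ≤ b) :
    S.iter (r - S.ht r N) (1 + S.ht r N) f N ≤ 127 / 128 * b := by
  set h := S.ht r N with hh
  rw [iter_add]
  refine (S.iter_le_Bn _ _ (S.iter_nonneg _ _ hf) N).trans ?_
  have h1 : Bn (2 * h) (S.iter (r - h) 1 f) N ≤
      Ex (2 * h) fun J => b + -(b / 64) * (if J ≤ h then 1 else 0) := by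
    refine Ex_mono fun J hJ => ?_
    have a0 := hfb (N - J) (by omega) (by omega)
    have a1 := hfb (N - J - 1) (by omega) (by omega)
    have a2 := hfb (N - J - 2) (by omega) (by omega)
    show S.P (r - h + 0) f (N - J) ≤ _
    split_ifs with hJh
    · have := S.P_white (S.exit r N J (by omega) hb hr hJh (by omega)) a0 a1 a2
      rw [add_zero]
      linarith
    · have := S.P_le_of_le (r - h + 0) (N - J) hb0 a0 a1 a2
      linarith
  rw [Ex_add, Ex_const, Ex_mul] at h1
  nlinarith [half h]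

/-- A tall black state. -/
def tall (r N V : ℕ) : Prop := 2 ≤ N ∧ ¬ S.white r N ∧ V < S.ht r N

open Classical in
/-- The walk killed at tall states. -/
noncomputable def Z (t : ℕ) (V : ℕ → ℕ) : ℕ → ℕ → ℝ
  | 0, _ => 1
  | e + 1, N => if S.tall (t + e) N (V e) then 0 else S.P (t + e) (Z t V e) N

theorem Z_nonneg (t : ℕ) (V : ℕ → ℕ) (e N : ℕ) : 0 ≤ S.Z t V e N := by
  induction e generalizing N with
  | zero => exact zero_le_one
  | succ e ih =>
    unfold Z
    split_ifs
    · exact le_rfl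
    · exact S.P_nonneg _ ih N

theorem Z_succ_le (t : ℕ) (V : ℕ → ℕ) (e N : ℕ) :
    S.Z t V (e + 1) N ≤ S.P (t + e) (S.Z t V e) N := by
  conv_lhs => unfold Z
  split_ifs
  · exact S.P_nonneg _ (S.Z_nonneg t V e) N
  · exact le_rfl

theorem Z_le_one (t : ℕ) (V : ℕ → ℕ) (e N : ℕ) : S.Z t V e N ≤ 1 := by
  induction e generalizing N with
  | zero => exact le_rfl
  | succ e ih => exact (S.Z_succ_le t V e N).trans (S.P_le_of_le _ N zero_le_one (ih _) (ih _) (ih _))

theorem Z_add_le (t : ℕ) (V : ℕ → ℕ) (e s N : ℕ) :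
    S.Z t V (e + s) N ≤ S.iter (t + e) s (S.Z t V e) N := by
  induction s generalizing N with
  | zero => exact le_rfl
  | succ s ih =>
    refine (S.Z_succ_le t V (e + s) N).trans ?_
    rw [← add_assoc]
    exact S.P_mono _ ih N

open Classical in
theorem iter_one_le (t : ℕ) (V : ℕ → ℕ) (e N : ℕ) :
    S.iter t e (fun _ => 1) N ≤ S.Z t V e N + ∑ i ∈ range e,
      Bn (2 * (e - 1 - i)) (fun M => if S.tall (t + i) M (V i) then 1 else 0) N := by
  induction e generalizing N with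
  | zero => simp [iter, Z]
  | succ e ih =>
    have h0 : ∀ i M, (0 : ℝ) ≤ Bn (2 * (e - 1 - i))
        (fun M => if S.tall (t + i) M (V i) then 1 else 0) M := fun i M =>
      Bn_nonneg (fun M => by split_ifs <;> norm_num) M
    have h1 : S.iter t (e + 1) (fun _ => 1) N ≤ S.P (t + e) (fun M => 1 * S.Z t V e M +
        1 * ∑ i ∈ range e, Bn (2 * (e - 1 - i))
          (fun M => if S.tall (t + i) M (V i) then 1 else 0) M) N :=
      S.P_mono _ (fun M => by simpa using ih M) N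
    have h2 := S.iter_lin (t + e) 1 1 1 (S.Z t V e) (fun M => ∑ i ∈ range e, Bn (2 * (e - 1 - i))
          (fun M => if S.tall (t + i) M (V i) then 1 else 0) M) N
    simp only [iter, add_zero] at h2
    rw [h2, one_mul, one_mul] at h1
    have h3 := S.P_le (t + e) (f := fun M => ∑ i ∈ range e, Bn (2 * (e - 1 - i))
          (fun M => if S.tall (t + i) M (V i) then 1 else 0) M)
          (fun M => sum_nonneg fun i _ => h0 i M) N
    rw [Bn, Ex_sum] at h3
    have h4 : ∑ i ∈ range e, Ex 2 (fun J => Bn (2 * (e - 1 - i))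
        (fun M => if S.tall (t + i) M (V i) then 1 else 0) (N - J)) =
        ∑ i ∈ range e, Bn (2 * (e + 1 - 1 - i))
          (fun M => if S.tall (t + i) M (V i) then 1 else 0) N := by
      refine sum_congr rfl fun i hi => ?_
      have := mem_range.1 hi
      rw [show 2 * (e + 1 - 1 - i) = 2 + 2 * (e - 1 - i) by omega, Bn_add]
      rfl
    rw [h4] at h3
    rw [sum_range_succ, show 2 * (e + 1 - 1 - e) = 0 by omega, Bn_zero]
    have h5 : S.P (t + e) (S.Z t V e) N ≤ S.Z t V (e + 1) N +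
        if S.tall (t + e) N (V e) then 1 else 0 := by
      conv_rhs => unfold Z
      split_ifs
      · rw [zero_add]
        exact S.P_le_of_le _ N zero_le_one (S.Z_le_one _ _ _ _) (S.Z_le_one _ _ _ _)
          (S.Z_le_one _ _ _ _)
      · rw [add_zero]
    linarith

end Sys

/-- The allowed height at offset `p`. -/
def Vh (p : ℕ) : ℕ := 10 ^ 10 * 2 ^ p * (2 * p + 3)

/-- Ends of the excursions. -/
def ps : ℕ → ℕ
  | 0 => 0
  | i + 1 => ps i + Vh (ps i) + 1

theorem Vh_mono {p q : ℕ} (h : p ≤ q) : Vh p ≤ Vh q :=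
  Nat.mul_le_mul (Nat.mul_le_mul_left _ (Nat.pow_le_pow_right (by norm_num) h)) (by omega)

theorem ps_mono {i j : ℕ} (h : i ≤ j) : ps i ≤ ps j := by
  induction j, h using Nat.le_induction with
  | base => exact le_rfl
  | succ j _ ih =>
    have : ps (j + 1) = ps j + Vh (ps j) + 1 := rfl
    omega

namespace Sys

variable (S : Sys)

theorem Z_small (t R a : ℕ) (ha : a ≤ R) : ∀ e N, e ≤ ps R → ps R ≤ e + ps (R - a) →
    2 * e + 2 ≤ N → S.Z t (fun i => Vh (ps R - 1 - i)) e N ≤ (127 / 128) ^ a := by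
  induction a with
  | zero => exact fun e N _ _ _ => by simpa using S.Z_le_one _ _ _ _
  | succ a ih =>
    intro e N he1 he2 hN
    have ih' := ih (by omega)
    have h1 : ps (R - a) = ps (R - (a + 1)) + Vh (ps (R - (a + 1))) + 1 := by
      rw [show R - a = R - (a + 1) + 1 by omega]
      rfl
    have h2 : ps (R - a) ≤ ps R := ps_mono (by omega)
    obtain ⟨e, rfl⟩ : ∃ e', e = e' + 1 := ⟨e - 1, by omega⟩
    have h3 : Vh (ps R - 1 - e) ≤ Vh (ps (R - (a + 1))) := Vh_mono (by omega)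
    have hp : (0 : ℝ) ≤ (127 / 128) ^ a := by positivity
    by_cases ht : S.tall (t + e) N (Vh (ps R - 1 - e))
    · unfold Z
      rw [if_pos ht]
      positivity
    by_cases hw : S.white (t + e) N
    · refine (S.Z_succ_le _ _ e N).trans ((S.P_white hw (ih' e N (by omega) (by omega) (by omega))
        (ih' e _ (by omega) (by omega) (by omega)) (ih' e _ (by omega) (by omega) ?_)).trans ?_)
      · omega
      · rw [pow_succ]
        linarith
    · have h4 : S.ht (t + e) N ≤ Vh (ps R - 1 - e) := by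
        by_contra hc
        exact ht ⟨by omega, hw, by omega⟩
      set h := S.ht (t + e) N with hh
      have h5 := S.Z_add_le t (fun i => Vh (ps R - 1 - i)) (e - h) (1 + h) N
      rw [show e - h + (1 + h) = e + 1 by omega, show t + (e - h) = t + e - h by omega] at h5
      refine h5.trans ?_
      rw [pow_succ, mul_comm]
      refine S.excursion hw (by omega) (by omega) hp (S.Z_nonneg _ _ _) fun M h6 _ => ?_
      exact ih' _ _ (by omega) (by omega) (by omega)

open Classical in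
theorem tall_mass {r N p : ℕ} (hN : 2 ≤ N) (hb : ¬ S.white r N) (hp : S.ht r N + p ≤ r) :
    Bn (2 * (S.ht r N + p))
      (fun M => if S.tall (r - S.ht r N - p) M (Vh p) then 1 else 0) N ≤
      2 ^ p * (991 / 1000) ^ S.ht r N + 3 / 10 ^ 10 * (1 / 2) ^ p +
        3 * (2 * p + 3) * mid (S.ht r N + p) := by
  set h := S.ht r N with hh
  have h1 := chern h p (2 * (h + p)) le_rfl
  have h2 := sep_mass (h + p) (2 * p + 2) (Vh p) (Nat.succ_le_of_lt (by unfold Vh; positivity))
    (fun J => 8 * J < 9 * h ∧ S.tall (r - h - p) (N - J) (Vh p))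
    (fun x y hx hy hxy => S.sep r N p (Vh p) x y hN hb hp hxy (by omega)
      (by have := hy.2.1; omega) hx.2.2.1 hx.2.2.2 hy.2.2.1 hy.2.2.2)
  have h3 : Bn (2 * (h + p)) (fun M => if S.tall (r - h - p) M (Vh p) then 1 else 0) N ≤
      Ex (2 * (h + p)) fun J => (if 9 * h ≤ 8 * J then 1 else 0) +
        (if 8 * J < 9 * h ∧ S.tall (r - h - p) (N - J) (Vh p) then 1 else 0) := by
    refine Ex_mono fun J _ => ?_
    beta_reduce
    by_cases a1 : S.tall (r - h - p) (N - J) (Vh p)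
    · by_cases a2 : 9 * h ≤ 8 * J
      · rw [if_pos a1, if_pos a2]
        split_ifs <;> norm_num
      · rw [if_pos a1, if_neg a2, if_pos ⟨by omega, a1⟩]
        norm_num
    · rw [if_neg a1]
      split_ifs <;> norm_num
  rw [Ex_add] at h3
  have h4 : (3 * (((2 * p + 2 : ℕ) : ℝ) + 1) / (Vh p : ℝ)) = 3 / 10 ^ 10 * (1 / 2) ^ p := by
    unfold Vh
    push_cast
    rw [one_div, inv_pow]
    field_simp
    ring
  rw [h4] at h2
  push_cast at h2
  linarith

end Sys

theorem mid_anti {a b : ℕ} (h : a ≤ b) : mid b ≤ mid a := by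
  induction b, h using Nat.le_induction with
  | base => exact le_rfl
  | succ n _ ih =>
    refine le_trans ?_ ih
    have h := Nat.succ_mul_centralBinom_succ n
    rw [Nat.centralBinom_eq_two_mul_choose, Nat.centralBinom_eq_two_mul_choose] at h
    have h' : ((n : ℝ) + 1) * ((2 * (n + 1)).choose (n + 1) : ℝ) =
        2 * (2 * n + 1) * ((2 * n).choose n : ℝ) := by exact_mod_cast h
    have e : mid (n + 1) = mid n * ((2 * n + 1) / (2 * n + 2)) := by
      unfold mid
      rw [show 2 * (n + 1) = 2 * n + 2 by ring, pow_add] at *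
      field_simp
      linarith
    rw [e]
    refine mul_le_of_le_one_right (mid_nonneg n) ?_
    rw [div_le_one (by positivity)]
    linarith

theorem mid_tendsto : Tendsto mid atTop (nhds 0) := by
  have h : Tendsto (fun n : ℕ => Real.sqrt (1 / ((n : ℝ) + 1))) atTop (nhds 0) := by
    have := (Real.continuous_sqrt.tendsto 0).comp tendsto_one_div_add_atTop_nhds_zero_nat
    rw [Real.sqrt_zero] at this
    exact this
  refine squeeze_zero mid_nonneg (fun n => Real.le_sqrt_of_sq_le ?_) h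
  rw [le_div_iff₀ (by positivity)]
  nlinarith [mid_sq n, sq_nonneg (mid n), (Nat.cast_nonneg n : (0 : ℝ) ≤ n)]

theorem exists_h0 (Pe : ℕ) : ∃ h0 : ℕ, ∀ h, h0 ≤ h →
    ((10 : ℝ) ^ 8 * (Pe + 1) + (3072 * h) ^ 8) * (2 ^ Pe * (991 / 1000) ^ h) ≤ 1 / 4 ∧
      (10 : ℝ) ^ 8 * (Pe * (3 * (2 * Pe + 3))) * mid h ≤ 1 / 4 := by
  have h1 := tendsto_pow_const_mul_const_pow_of_abs_lt_one 8 (r := 991 / 1000)
    (by rw [abs_of_pos] <;> norm_num)
  have h2 := tendsto_pow_atTop_nhds_zero_of_lt_one (r := (991 / 1000 : ℝ)) (by norm_num)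
    (by norm_num)
  have h3 := (h2.const_mul ((10 : ℝ) ^ 8 * (Pe + 1) * 2 ^ Pe)).add
    (h1.const_mul ((3072 : ℝ) ^ 8 * 2 ^ Pe))
  have h4 := mid_tendsto.const_mul ((10 : ℝ) ^ 8 * (Pe * (3 * (2 * Pe + 3))))
  simp only [mul_zero, add_zero] at h3 h4
  have h5 := (h3.eventually (ge_mem_nhds (show (0 : ℝ) < 1 / 4 by norm_num))).and
    (h4.eventually (ge_mem_nhds (show (0 : ℝ) < 1 / 4 by norm_num)))
  obtain ⟨h0, hh⟩ := eventually_atTop.1 h5
  refine ⟨h0, fun h hle => ⟨le_of_eq_of_le ?_ (hh h hle).1, (hh h hle).2⟩⟩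
  ring

theorem pow8_bound {a N c : ℝ} (hN : 0 < N) (hc : 0 ≤ c) (ha : (1 - 1 / 1024) * N ≤ a) :
    127 / 128 * (c / a ^ 8) ≤ c / N ^ 8 := by
  have ha0 : 0 < a := by nlinarith
  have h1 : ((1 - 1 / 1024) * N) ^ 8 ≤ a ^ 8 := pow_le_pow_left₀ (by positivity) ha 8
  rw [mul_pow] at h1
  have h2 : (127 / 128 : ℝ) ≤ (1 - 1 / 1024) ^ 8 := by norm_num
  rw [← mul_div_assoc, div_le_div_iff₀ (by positivity) (by positivity)]
  have h3 : 127 / 128 * N ^ 8 ≤ a ^ 8 :=
    (mul_le_mul_of_nonneg_right h2 (by positivity)).trans h1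
  nlinarith

/-- Polynomial decay of the majorant, uniformly in the colouring. -/
theorem Q_decay : ∃ C : ℝ, 0 ≤ C ∧ ∀ (S : Sys) (r N : ℕ), 1 ≤ N → S.Q r N ≤ C / (N : ℝ) ^ 8 := by
  classical
  obtain ⟨R, hR⟩ := exists_pow_lt_of_lt_one (show (0 : ℝ) < 1 / (4 * 10 ^ 8) by norm_num)
    (show (127 / 128 : ℝ) < 1 by norm_num)
  obtain ⟨h0, hh0⟩ := exists_h0 (ps R)
  set Pe := ps R with hPe
  set N0 : ℕ := 3072 * h0 + 20 * Pe + 10000 with hN0
  refine ⟨(N0 : ℝ) ^ 8, by positivity, fun S r => ?_⟩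
  have hC1 : (1 : ℝ) ≤ (N0 : ℝ) ^ 8 := one_le_pow₀ (by exact_mod_cast (by omega : 1 ≤ N0))
  induction r using Nat.strong_induction_on with
  | _ r ih =>
  intro N hN1
  have hNp : (0 : ℝ) < N := by exact_mod_cast hN1
  by_cases hN : N ≤ N0
  · refine (S.Q_le_one r N).trans ?_
    rw [le_div_iff₀ (by positivity), one_mul]
    exact pow_le_pow_left₀ hNp.le (by exact_mod_cast hN) 8
  have hzero : 2 * r + 2 ≤ N → S.Q r N ≤ (N0 : ℝ) ^ 8 / (N : ℝ) ^ 8 := by
    intro h
    refine (S.Q_le_Ex r N).trans ((Ex_mono fun J hJ => ?_).trans (Ex_const _ _).le)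
    rw [if_neg (by omega)]
    positivity
  rcases r with _ | r
  · exact hzero (by omega)
  have hlev : ∀ r' M a : ℕ, r' ≤ r → 1 ≤ a → a ≤ M →
      S.Q r' M ≤ (N0 : ℝ) ^ 8 / (a : ℝ) ^ 8 := by
    intro r' M a hr' ha haM
    refine (ih r' (by omega) M (by omega)).trans ?_
    have : (0 : ℝ) < a := by exact_mod_cast ha
    exact div_le_div_of_nonneg_left (by positivity) (by positivity)
      (pow_le_pow_left₀ this.le (by exact_mod_cast haM) 8)
  have hcast : ∀ a : ℕ, 1023 * N ≤ 1024 * a → (1 - 1 / 1024 : ℝ) * N ≤ a := by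
    intro a ha
    have : (1023 : ℝ) * N ≤ 1024 * a := by exact_mod_cast ha
    linarith
  by_cases hw : S.white r N
  · have h1 : S.Q (r + 1) N = S.P r (S.Q r) N := by
      rw [S.Q_add r 1]
      rfl
    rw [h1]
    refine (S.P_white hw (hlev r N (N - 2) le_rfl (by omega) (by omega))
      (hlev r _ (N - 2) le_rfl (by omega) (by omega))
      (hlev r _ (N - 2) le_rfl (by omega) le_rfl)).trans ?_
    refine le_trans ?_ (pow8_bound hNp (by positivity) (hcast (N - 2) (by omega)))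
    exact mul_le_mul_of_nonneg_right (by norm_num) (by positivity)
  have hle := S.ht_le r N (by omega) hw
  set h := S.ht r N with hh
  by_cases hs : 3072 * h < N
  · by_cases hr : h ≤ r
    · have h1 := S.Q_add (r - h) (1 + h)
      rw [show r - h + (1 + h) = r + 1 by omega] at h1
      rw [h1]
      refine (S.excursion hw hr (by omega) (b := (N0 : ℝ) ^ 8 / ((N - 2 * h - 2 : ℕ) : ℝ) ^ 8)
        (by positivity) (S.Q_nonneg _) fun M h6 _ => ?_).trans
        (pow8_bound hNp (by positivity) (hcast _ (by omega)))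
      exact hlev _ _ _ (by omega) (by omega) (by omega)
    · exact hzero (by omega)
  obtain ⟨k1, k2⟩ := hh0 h (by omega)
  set ch : ℝ := 2 ^ Pe * (991 / 1000) ^ h with hch
  have hch0 : 0 ≤ ch := by positivity
  have hN8 : (N : ℝ) ^ 8 ≤ (3072 * h) ^ 8 :=
    pow_le_pow_left₀ hNp.le (by exact_mod_cast (by omega : N ≤ 3072 * h)) 8
  have hN8' : (N : ℝ) ^ 8 * ch ≤ (3072 * h) ^ 8 * ch := mul_le_mul_of_nonneg_right hN8 hch0
  have hPe0 : (0 : ℝ) ≤ Pe := Nat.cast_nonneg _
  by_cases hr : r + 1 < Pe + h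
  · refine (S.Q_le_Ex _ N).trans ?_
    have h1 : (Ex (2 * (r + 1)) fun J => if N - J ≤ 1 then 1 else 0) ≤
        Ex (2 * (r + 1)) fun J => if 9 * h ≤ 8 * J then 1 else 0 := by
      refine Ex_mono fun J _ => ?_
      split_ifs <;> first | omega | norm_num
    refine (h1.trans (chern h Pe _ (by omega))).trans ?_
    rw [le_div_iff₀ (by positivity)]
    have h2 : 0 ≤ (10 : ℝ) ^ 8 * (Pe + 1) * ch := by positivity
    rw [add_mul] at k1
    rw [← hch, mul_comm]
    exact hN8'.trans (le_trans (le_add_of_nonneg_left h2) (k1.trans (le_trans (by norm_num) hC1)))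
  set t := r + 1 - Pe - h with ht
  have hh1 : 1 ≤ h := by omega
  have h1 := S.Q_add t (Pe + h)
  rw [show t + (Pe + h) = r + 1 by omega] at h1
  set c : ℝ := (N0 : ℝ) ^ 8 / (N : ℝ) ^ 8 with hc
  have hc0 : 0 ≤ c := by positivity
  have h2 : ∀ M, S.Q t M ≤ c * 10 ^ 8 * 1 + c * (N : ℝ) ^ 8 * (if 10 * M < N then 1 else 0) := by
    intro M
    split_ifs with hM
    · have : c * (N : ℝ) ^ 8 = (N0 : ℝ) ^ 8 := div_mul_cancel₀ _ (by positivity)
      have := S.Q_le_one t M
      have : 0 ≤ c * 10 ^ 8 := by positivity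
      linarith
    · rw [mul_zero, add_zero, mul_one]
      have hM1 : 1 ≤ M := by omega
      refine (ih t (by omega) M hM1).trans ?_
      have hMp : (0 : ℝ) < M := by exact_mod_cast hM1
      have h3 : (N : ℝ) ^ 8 ≤ (10 * M) ^ 8 :=
        pow_le_pow_left₀ hNp.le (by exact_mod_cast (by omega : N ≤ 10 * M)) 8
      rw [hc, div_mul_eq_mul_div, div_le_div_iff₀ (by positivity) (by positivity), mul_assoc,
        ← mul_pow 10]
      exact mul_le_mul_of_nonneg_left h3 (by positivity)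
  have h3 := S.iter_mono t (Pe + h) h2 N
  rw [S.iter_lin t (Pe + h) _ _ (fun _ => 1) (fun M => if 10 * M < N then 1 else 0)] at h3
  have h4 : S.iter t (Pe + h) (fun M => if 10 * M < N then 1 else 0) N ≤ ch := by
    refine (S.iter_le_Bn _ _ (fun M => by split_ifs <;> norm_num) N).trans
      (le_trans (Ex_mono fun J _ => ?_) (chern h Pe _ (by omega)))
    beta_reduce
    split_ifs <;> first | omega | norm_num
  have h5 : S.iter t (Pe + h) (fun _ => 1) N ≤ (127 / 128) ^ R + ch + (Pe * ch + 6 / 10 ^ 10 +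
      Pe * (3 * (2 * Pe + 3)) * mid h) := by
    rw [S.iter_add]
    refine (S.iter_le_Bn _ _ (S.iter_nonneg _ _ fun _ => zero_le_one) N).trans ?_
    refine (Bn_mono (S.iter_one_le t (fun i => Vh (Pe - 1 - i)) Pe) N).trans ?_
    rw [Bn, Ex_add, Ex_sum]
    refine add_le_add ?_ ?_
    · have : Ex (2 * h) (fun J => S.Z t (fun i => Vh (Pe - 1 - i)) Pe (N - J)) ≤
          Ex (2 * h) fun J => (127 / 128) ^ R + (if 9 * h ≤ 8 * J then 1 else 0) := by
        refine Ex_mono fun J _ => ?_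
        split_ifs with hJ
        · have := S.Z_le_one t (fun i => Vh (Pe - 1 - i)) Pe (N - J)
          have : (0 : ℝ) ≤ (127 / 128) ^ R := by positivity
          linarith
        · rw [add_zero]
          exact S.Z_small t R R le_rfl Pe _ le_rfl (by omega) (by omega)
      rw [Ex_add, Ex_const] at this
      linarith [chern h Pe (2 * h) (by omega)]
    · have h6 : ∀ i ∈ range Pe, Ex (2 * h) (fun J => Bn (2 * (Pe - 1 - i))
          (fun M => if S.tall (t + i) M (Vh (Pe - 1 - i)) then 1 else 0) (N - J)) ≤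
          ch + 3 / 10 ^ 10 * (1 / 2) ^ (Pe - 1 - i) + 3 * (2 * Pe + 3) * mid h := by
        intro i hi
        have hi' := mem_range.1 hi
        have h7 := S.tall_mass (p := Pe - 1 - i) (by omega) hw (by omega)
        rw [← hh, show r - h - (Pe - 1 - i) = t + i by omega, mul_add, Bn_add] at h7
        refine le_trans h7 (add_le_add (add_le_add ?_ le_rfl) ?_)
        · exact mul_le_mul_of_nonneg_right (pow_le_pow_right₀ (by norm_num) (by omega))
            (by positivity)
        · have h8 : ((Pe - 1 - i : ℕ) : ℝ) ≤ Pe := by exact_mod_cast (by omega : Pe - 1 - i ≤ Pe)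
          exact mul_le_mul (by linarith) (mid_anti (by omega)) (mid_nonneg _) (by positivity)
      refine (sum_le_sum h6).trans ?_
      rw [sum_add_distrib, sum_add_distrib, sum_const, sum_const, card_range, nsmul_eq_mul,
        nsmul_eq_mul, ← mul_sum, sum_range_reflect (fun i => (1 / 2 : ℝ) ^ i) Pe]
      have := sum_geometric_two_le Pe
      linarith
  rw [h1]
  refine h3.trans ?_
  have h6 : (10 : ℝ) ^ 8 * S.iter t (Pe + h) (fun _ => 1) N + (N : ℝ) ^ 8 *
      S.iter t (Pe + h) (fun M => if 10 * M < N then 1 else 0) N ≤ 1 := by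
    have h7 := (mul_le_mul_of_nonneg_left h4 (show (0 : ℝ) ≤ (N : ℝ) ^ 8 by positivity)).trans hN8'
    rw [add_mul] at k1
    rw [mul_assoc] at k2
    generalize (3072 * (h : ℝ)) ^ 8 * ch = u at *
    generalize (N : ℝ) ^ 8 * S.iter t (Pe + h) (fun M => if 10 * M < N then 1 else 0) N = w at *
    generalize (Pe : ℝ) * (3 * (2 * Pe + 3)) * mid h = z at *
    generalize (127 / 128 : ℝ) ^ R = y at *
    have e : (10 : ℝ) ^ 8 * (Pe + 1) * ch = 10 ^ 8 * (Pe * ch) + 10 ^ 8 * ch := by ring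
    rw [e] at k1
    norm_num at *
    linarith
  rw [mul_assoc, mul_assoc, ← mul_add]
  exact mul_le_of_le_one_right hc0 h6

end Pool.Agent.Lib.MP_7f88e4_nt.PS
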